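import Pool.Agent.UFU.Stmts

/-!
# The final asymptotic estimate (module UFU_ASY)
-/

set_option autoImplicit false

noncomputable section

namespace Pool.Agent.UFU

open Finset Filter Topology

namespace ASY

lemma fact_le {t : ℕ} (ht : 1 ≤ t) : (t.factorial : ℝ) ≤ Real.exp ((t : ℝ) * t) := by
  have h1 : (t.factorial : ℝ) ≤ (t : ℝ) ^ t := by
    exact_mod_cast Nat.factorial_le_pow t
  have h0 : (0 : ℝ) < t := by exact_mod_cast ht
  have h2 : (t : ℝ) ^ t ≤ (Real.exp t) ^ t :=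
    pow_le_pow_left₀ h0.le ((Real.add_one_le_exp (t : ℝ)).trans' (by linarith)) t
  rw [← Real.exp_nat_mul] at h2
  exact h1.trans h2

lemma sum_two (i : ℕ) : ∑ j ∈ range i, (2 : ℝ) ^ (j + 1) ≤ 2 ^ (i + 1) := by
  induction i with
  | zero => simp
  | succ n ih =>
    rw [sum_range_succ, pow_succ (2 : ℝ) (n + 1)]
    linarith

end ASY

open ASY in
theorem t_ASY : S_ASY := by
  intro c C E δ V hc hC hE hδ hV
  set ℓ : ℝ := Real.log c with hℓ
  have hℓ0 : 0 < ℓ := Real.log_pos hc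
  have hc0 : 0 < c := by linarith
  have hcexp : c = Real.exp ℓ := (Real.exp_log hc0).symm
  have hlC : 0 ≤ Real.log C := Real.log_nonneg hC
  have hC0 : 0 < C := by linarith
  have hE0 : 0 < E := by linarith
  set A : ℝ := 4 + 2 * ℓ + Real.log C + 3 * E with hA
  have hA0 : 0 < A := by positivity
  have hδℓ : 0 < δ * ℓ := mul_pos hδ hℓ0
  -- the growth condition
  have hev : ∀ᶠ m : ℕ in atTop, 9 * A * (m : ℝ) ^ 2 ≤ δ * ℓ * 2 ^ m := by
    have h := tendsto_pow_const_div_const_pow_of_one_lt 2 (one_lt_two : (1 : ℝ) < 2)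
    have h2 : ∀ᶠ m : ℕ in atTop, (m : ℝ) ^ 2 / 2 ^ m < δ * ℓ / (9 * A) :=
      h.eventually (gt_mem_nhds (by positivity))
    filter_upwards [h2] with m hm
    rw [div_lt_div_iff₀ (by positivity) (by positivity)] at hm
    linarith
  have hdiv : Tendsto (fun t : ℕ => t / 2) atTop atTop :=
    Nat.tendsto_div_const_atTop (by norm_num)
  filter_upwards [hdiv.eventually hev, eventually_ge_atTop 10] with t ht ht10
  set m : ℕ := t / 2 with hm
  set s : ℕ := t - 5 - m with hs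
  refine ⟨m, s, by omega, ?_⟩
  have ht1 : (1 : ℝ) ≤ t := by
    have : 1 ≤ t := by omega
    exact_mod_cast this
  have ht0 : (0 : ℝ) < t := by linarith
  have hV0 : ∀ j, 0 < V j := fun j => lt_of_lt_of_le one_pos (hV j).1
  have hVe : ∀ j, V j ≤ Real.exp (2 ^ (j + 1) * ℓ) := by
    intro j
    have h := (hV j).2
    rw [hcexp, ← Real.exp_nat_mul] at h
    push_cast at h
    exact h
  -- the product
  set P : ℝ := ∏ j ∈ range m, ((t : ℝ) * V j) with hP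
  have hP0 : 0 < P := prod_pos fun j _ => mul_pos ht0 (hV0 j)
  have hPe : P ≤ Real.exp (m * t + 2 ^ (m + 1) * ℓ) := by
    have h1 : P ≤ ∏ j ∈ range m, Real.exp (t + 2 ^ (j + 1) * ℓ) := by
      refine prod_le_prod (fun j _ => (mul_pos ht0 (hV0 j)).le) fun j _ => ?_
      rw [Real.exp_add]
      refine mul_le_mul ?_ (hVe j) (hV0 j).le (Real.exp_pos _).le
      linarith [Real.add_one_le_exp (t : ℝ)]
    refine h1.trans ?_
    rw [← Real.exp_sum]
    apply Real.exp_le_exp.2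
    rw [sum_add_distrib, ← sum_mul]
    simp only [sum_const, card_range, nsmul_eq_mul]
    have := mul_le_mul_of_nonneg_right (sum_two m) hℓ0.le
    linarith
  have hPV0 : 0 < P * V m := mul_pos hP0 (hV0 m)
  have hPV : P * V m ≤ Real.exp (m * t + 2 ^ (m + 2) * ℓ) := by
    have h : Real.exp (m * t + 2 ^ (m + 2) * ℓ)
        = Real.exp (m * t + 2 ^ (m + 1) * ℓ) * Real.exp (2 ^ (m + 1) * ℓ) := by
      rw [← Real.exp_add]
      congr 1
      ring
    rw [h]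
    exact mul_le_mul hPe (hVe m) (hV0 m).le (Real.exp_pos _).le
  have hEs : 0 ≤ E * 2 ^ s := by positivity
  have h5 : (P * V m) ^ (E * 2 ^ s) ≤ Real.exp ((m * t + 2 ^ (m + 2) * ℓ) * (E * 2 ^ s)) := by
    refine (Real.rpow_le_rpow hPV0.le hPV hEs).trans ?_
    rw [← Real.exp_mul]
  have h4 : (t : ℝ) ^ (2 * E * 2 ^ s) ≤ Real.exp (t * (2 * E * 2 ^ s)) := by
    refine (Real.rpow_le_rpow ht0.le (z := 2 * E * 2 ^ s) (y := Real.exp t) ?_ (by positivity)).trans ?_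
    · linarith [Real.add_one_le_exp (t : ℝ)]
    · rw [← Real.exp_mul]
  have h3 : (3 : ℝ) ^ s ≤ Real.exp (s * 2) := by
    rw [Real.exp_nat_mul]
    refine pow_le_pow_left₀ (by norm_num) ?_ s
    linarith [Real.add_one_le_exp (2 : ℝ)]
  have h2 : C = Real.exp (Real.log C) := (Real.exp_log hC0).symm
  -- collect
  have hL : (t.factorial : ℝ) * (P * (C * 3 ^ s * (t : ℝ) ^ (2 * E * 2 ^ s) *
      (P * V m) ^ (E * 2 ^ s))) ≤ Real.exp ((t : ℝ) * t) * (Real.exp (m * t + 2 ^ (m + 1) * ℓ) *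
      (Real.exp (Real.log C) * Real.exp (s * 2) * Real.exp (t * (2 * E * 2 ^ s)) *
      Real.exp ((m * t + 2 ^ (m + 2) * ℓ) * (E * 2 ^ s)))) := by
    have a1 : 0 ≤ (t : ℝ) ^ (2 * E * 2 ^ s) := Real.rpow_nonneg ht0.le _
    have a2 : 0 ≤ (P * V m) ^ (E * 2 ^ s) := Real.rpow_nonneg hPV0.le _
    refine mul_le_mul (fact_le (by omega)) ?_ (by positivity) (Real.exp_pos _).le
    refine mul_le_mul hPe ?_ (by positivity) (Real.exp_pos _).le
    refine mul_le_mul ?_ h5 a2 (by positivity)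
    refine mul_le_mul ?_ h4 a1 (by positivity)
    exact mul_le_mul h2.le h3 (by positivity) (Real.exp_pos _).le
  refine hL.trans ?_
  rw [← Real.exp_add, ← Real.exp_add, ← Real.exp_add, ← Real.exp_add, ← Real.exp_add, hcexp,
    ← Real.exp_mul]
  apply Real.exp_le_exp.2
  -- the exponents
  set M : ℝ := 2 ^ m with hM
  have hM1 : 1 ≤ M := one_le_pow₀ (by norm_num)
  have hsm : (2 : ℝ) ^ s ≤ M := pow_le_pow_right₀ (by norm_num) (by omega)
  have hs0 : (0 : ℝ) < 2 ^ s := by positivity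
  have e1 : (2 : ℝ) ^ (m + 1) = 2 * M := by rw [hM, pow_succ]; ring
  have e2 : (2 : ℝ) ^ (m + 2) * 2 ^ s = 2 ^ t / 8 := by
    have h : m + 2 + s + 3 = t := by omega
    rw [eq_div_iff (by norm_num), ← pow_add, show (8 : ℝ) = 2 ^ 3 by norm_num, ← pow_add, h]
  have e3 : M * 2 ^ m ≤ (2 : ℝ) ^ t := by
    rw [hM, ← pow_add]
    exact pow_le_pow_right₀ (by norm_num) (by omega)
  have hmt : (m : ℝ) ≤ t := by
    have : m ≤ t := by omega
    exact_mod_cast this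
  have hst : (s : ℝ) ≤ t := by
    have : s ≤ t := by omega
    exact_mod_cast this
  have htm : (t : ℝ) ≤ 3 * m := by
    have : t ≤ 3 * m := by omega
    exact_mod_cast this
  have hm0 : (0 : ℝ) ≤ m := by positivity
  have hs00 : (0 : ℝ) ≤ s := by positivity
  have ht2 : (1 : ℝ) ≤ (t : ℝ) ^ 2 := one_le_pow₀ ht1
  have hMt : (1 : ℝ) ≤ M * (t : ℝ) ^ 2 := by nlinarith
  have k1 : (t : ℝ) * t ≤ 1 * (M * (t : ℝ) ^ 2) := by nlinarith
  have k2 : (m : ℝ) * t ≤ 1 * (M * (t : ℝ) ^ 2) := by nlinarith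
  have k3 : 2 * M * ℓ ≤ 2 * ℓ * (M * (t : ℝ) ^ 2) := by
    have : M ≤ M * (t : ℝ) ^ 2 := by nlinarith
    nlinarith
  have k4 : Real.log C ≤ Real.log C * (M * (t : ℝ) ^ 2) := by nlinarith
  have k5 : (s : ℝ) * 2 ≤ 2 * (M * (t : ℝ) ^ 2) := by nlinarith
  have k6 : (t : ℝ) * (2 * E * 2 ^ s) ≤ 2 * E * (M * (t : ℝ) ^ 2) := by
    have h : (t : ℝ) * 2 ^ s ≤ M * (t : ℝ) ^ 2 := by
      have : (t : ℝ) * 2 ^ s ≤ t * M := mul_le_mul_of_nonneg_left hsm ht0.le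
      have h' : (t : ℝ) * M ≤ M * (t : ℝ) ^ 2 := by nlinarith
      linarith
    nlinarith
  have k7 : (m : ℝ) * t * (E * 2 ^ s) ≤ E * (M * (t : ℝ) ^ 2) := by
    have h : (m : ℝ) * t * 2 ^ s ≤ M * (t : ℝ) ^ 2 := by
      have h' : (m : ℝ) * t * 2 ^ s ≤ t * t * M :=
        mul_le_mul (mul_le_mul_of_nonneg_right hmt ht0.le) hsm hs0.le (by positivity)
      nlinarith
    nlinarith
  have k8 : A * (M * (t : ℝ) ^ 2) ≤ δ * ℓ * 2 ^ t := by
    have h1 : (t : ℝ) ^ 2 ≤ 9 * (m : ℝ) ^ 2 := by nlinarith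
    have h2 : A * (M * (t : ℝ) ^ 2) ≤ M * (9 * A * (m : ℝ) ^ 2) := by
      have : A * M * (t : ℝ) ^ 2 ≤ A * M * (9 * (m : ℝ) ^ 2) :=
        mul_le_mul_of_nonneg_left h1 (by positivity)
      nlinarith
    have h3 : M * (9 * A * (m : ℝ) ^ 2) ≤ M * (δ * ℓ * 2 ^ m) :=
      mul_le_mul_of_nonneg_left ht (by linarith)
    have h4 : M * (δ * ℓ * 2 ^ m) ≤ δ * ℓ * 2 ^ t := by
      have := mul_le_mul_of_nonneg_left e3 hδℓ.le
      linarith
    linarith
  have k9 : (m * t + 2 ^ (m + 2) * ℓ) * (E * 2 ^ s)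
      = (m : ℝ) * t * (E * 2 ^ s) + E / 8 * 2 ^ t * ℓ := by
    have : (2 : ℝ) ^ (m + 2) * ℓ * (E * 2 ^ s) = (2 ^ (m + 2) * 2 ^ s) * (ℓ * E) := by ring
    rw [add_mul, this, e2]
    ring
  rw [k9, e1]
  have hAexp : A * (M * (t : ℝ) ^ 2) = 1 * (M * (t : ℝ) ^ 2) + 1 * (M * (t : ℝ) ^ 2)
      + 2 * ℓ * (M * (t : ℝ) ^ 2) + Real.log C * (M * (t : ℝ) ^ 2) + 2 * (M * (t : ℝ) ^ 2)
      + 2 * E * (M * (t : ℝ) ^ 2) + E * (M * (t : ℝ) ^ 2) := by
    rw [hA]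
    ring
  have hR : ℓ * ((E / 8 + δ) * 2 ^ t) = E / 8 * 2 ^ t * ℓ + δ * ℓ * 2 ^ t := by ring
  rw [hR]
  linarith

end Pool.Agent.UFU

end
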