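import Pool.Agent.UFU.Stmts

/-!
# CL1: the first class of solutions (`h0 W ≤ M`)
-/

set_option autoImplicit false

namespace Pool.Agent.UFU

open Finset

namespace NCL1

theorem cover {α β : Type*} (S : Finset α) (I : Finset β) (K : ℕ) (P : β → α → Prop)
    (h1 : ∀ s ∈ S, ∃ i ∈ I, P i s)
    (h2 : ∀ i, ∀ S' : Finset α, (∀ s ∈ S', P i s) → S'.card ≤ K) : S.card ≤ I.card * K := by
  classical
  have h3 : S ⊆ I.biUnion (fun i => S.filter (P i)) := by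
    intro s hs
    obtain ⟨i, hi, hP⟩ := h1 s hs
    exact mem_biUnion.2 ⟨i, hi, mem_filter.2 ⟨hs, hP⟩⟩
  exact (card_le_card h3).trans
    (card_biUnion_le_card_mul _ _ _ (fun i _ => h2 i _ (fun s hs => (mem_filter.1 hs).2)))

/-- the data of an element of the class -/
structure Base (a b X M : ℕ) (s : ℕ × ℕ × ℕ × ℕ × ℕ) (h0 : ℕ) (D : Dc) : Prop where
  p0 : 0 < s.1
  p1 : 0 < s.2.1
  p2 : 0 < s.2.2.1
  p3 : 0 < s.2.2.2.1
  p4 : 0 < s.2.2.2.2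
  b0 : b * s.1 ≤ X
  b1 : s.2.1 ≤ X
  b2 : s.2.2.1 ≤ X
  b3 : s.2.2.2.1 ≤ X
  b4 : s.2.2.2.2 ≤ X
  hp : 0 < h0
  e0 : a * s.1 = b + h0
  dec : IsDec h0 (b * s.1) s.2.1 s.2.2.1 s.2.2.2.1 s.2.2.2.2 D
  hW : h0 * D.W ≤ M

/-- all parameters are positive -/
structure Pos (D : Dc) : Prop where
  n1 : 0 < D.n1
  n2 : 0 < D.n2
  n3 : 0 < D.n3
  n4 : 0 < D.n4
  c1 : 0 < D.c1
  c2 : 0 < D.c2
  c3 : 0 < D.c3
  c4 : 0 < D.c4
  d12 : 0 < D.d12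
  d13 : 0 < D.d13
  d14 : 0 < D.d14
  d23 : 0 < D.d23
  d24 : 0 < D.d24
  d34 : 0 < D.d34
  d123 : 0 < D.d123
  d124 : 0 < D.d124
  d134 : 0 < D.d134
  d234 : 0 < D.d234
  d1234 : 0 < D.d1234

theorem Base.pos {a b X M : ℕ} {s : ℕ × ℕ × ℕ × ℕ × ℕ} {h0 : ℕ} {D : Dc} (hb : 0 < b)
    (h : Base a b X M s h0 D) : Pos D := by
  have hn : 0 < b * s.1 := Nat.mul_pos hb h.p0
  have k1 : 0 < D.n1 * D.c1 := by
    rw [h.dec.q1]
    exact hn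
  have k2 : 0 < D.n2 * D.c2 := by
    rw [h.dec.q2]
    exact hn
  have k3 : 0 < D.n3 * D.c3 := by
    rw [h.dec.q3]
    exact hn
  have k4 : 0 < D.n4 * D.c4 := by
    rw [h.dec.q4]
    exact hn
  have x1 := h.p1
  have x2 := h.p2
  have x3 := h.p3
  rw [h.dec.z1] at x1
  rw [h.dec.z2] at x2
  rw [h.dec.z3] at x3
  simp only [CanonicallyOrderedAdd.mul_pos] at k1 k2 k3 k4 x1 x2 x3
  obtain ⟨y1, ⟨⟨⟨⟨⟨y2, y3⟩, y4⟩, y5⟩, y6⟩, y7⟩, y8⟩ := x1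
  obtain ⟨_, ⟨⟨⟨⟨⟨_, u3⟩, u4⟩, _⟩, _⟩, u7⟩, _⟩ := x2
  obtain ⟨_, ⟨⟨⟨⟨⟨_, _⟩, v4⟩, _⟩, _⟩, _⟩, _⟩ := x3
  exact ⟨k1.1, k2.1, k3.1, k4.1, k1.2, k2.2, k3.2, k4.2, y2, y3, y4, u3, u4, v4, y5, y6, y7, u7, y8⟩

/-- numbers -/
def fA (h0 : ℕ) (D : Dc) : ℕ := h0 * D.W * D.d23
/-- numbers -/
def fA1 (D : Dc) : ℕ := D.c1 * (D.d24 * D.d34)
/-- numbers -/
def fB (D : Dc) : ℕ := D.c2 * (D.d13 * D.d34 * D.d134) + D.c3 * (D.d12 * D.d24 * D.d124)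
/-- numbers -/
def fA4 (D : Dc) : ℕ := D.c4 * (D.d12 * D.d13 * D.d123)
/-- numbers -/
def fQ (h0 : ℕ) (D : Dc) : ℕ := fB D * (fA1 D * D.d23) + fA h0 D * (fA4 D * D.d23)

theorem eqn' {a b X M : ℕ} {s : ℕ × ℕ × ℕ × ℕ × ℕ} {h0 : ℕ} {D : Dc}
    (h : Base a b X M s h0 D) : fA h0 D * D.d14 * D.d234 =
      fA1 D * D.d23 * D.d234 + fB D * D.d14 + fA4 D * D.d23 := by
  have h1 := h.dec.eqn
  unfold fA fA1 fB fA4 Dc.W
  calc h0 * (D.d12 * D.d13 * D.d24 * D.d34 * D.d123 * D.d124 * D.d134 * D.d1234) * D.d23 * D.d14 *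
        D.d234 = h0 * (D.d12 * D.d13 * D.d14 * D.d23 * D.d24 * D.d34 * D.d123 * D.d124 * D.d134 *
        D.d234 * D.d1234) := by ring
    _ = _ := by
      rw [h1]
      ring

theorem q_dvd {A A1 B A4 e d14 d234 q : ℕ} (hq : A * d14 = q + A1 * e)
    (he : A * d14 * d234 = A1 * e * d234 + B * d14 + A4 * e) :
    q * d234 = B * d14 + A4 * e ∧ q ∣ B * (A1 * e) + A * (A4 * e) := by
  have h1 : q * d234 = B * d14 + A4 * e := by
    have h2 : (q + A1 * e) * d234 = A1 * e * d234 + B * d14 + A4 * e := by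
      rw [← hq]
      exact he
    rw [add_mul] at h2
    omega
  refine ⟨h1, ?_⟩
  have h2 : q * (A * d234) = q * B + (B * (A1 * e) + A * (A4 * e)) := by
    calc q * (A * d234) = A * (q * d234) := by ring
      _ = A * (B * d14 + A4 * e) := by rw [h1]
      _ = B * (A * d14) + A * (A4 * e) := by ring
      _ = B * (q + A1 * e) + A * (A4 * e) := by rw [hq]
      _ = _ := by ring
  have h3 : q ∣ q * B + (B * (A1 * e) + A * (A4 * e)) := ⟨_, h2.symm⟩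
  exact (Nat.dvd_add_right (dvd_mul_right q B)).1 h3

theorem ex_q {A A1 B A4 e d14 d234 : ℕ} (hB : 0 < B) (h14 : 0 < d14) (hd : 0 < d234)
    (he : A * d14 * d234 = A1 * e * d234 + B * d14 + A4 * e) :
    ∃ q, 0 < q ∧ A * d14 = q + A1 * e := by
  have h1 : A1 * e < A * d14 := by
    by_contra hc
    have h2 : A * d14 * d234 ≤ A1 * e * d234 := Nat.mul_le_mul_right _ (not_lt.1 hc)
    have h3 : 0 < B * d14 := Nat.mul_pos hB h14
    omega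
  exact ⟨A * d14 - A1 * e, by omega, by omega⟩

/-- agreement of the known parameters -/
structure Ag (s : ℕ × ℕ × ℕ × ℕ × ℕ) (h0 : ℕ) (D : Dc) (s' : ℕ × ℕ × ℕ × ℕ × ℕ) (h0' : ℕ)
    (D' : Dc) : Prop where
  x0 : s.1 = s'.1
  h : h0 = h0'
  n1 : D.n1 = D'.n1
  n2 : D.n2 = D'.n2
  n3 : D.n3 = D'.n3
  n4 : D.n4 = D'.n4
  c1 : D.c1 = D'.c1
  c2 : D.c2 = D'.c2
  c3 : D.c3 = D'.c3
  c4 : D.c4 = D'.c4
  d12 : D.d12 = D'.d12
  d13 : D.d13 = D'.d13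
  d24 : D.d24 = D'.d24
  d34 : D.d34 = D'.d34
  d123 : D.d123 = D'.d123
  d124 : D.d124 = D'.d124
  d134 : D.d134 = D'.d134
  d1234 : D.d1234 = D'.d1234

/-- the first nine parameters -/
def vec (h0 : ℕ) (D : Dc) : Fin 9 → ℕ :=
  ![h0, D.d12, D.d13, D.d24, D.d34, D.d123, D.d124, D.d134, D.d1234]

/-- the next four parameters -/
def vec' (D : Dc) : Fin 4 → ℕ := ![D.n1, D.n2, D.n3, D.n4]

theorem x0_eq {a b X M : ℕ} {s s' : ℕ × ℕ × ℕ × ℕ × ℕ} {h0 h0' : ℕ} {D D' : Dc} (ha : 0 < a)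
    (h : Base a b X M s h0 D) (h' : Base a b X M s' h0' D') (hv : vec h0 D = vec h0' D') :
    s.1 = s'.1 := by
  have h1 : h0 = h0' := congrFun hv 0
  have h2 : a * s.1 = a * s'.1 := by rw [h.e0, h'.e0, h1]
  exact Nat.eq_of_mul_eq_mul_left ha h2

theorem ag {a b X M : ℕ} {s s' : ℕ × ℕ × ℕ × ℕ × ℕ} {h0 h0' : ℕ} {D D' : Dc} (ha : 0 < a)
    (hb : 0 < b) (h : Base a b X M s h0 D) (h' : Base a b X M s' h0' D')
    (hv : vec h0 D = vec h0' D') (hv' : vec' D = vec' D') : Ag s h0 D s' h0' D' := by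
  have hx := x0_eq ha h h' hv
  have hp := h.pos hb
  have m1 : D.n1 = D'.n1 := congrFun hv' 0
  have m2 : D.n2 = D'.n2 := congrFun hv' 1
  have m3 : D.n3 = D'.n3 := congrFun hv' 2
  have m4 : D.n4 = D'.n4 := congrFun hv' 3
  refine ⟨hx, congrFun hv 0, m1, m2, m3, m4, ?_, ?_, ?_, ?_, congrFun hv 1, congrFun hv 2,
    congrFun hv 3, congrFun hv 4, congrFun hv 5, congrFun hv 6, congrFun hv 7, congrFun hv 8⟩
  · refine Nat.eq_of_mul_eq_mul_left hp.n1 ?_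
    rw [h.dec.q1, m1, h'.dec.q1, hx]
  · refine Nat.eq_of_mul_eq_mul_left hp.n2 ?_
    rw [h.dec.q2, m2, h'.dec.q2, hx]
  · refine Nat.eq_of_mul_eq_mul_left hp.n3 ?_
    rw [h.dec.q3, m3, h'.dec.q3, hx]
  · refine Nat.eq_of_mul_eq_mul_left hp.n4 ?_
    rw [h.dec.q4, m4, h'.dec.q4, hx]

/-! ### sizes -/

theorem le_X {y x z X : ℕ} (h1 : y * z = x) (h2 : 0 < x) (h3 : x ≤ X) : y ≤ X := by
  have h4 : y ∣ x := ⟨z, h1.symm⟩
  exact (Nat.le_of_dvd h2 h4).trans h3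

theorem size {a b X M : ℕ} {s : ℕ × ℕ × ℕ × ℕ × ℕ} {h0 : ℕ} {D : Dc} (hb : 0 < b) (hMX : M ≤ X)
    (h : Base a b X M s h0 D) : 0 < X ∧ 0 < fB D ∧ fB D ≤ 2 * X ^ 2 ∧ 0 < fQ h0 D ∧
      fQ h0 D ≤ 3 * X ^ 5 := by
  have hp := h.pos hb
  have hn : 0 < b * s.1 := Nat.mul_pos hb h.p0
  have hX : 0 < X := lt_of_lt_of_le hn h.b0
  have hc1 : D.c1 ≤ X := le_X (by rw [mul_comm]; exact h.dec.q1) hn h.b0
  have hc2 : D.c2 ≤ X := le_X (by rw [mul_comm]; exact h.dec.q2) hn h.b0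
  have hc3 : D.c3 ≤ X := le_X (by rw [mul_comm]; exact h.dec.q3) hn h.b0
  have hc4 : D.c4 ≤ X := le_X (by rw [mul_comm]; exact h.dec.q4) hn h.b0
  have g1 : D.d13 * D.d34 * D.d134 ≤ X :=
    le_X (z := D.n3 * (D.d23 * D.d123 * D.d234 * D.d1234)) (by rw [h.dec.z3]; ring) h.p3 h.b3
  have g2 : D.d12 * D.d24 * D.d124 ≤ X :=
    le_X (z := D.n2 * (D.d23 * D.d123 * D.d234 * D.d1234)) (by rw [h.dec.z2]; ring) h.p2 h.b2
  have g3 : D.d12 * D.d13 * D.d123 ≤ X :=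
    le_X (z := D.n1 * (D.d14 * D.d124 * D.d134 * D.d1234)) (by rw [h.dec.z1]; ring) h.p1 h.b1
  have g4 : D.d24 * D.d34 ≤ X :=
    le_X (z := D.n4 * (D.d14 * D.d124 * D.d134 * D.d234 * D.d1234)) (by rw [h.dec.z4]; ring) h.p4
      h.b4
  have g5 : D.d23 ≤ X :=
    le_X (z := D.n2 * (D.d12 * D.d24 * D.d123 * D.d124 * D.d234 * D.d1234))
      (by rw [h.dec.z2]; ring) h.p2 h.b2
  have g6 : h0 * D.W ≤ X := h.hW.trans hMX
  have hA : fA h0 D ≤ X * X := Nat.mul_le_mul g6 g5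
  have hA1 : fA1 D ≤ X * X := Nat.mul_le_mul hc1 g4
  have hA4 : fA4 D ≤ X * X := Nat.mul_le_mul hc4 g3
  have hB : fB D ≤ X * X + X * X := add_le_add (Nat.mul_le_mul hc2 g1) (Nat.mul_le_mul hc3 g2)
  have hB0 : 0 < fB D := by
    unfold fB
    have := Nat.mul_pos hp.c2 (Nat.mul_pos (Nat.mul_pos hp.d13 hp.d34) hp.d134)
    omega
  have hA10 : 0 < fA1 D := Nat.mul_pos hp.c1 (Nat.mul_pos hp.d24 hp.d34)
  refine ⟨hX, hB0, ?_, ?_, ?_⟩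
  · calc fB D ≤ X * X + X * X := hB
      _ = 2 * X ^ 2 := by ring
  · unfold fQ
    have := Nat.mul_pos hB0 (Nat.mul_pos hA10 hp.d23)
    omega
  · unfold fQ
    calc fB D * (fA1 D * D.d23) + fA h0 D * (fA4 D * D.d23)
        ≤ (X * X + X * X) * ((X * X) * X) + (X * X) * ((X * X) * X) :=
          add_le_add (Nat.mul_le_mul hB (Nat.mul_le_mul hA1 g5))
            (Nat.mul_le_mul hA (Nat.mul_le_mul hA4 g5))
      _ = 3 * X ^ 5 := by ring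

theorem pow_big {X : ℕ} (hX : 0 < X) : X ≤ (2 * X) ^ 8 ∧ 2 * X ^ 2 ≤ (2 * X) ^ 8 ∧
    3 * X ^ 5 ≤ (2 * X) ^ 8 := by
  have e : (2 * X) ^ 8 = 256 * X ^ 8 := by ring
  have h1 : X ^ 1 ≤ X ^ 8 := Nat.pow_le_pow_right hX (by norm_num)
  have h2 : X ^ 2 ≤ X ^ 8 := Nat.pow_le_pow_right hX (by norm_num)
  have h3 : X ^ 5 ≤ X ^ 8 := Nat.pow_le_pow_right hX (by norm_num)
  rw [pow_one] at h1
  rw [e]
  omega

/-! ### the stages -/

section stages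

variable {a b X M T : ℕ}

theorem stage5 (ha : 0 < a) (hb : 0 < b) (v : Fin 9 → ℕ) (u : Fin 4 → ℕ) (e q : ℕ)
    (S : Finset (ℕ × ℕ × ℕ × ℕ × ℕ))
    (hS : ∀ s ∈ S, ∃ (h0 : ℕ) (D : Dc), Base a b X M s h0 D ∧ vec h0 D = v ∧ vec' D = u ∧
      D.d23 = e ∧ 0 < q ∧ fA h0 D * D.d14 = q + fA1 D * D.d23) : S.card ≤ 1 := by
  refine card_le_one.2 ?_
  intro s hs s' hs'
  obtain ⟨h0, D, h1, h2, h3, h4, h5, h6⟩ := hS s hs
  obtain ⟨h0', D', h1', h2', h3', h4', _, h6'⟩ := hS s' hs'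
  have g := ag ha hb h1 h1' (h2.trans h2'.symm) (h3.trans h3'.symm)
  have hp := h1.pos hb
  have hp' := h1'.pos hb
  have hd23 : D.d23 = D'.d23 := h4.trans h4'.symm
  have hW : D.W = D'.W := by
    unfold Dc.W
    rw [g.d12, g.d13, g.d24, g.d34, g.d123, g.d124, g.d134, g.d1234]
  have hA : fA h0 D = fA h0' D' := by
    unfold fA
    rw [g.h, hW, hd23]
  have hA1 : fA1 D = fA1 D' := by
    unfold fA1
    rw [g.c1, g.d24, g.d34]
  have hB : fB D = fB D' := by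
    unfold fB
    rw [g.c2, g.c3, g.d13, g.d34, g.d134, g.d12, g.d24, g.d124]
  have hA4 : fA4 D = fA4 D' := by
    unfold fA4
    rw [g.c4, g.d12, g.d13, g.d123]
  have hWp : 0 < D.W := by
    unfold Dc.W
    have := hp.d12
    have := hp.d13
    have := hp.d24
    have := hp.d34
    have := hp.d123
    have := hp.d124
    have := hp.d134
    have := hp.d1234
    positivity
  have hAp : 0 < fA h0 D := Nat.mul_pos (Nat.mul_pos h1.hp hWp) hp.d23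
  have hd14 : D.d14 = D'.d14 := by
    refine Nat.eq_of_mul_eq_mul_left hAp ?_
    rw [h6, hA, h6', hA1, hd23]
  have k1 := (q_dvd h6 (eqn' h1)).1
  have k2 := (q_dvd h6' (eqn' h1')).1
  have hd234 : D.d234 = D'.d234 := by
    refine Nat.eq_of_mul_eq_mul_left h5 ?_
    rw [k1, k2, hB, hA4, hd14, hd23]
  have z1 : s.2.1 = s'.2.1 := by
    rw [h1.dec.z1, h1'.dec.z1, g.n1, g.d12, g.d13, hd14, g.d123, g.d124, g.d134, g.d1234]
  have z2 : s.2.2.1 = s'.2.2.1 := by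
    rw [h1.dec.z2, h1'.dec.z2, g.n2, g.d12, hd23, g.d24, g.d123, g.d124, hd234, g.d1234]
  have z3 : s.2.2.2.1 = s'.2.2.2.1 := by
    rw [h1.dec.z3, h1'.dec.z3, g.n3, g.d13, hd23, g.d34, g.d123, g.d134, hd234, g.d1234]
  have z4 : s.2.2.2.2 = s'.2.2.2.2 := by
    rw [h1.dec.z4, h1'.dec.z4, g.n4, hd14, g.d24, g.d34, g.d124, g.d134, hd234, g.d1234]
  exact Prod.ext g.x0 (Prod.ext z1 (Prod.ext z2 (Prod.ext z3 z4)))

theorem stage4 (ha : 0 < a) (hb : 0 < b) (hT : TauB X T) (hMX : M ≤ X) (v : Fin 9 → ℕ)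
    (u : Fin 4 → ℕ) (e : ℕ) (S : Finset (ℕ × ℕ × ℕ × ℕ × ℕ))
    (hS : ∀ s ∈ S, ∃ (h0 : ℕ) (D : Dc), Base a b X M s h0 D ∧ vec h0 D = v ∧ vec' D = u ∧
      D.d23 = e) : S.card ≤ T := by
  rcases S.eq_empty_or_nonempty with h0 | ⟨s', hs'⟩
  · rw [h0, card_empty]
    exact Nat.zero_le _
  obtain ⟨h0', D', h1', h2', h3', h4'⟩ := hS s' hs'
  obtain ⟨hX, _, _, hQ0, hQ1⟩ := size hb hMX h1'
  have hcard : (fQ h0' D').divisors.card ≤ T := hT _ hQ0 (hQ1.trans (pow_big hX).2.2)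
  have := cover S (fQ h0' D').divisors 1 (fun q s => ∃ (h0 : ℕ) (D : Dc), Base a b X M s h0 D ∧
    vec h0 D = v ∧ vec' D = u ∧ D.d23 = e ∧ 0 < q ∧ fA h0 D * D.d14 = q + fA1 D * D.d23) ?_
    (fun q S' hS' => stage5 ha hb v u e q S' hS')
  · omega
  · intro s hs
    obtain ⟨h0, D, h1, h2, h3, h4⟩ := hS s hs
    have hp := h1.pos hb
    have g := ag ha hb h1 h1' (h2.trans h2'.symm) (h3.trans h3'.symm)
    obtain ⟨q, hq0, hq⟩ := ex_q (size hb hMX h1).2.1 hp.d14 hp.d234 (eqn' h1)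
    refine ⟨q, ?_, h0, D, h1, h2, h3, h4, hq0, hq⟩
    rw [Nat.mem_divisors]
    refine ⟨?_, by omega⟩
    have h5 := (q_dvd hq (eqn' h1)).2
    have hd23 : D.d23 = D'.d23 := h4.trans h4'.symm
    have h6 : fQ h0 D = fQ h0' D' := by
      unfold fQ fA fA1 fB fA4 Dc.W
      rw [g.h, g.c1, g.c2, g.c3, g.c4, g.d12, g.d13, g.d24, g.d34, g.d123, g.d124, g.d134,
        g.d1234, hd23]
    rw [← h6]
    exact h5

theorem stage3 (ha : 0 < a) (hb : 0 < b) (hT : TauB X T) (hMX : M ≤ X) (v : Fin 9 → ℕ)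
    (u : Fin 4 → ℕ) (S : Finset (ℕ × ℕ × ℕ × ℕ × ℕ))
    (hS : ∀ s ∈ S, ∃ (h0 : ℕ) (D : Dc), Base a b X M s h0 D ∧ vec h0 D = v ∧ vec' D = u) :
    S.card ≤ T * T := by
  rcases S.eq_empty_or_nonempty with h0 | ⟨s', hs'⟩
  · rw [h0, card_empty]
    exact Nat.zero_le _
  obtain ⟨h0', D', h1', h2', h3'⟩ := hS s' hs'
  obtain ⟨hX, hB0, hB1, _, _⟩ := size hb hMX h1'
  have hcard : (fB D').divisors.card ≤ T := hT _ hB0 (hB1.trans (pow_big hX).2.1)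
  refine (cover S (fB D').divisors T (fun e s => ∃ (h0 : ℕ) (D : Dc), Base a b X M s h0 D ∧
    vec h0 D = v ∧ vec' D = u ∧ D.d23 = e) ?_
    (fun e S' hS' => stage4 ha hb hT hMX v u e S' hS')).trans (Nat.mul_le_mul_right _ hcard)
  intro s hs
  obtain ⟨h0, D, h1, h2, h3⟩ := hS s hs
  have g := ag ha hb h1 h1' (h2.trans h2'.symm) (h3.trans h3'.symm)
  refine ⟨D.d23, ?_, h0, D, h1, h2, h3, rfl⟩
  rw [Nat.mem_divisors]
  refine ⟨?_, by omega⟩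
  have h6 : fB D = fB D' := by
    unfold fB
    rw [g.c2, g.c3, g.d12, g.d13, g.d24, g.d34, g.d124, g.d134]
  rw [← h6]
  have h5 := eqn' h1
  have h7 : D.d23 ∣ fB D * D.d14 := by
    have k1 : D.d23 ∣ fA h0 D * D.d14 * D.d234 := ⟨h0 * D.W * D.d14 * D.d234, by
      unfold fA
      ring⟩
    rw [h5] at k1
    have k2 : D.d23 ∣ fA4 D * D.d23 := dvd_mul_left _ _
    have k3 : D.d23 ∣ fA1 D * D.d23 * D.d234 := ⟨fA1 D * D.d234, by ring⟩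
    have k4 := (Nat.dvd_add_left k2).1 k1
    exact (Nat.dvd_add_right k3).1 k4
  exact (h1.dec.cop.symm).dvd_of_dvd_mul_right h7

theorem stage2 (ha : 0 < a) (hb : 0 < b) (hT : TauB X T) (hMX : M ≤ X) (v : Fin 9 → ℕ)
    (S : Finset (ℕ × ℕ × ℕ × ℕ × ℕ))
    (hS : ∀ s ∈ S, ∃ (h0 : ℕ) (D : Dc), Base a b X M s h0 D ∧ vec h0 D = v) :
    S.card ≤ T ^ 4 * (T * T) := by
  rcases S.eq_empty_or_nonempty with h0 | ⟨s', hs'⟩
  · rw [h0, card_empty]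
    exact Nat.zero_le _
  obtain ⟨h0', D', h1', h2'⟩ := hS s' hs'
  obtain ⟨hX, _, _, _, _⟩ := size hb hMX h1'
  have hn : 0 < b * s'.1 := Nat.mul_pos hb h1'.p0
  have hcard : (b * s'.1).divisors.card ≤ T := hT _ hn (h1'.b0.trans (pow_big hX).1)
  have hcard2 : (Fintype.piFinset fun _ : Fin 4 => (b * s'.1).divisors).card ≤ T ^ 4 := by
    rw [Fintype.card_piFinset_const]
    exact Nat.pow_le_pow_left hcard 4
  refine (cover S (Fintype.piFinset fun _ : Fin 4 => (b * s'.1).divisors) (T * T)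
    (fun u s => ∃ (h0 : ℕ) (D : Dc), Base a b X M s h0 D ∧ vec h0 D = v ∧ vec' D = u) ?_
    (fun u S' hS' => stage3 ha hb hT hMX v u S' hS')).trans (Nat.mul_le_mul_right _ hcard2)
  intro s hs
  obtain ⟨h0, D, h1, h2⟩ := hS s hs
  have hx := x0_eq ha h1 h1' (h2.trans h2'.symm)
  refine ⟨vec' D, ?_, h0, D, h1, h2, rfl⟩
  rw [Fintype.mem_piFinset]
  have k1 : D.n1 ∣ b * s'.1 := ⟨D.c1, by rw [h1.dec.q1, hx]⟩
  have k2 : D.n2 ∣ b * s'.1 := ⟨D.c2, by rw [h1.dec.q2, hx]⟩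
  have k3 : D.n3 ∣ b * s'.1 := ⟨D.c3, by rw [h1.dec.q3, hx]⟩
  have k4 : D.n4 ∣ b * s'.1 := ⟨D.c4, by rw [h1.dec.q4, hx]⟩
  intro i
  rw [Nat.mem_divisors]
  refine ⟨?_, by omega⟩
  fin_cases i
  · exact k1
  · exact k2
  · exact k3
  · exact k4

theorem stage1 (ha : 0 < a) (hb : 0 < b) (hT : TauB X T) (hMX : M ≤ X) (w : ℕ)
    (S : Finset (ℕ × ℕ × ℕ × ℕ × ℕ))
    (hS : ∀ s ∈ S, ∃ (h0 : ℕ) (D : Dc), Base a b X M s h0 D ∧ h0 * D.W = w) :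
    S.card ≤ T ^ 9 * (T ^ 4 * (T * T)) := by
  rcases S.eq_empty_or_nonempty with h0 | ⟨s', hs'⟩
  · rw [h0, card_empty]
    exact Nat.zero_le _
  obtain ⟨h0', D', h1', h2'⟩ := hS s' hs'
  obtain ⟨hX, _, _, _, _⟩ := size hb hMX h1'
  have hp' := h1'.pos hb
  have hw : 0 < w := by
    rw [← h2']
    refine Nat.mul_pos h1'.hp ?_
    unfold Dc.W
    have := hp'.d12
    have := hp'.d13
    have := hp'.d24
    have := hp'.d34
    have := hp'.d123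
    have := hp'.d124
    have := hp'.d134
    have := hp'.d1234
    positivity
  have hwX : w ≤ X := by
    rw [← h2']
    exact h1'.hW.trans hMX
  have hcard : w.divisors.card ≤ T := hT _ hw (hwX.trans (pow_big hX).1)
  have hcard2 : (Fintype.piFinset fun _ : Fin 9 => w.divisors).card ≤ T ^ 9 := by
    rw [Fintype.card_piFinset_const]
    exact Nat.pow_le_pow_left hcard 9
  refine (cover S (Fintype.piFinset fun _ : Fin 9 => w.divisors) (T ^ 4 * (T * T))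
    (fun v s => ∃ (h0 : ℕ) (D : Dc), Base a b X M s h0 D ∧ vec h0 D = v) ?_
    (fun v S' hS' => stage2 ha hb hT hMX v S' hS')).trans (Nat.mul_le_mul_right _ hcard2)
  intro s hs
  obtain ⟨h0, D, h1, h2⟩ := hS s hs
  refine ⟨vec h0 D, ?_, h0, D, h1, rfl⟩
  rw [Fintype.mem_piFinset]
  have e : w = h0 * (D.d12 * D.d13 * D.d24 * D.d34 * D.d123 * D.d124 * D.d134 * D.d1234) := h2.symm
  have k0 : h0 ∣ w := ⟨_, e⟩
  have k1 : D.d12 ∣ w := ⟨h0 * (D.d13 * D.d24 * D.d34 * D.d123 * D.d124 * D.d134 * D.d1234), by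
    rw [e]; ring⟩
  have k2 : D.d13 ∣ w := ⟨h0 * (D.d12 * D.d24 * D.d34 * D.d123 * D.d124 * D.d134 * D.d1234), by
    rw [e]; ring⟩
  have k3 : D.d24 ∣ w := ⟨h0 * (D.d12 * D.d13 * D.d34 * D.d123 * D.d124 * D.d134 * D.d1234), by
    rw [e]; ring⟩
  have k4 : D.d34 ∣ w := ⟨h0 * (D.d12 * D.d13 * D.d24 * D.d123 * D.d124 * D.d134 * D.d1234), by
    rw [e]; ring⟩
  have k5 : D.d123 ∣ w := ⟨h0 * (D.d12 * D.d13 * D.d24 * D.d34 * D.d124 * D.d134 * D.d1234), by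
    rw [e]; ring⟩
  have k6 : D.d124 ∣ w := ⟨h0 * (D.d12 * D.d13 * D.d24 * D.d34 * D.d123 * D.d134 * D.d1234), by
    rw [e]; ring⟩
  have k7 : D.d134 ∣ w := ⟨h0 * (D.d12 * D.d13 * D.d24 * D.d34 * D.d123 * D.d124 * D.d1234), by
    rw [e]; ring⟩
  have k8 : D.d1234 ∣ w := ⟨h0 * (D.d12 * D.d13 * D.d24 * D.d34 * D.d123 * D.d124 * D.d134), by
    rw [e]; ring⟩
  intro i
  rw [Nat.mem_divisors]
  refine ⟨?_, by omega⟩
  fin_cases i
  · exact k0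
  · exact k1
  · exact k2
  · exact k3
  · exact k4
  · exact k5
  · exact k6
  · exact k7
  · exact k8

end stages

end NCL1

open NCL1 in
theorem t_CL1 : S_CL1 := by
  intro a b X M T S ha hb hT hMX hS
  have h := cover S (Icc 1 M) (T ^ 9 * (T ^ 4 * (T * T)))
    (fun w s => ∃ (h0 : ℕ) (D : Dc), Base a b X M s h0 D ∧ h0 * D.W = w) ?_
    (fun w S' hS' => stage1 ha hb hT hMX w S' hS')
  · calc S.card ≤ (Icc 1 M).card * (T ^ 9 * (T ^ 4 * (T * T))) := h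
      _ = M * T ^ 15 := by
        rw [Nat.card_Icc]
        simp only [Nat.add_sub_cancel]
        ring
  · rintro ⟨x0, x1, x2, x3, x4⟩ hs
    obtain ⟨⟨p0, p1, p2, p3, p4⟩, b0, b1, b2, b3, b4, h0, D, hp, e0, dec, hW⟩ :=
      hS x0 x1 x2 x3 x4 hs
    have hB : Base a b X M (x0, x1, x2, x3, x4) h0 D :=
      ⟨p0, p1, p2, p3, p4, b0, b1, b2, b3, b4, hp, e0, dec, hW⟩
    refine ⟨h0 * D.W, ?_, h0, D, hB, rfl⟩
    rw [mem_Icc]
    refine ⟨?_, hW⟩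
    have hq := hB.pos hb
    refine Nat.mul_pos hp ?_
    unfold Dc.W
    have := hq.d12
    have := hq.d13
    have := hq.d24
    have := hq.d34
    have := hq.d123
    have := hq.d124
    have := hq.d134
    have := hq.d1234
    positivity

end Pool.Agent.UFU
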