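import Pool.Agent.UFU.CL1

/-!
# CL2: the second class of solutions (`h1 d23 d234 ≤ M`)
-/

set_option autoImplicit false

namespace Pool.Agent.UFU

open Finset

namespace NCL2

open NCL1 (cover Pos le_X pow_big vec')

/-- the data of an element of the class -/
structure Base (a b X M : ℕ) (s : ℕ × ℕ × ℕ × ℕ × ℕ) (h0 h1 : ℕ) (D : Dc) : Prop where
  p0 : 0 < s.1
  p1 : 0 < s.2.1
  p2 : 0 < s.2.2.1
  p3 : 0 < s.2.2.2.1
  p4 : 0 < s.2.2.2.2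
  b0 : b * s.1 ≤ X
  b1 : s.2.1 ≤ X
  b2 : s.2.2.1 ≤ X
  b3 : s.2.2.2.1 ≤ X
  b4 : s.2.2.2.2 ≤ X
  hp : 0 < h0
  hp' : 0 < h1
  e0 : a * s.1 = b + h0
  e1 : h0 * s.2.1 = b * s.1 + h1
  dec : IsDec h0 (b * s.1) s.2.1 s.2.2.1 s.2.2.2.1 s.2.2.2.2 D
  hW : h1 * (D.d23 * D.d234) ≤ M

theorem Base.pos {a b X M : ℕ} {s : ℕ × ℕ × ℕ × ℕ × ℕ} {h0 h1 : ℕ} {D : Dc} (hb : 0 < b)
    (h : Base a b X M s h0 h1 D) : Pos D := by
  have hn : 0 < b * s.1 := Nat.mul_pos hb h.p0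
  have k1 : 0 < D.n1 * D.c1 := by
    rw [h.dec.q1]
    exact hn
  have k2 : 0 < D.n2 * D.c2 := by
    rw [h.dec.q2]
    exact hn
  have k3 : 0 < D.n3 * D.c3 := by
    rw [h.dec.q3]
    exact hn
  have k4 : 0 < D.n4 * D.c4 := by
    rw [h.dec.q4]
    exact hn
  have x1 := h.p1
  have x2 := h.p2
  have x3 := h.p3
  rw [h.dec.z1] at x1
  rw [h.dec.z2] at x2
  rw [h.dec.z3] at x3
  simp only [CanonicallyOrderedAdd.mul_pos] at k1 k2 k3 k4 x1 x2 x3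
  obtain ⟨y1, ⟨⟨⟨⟨⟨y2, y3⟩, y4⟩, y5⟩, y6⟩, y7⟩, y8⟩ := x1
  obtain ⟨_, ⟨⟨⟨⟨⟨_, u3⟩, u4⟩, _⟩, _⟩, u7⟩, _⟩ := x2
  obtain ⟨_, ⟨⟨⟨⟨⟨_, _⟩, v4⟩, _⟩, _⟩, _⟩, _⟩ := x3
  exact ⟨k1.1, k2.1, k3.1, k4.1, k1.2, k2.2, k3.2, k4.2, y2, y3, y4, u3, u4, v4, y5, y6, y7, u7, y8⟩

/-- numbers -/
def fP (D : Dc) : ℕ := D.d12 * D.d13 * D.d14 * D.d123 * D.d124 * D.d134 * D.d1234
/-- numbers -/
def fB (h0 : ℕ) (D : Dc) : ℕ := (h0 * fP D - D.c1) * (D.d23 * D.d234)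
/-- numbers -/
def fB2 (D : Dc) : ℕ := D.c2 * (D.d13 * D.d14 * D.d134)
/-- numbers -/
def fB3 (D : Dc) : ℕ := D.c3 * (D.d12 * D.d14 * D.d124)
/-- numbers -/
def fB4 (D : Dc) : ℕ := D.c4 * (D.d12 * D.d13 * D.d123) * D.d23
/-- numbers -/
def fQ (h0 : ℕ) (D : Dc) : ℕ := fB2 D * fB3 D + fB h0 D * fB4 D

theorem lt_c1 {a b X M : ℕ} {s : ℕ × ℕ × ℕ × ℕ × ℕ} {h0 h1 : ℕ} {D : Dc} (hb : 0 < b)
    (h : Base a b X M s h0 h1 D) : D.c1 < h0 * fP D := by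
  have hp := h.pos hb
  have k1 : D.n1 * D.c1 < D.n1 * (h0 * fP D) := by
    have e1 : D.n1 * (h0 * fP D) = h0 * s.2.1 := by
      rw [h.dec.z1]
      unfold fP
      ring
    rw [e1, h.dec.q1, h.e1]
    have := h.hp'
    omega
  exact lt_of_mul_lt_mul_left k1 (Nat.zero_le _)

theorem eqn' {a b X M : ℕ} {s : ℕ × ℕ × ℕ × ℕ × ℕ} {h0 h1 : ℕ} {D : Dc} (hb : 0 < b)
    (h : Base a b X M s h0 h1 D) :
    fB h0 D * D.d24 * D.d34 = fB2 D * D.d34 + fB3 D * D.d24 + fB4 D := by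
  have h1 := h.dec.eqn
  obtain ⟨r, hr⟩ := Nat.exists_eq_add_of_le (lt_c1 hb h).le
  have e1 : h0 * (D.d12 * D.d13 * D.d14 * D.d23 * D.d24 * D.d34 * D.d123 * D.d124 * D.d134 *
      D.d234 * D.d1234) = (h0 * fP D) * (D.d23 * D.d24 * D.d34 * D.d234) := by
    unfold fP
    ring
  rw [e1, hr, add_mul] at h1
  have e2 : r * (D.d23 * D.d24 * D.d34 * D.d234) = D.c2 * (D.d13 * D.d14 * D.d34 * D.d134) +
      D.c3 * (D.d12 * D.d14 * D.d24 * D.d124) + D.c4 * (D.d12 * D.d13 * D.d23 * D.d123) := by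
    omega
  have e3 : h0 * fP D - D.c1 = r := by omega
  unfold fB fB2 fB3 fB4
  rw [e3]
  calc r * (D.d23 * D.d234) * D.d24 * D.d34 = r * (D.d23 * D.d24 * D.d34 * D.d234) := by ring
    _ = _ := by
      rw [e2]
      ring

theorem q_dvd {B B2 B3 B4 d24 d34 q : ℕ} (hq : B * d24 = q + B2)
    (he : B * d24 * d34 = B2 * d34 + B3 * d24 + B4) :
    q * d34 = B3 * d24 + B4 ∧ q ∣ B2 * B3 + B * B4 := by
  have h1 : q * d34 = B3 * d24 + B4 := by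
    have h2 : (q + B2) * d34 = B2 * d34 + B3 * d24 + B4 := by
      rw [← hq]
      exact he
    rw [add_mul] at h2
    omega
  refine ⟨h1, ?_⟩
  have h2 : q * (B * d34) = q * B3 + (B2 * B3 + B * B4) := by
    calc q * (B * d34) = B * (q * d34) := by ring
      _ = B * (B3 * d24 + B4) := by rw [h1]
      _ = B3 * (B * d24) + B * B4 := by ring
      _ = B3 * (q + B2) + B * B4 := by rw [hq]
      _ = _ := by ring
  have h3 : q ∣ q * B3 + (B2 * B3 + B * B4) := ⟨_, h2.symm⟩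
  exact (Nat.dvd_add_right (dvd_mul_right q B3)).1 h3

theorem ex_q {B B2 B3 B4 d24 d34 : ℕ} (hB : 0 < B3) (h24 : 0 < d24)
    (he : B * d24 * d34 = B2 * d34 + B3 * d24 + B4) :
    ∃ q, 0 < q ∧ B * d24 = q + B2 := by
  have h1 : B2 < B * d24 := by
    by_contra hc
    have h2 : B * d24 * d34 ≤ B2 * d34 := Nat.mul_le_mul_right _ (not_lt.1 hc)
    have h3 : 0 < B3 * d24 := Nat.mul_pos hB h24
    omega
  exact ⟨B * d24 - B2, by omega, by omega⟩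

/-- agreement of the known parameters -/
structure Ag (s : ℕ × ℕ × ℕ × ℕ × ℕ) (h0 : ℕ) (D : Dc) (s' : ℕ × ℕ × ℕ × ℕ × ℕ) (h0' : ℕ)
    (D' : Dc) : Prop where
  x0 : s.1 = s'.1
  x1 : s.2.1 = s'.2.1
  h : h0 = h0'
  n1 : D.n1 = D'.n1
  n2 : D.n2 = D'.n2
  n3 : D.n3 = D'.n3
  n4 : D.n4 = D'.n4
  c1 : D.c1 = D'.c1
  c2 : D.c2 = D'.c2
  c3 : D.c3 = D'.c3
  c4 : D.c4 = D'.c4
  d12 : D.d12 = D'.d12
  d13 : D.d13 = D'.d13
  d14 : D.d14 = D'.d14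
  d23 : D.d23 = D'.d23
  d123 : D.d123 = D'.d123
  d124 : D.d124 = D'.d124
  d134 : D.d134 = D'.d134
  d234 : D.d234 = D'.d234
  d1234 : D.d1234 = D'.d1234

/-- the first three parameters -/
def v3 (h1 : ℕ) (D : Dc) : Fin 3 → ℕ := ![h1, D.d23, D.d234]

/-- the last seven parameters -/
def v7 (D : Dc) : Fin 7 → ℕ := ![D.d12, D.d13, D.d14, D.d123, D.d124, D.d134, D.d1234]

theorem x0_eq {a b X M : ℕ} {s s' : ℕ × ℕ × ℕ × ℕ × ℕ} {h0 h0' h1 h1' : ℕ} {D D' : Dc}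
    (ha : 0 < a) (h : Base a b X M s h0 h1 D) (h' : Base a b X M s' h0' h1' D') (hv : h0 = h0') :
    s.1 = s'.1 := by
  have h2 : a * s.1 = a * s'.1 := by rw [h.e0, h'.e0, hv]
  exact Nat.eq_of_mul_eq_mul_left ha h2

theorem x1_eq {a b X M : ℕ} {s s' : ℕ × ℕ × ℕ × ℕ × ℕ} {h0 h0' h1 h1' : ℕ} {D D' : Dc}
    (ha : 0 < a) (h : Base a b X M s h0 h1 D) (h' : Base a b X M s' h0' h1' D')
    (hu : v3 h1 D = v3 h1' D') (hv : h0 = h0') : s.2.1 = s'.2.1 := by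
  have h2 : h1 = h1' := congrFun hu 0
  have h3 : h0 * s.2.1 = h0 * s'.2.1 := by
    rw [h.e1, x0_eq ha h h' hv, h2, hv, h'.e1]
  exact Nat.eq_of_mul_eq_mul_left h.hp h3

theorem ag {a b X M : ℕ} {s s' : ℕ × ℕ × ℕ × ℕ × ℕ} {h0 h0' h1 h1' : ℕ} {D D' : Dc} (ha : 0 < a)
    (hb : 0 < b) (h : Base a b X M s h0 h1 D) (h' : Base a b X M s' h0' h1' D')
    (hu : v3 h1 D = v3 h1' D') (hv : h0 = h0') (hv4 : vec' D = vec' D') (hv7 : v7 D = v7 D') :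
    Ag s h0 D s' h0' D' := by
  have hx := x0_eq ha h h' hv
  have hp := h.pos hb
  have m1 : D.n1 = D'.n1 := congrFun hv4 0
  have m2 : D.n2 = D'.n2 := congrFun hv4 1
  have m3 : D.n3 = D'.n3 := congrFun hv4 2
  have m4 : D.n4 = D'.n4 := congrFun hv4 3
  refine ⟨hx, x1_eq ha h h' hu hv, hv, m1, m2, m3, m4, ?_, ?_, ?_, ?_, congrFun hv7 0,
    congrFun hv7 1, congrFun hv7 2, congrFun hu 1, congrFun hv7 3, congrFun hv7 4, congrFun hv7 5,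
    congrFun hu 2, congrFun hv7 6⟩
  · refine Nat.eq_of_mul_eq_mul_left hp.n1 ?_
    rw [h.dec.q1, m1, h'.dec.q1, hx]
  · refine Nat.eq_of_mul_eq_mul_left hp.n2 ?_
    rw [h.dec.q2, m2, h'.dec.q2, hx]
  · refine Nat.eq_of_mul_eq_mul_left hp.n3 ?_
    rw [h.dec.q3, m3, h'.dec.q3, hx]
  · refine Nat.eq_of_mul_eq_mul_left hp.n4 ?_
    rw [h.dec.q4, m4, h'.dec.q4, hx]

/-! ### sizes -/

theorem size {a b X M : ℕ} {s : ℕ × ℕ × ℕ × ℕ × ℕ} {h0 h1 : ℕ} {D : Dc} (hb : 0 < b)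
    (haX : a ≤ X) (hbX : b ≤ X) (hMX : M ≤ X)
    (h : Base a b X M s h0 h1 D) : 0 < X ∧ h1 ≤ X ∧ b ^ 2 + a * h1 ≤ 2 * X ^ 2 ∧ 0 < fB3 D ∧
      0 < fB h0 D ∧ 0 < fQ h0 D ∧ fQ h0 D ≤ 3 * X ^ 5 := by
  have hp := h.pos hb
  have hn : 0 < b * s.1 := Nat.mul_pos hb h.p0
  have hX : 0 < X := lt_of_lt_of_le hn h.b0
  have hc2 : D.c2 ≤ X := le_X (by rw [mul_comm]; exact h.dec.q2) hn h.b0
  have hc3 : D.c3 ≤ X := le_X (by rw [mul_comm]; exact h.dec.q3) hn h.b0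
  have hc4 : D.c4 ≤ X := le_X (by rw [mul_comm]; exact h.dec.q4) hn h.b0
  have g1 : D.d13 * D.d14 * D.d134 ≤ X :=
    le_X (z := D.n1 * (D.d12 * D.d123 * D.d124 * D.d1234)) (by rw [h.dec.z1]; ring) h.p1 h.b1
  have g2 : D.d12 * D.d14 * D.d124 ≤ X :=
    le_X (z := D.n1 * (D.d13 * D.d123 * D.d134 * D.d1234)) (by rw [h.dec.z1]; ring) h.p1 h.b1
  have g3 : D.d12 * D.d13 * D.d123 ≤ X :=
    le_X (z := D.n1 * (D.d14 * D.d124 * D.d134 * D.d1234)) (by rw [h.dec.z1]; ring) h.p1 h.b1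
  have g4 : D.d23 * D.d234 ≤ X :=
    le_X (z := D.n2 * (D.d12 * D.d24 * D.d123 * D.d124 * D.d1234)) (by rw [h.dec.z2]; ring) h.p2
      h.b2
  have g5 : D.d23 ≤ X :=
    le_X (z := D.n2 * (D.d12 * D.d24 * D.d123 * D.d124 * D.d234 * D.d1234))
      (by rw [h.dec.z2]; ring) h.p2 h.b2
  have hdd : 0 < D.d23 * D.d234 := Nat.mul_pos hp.d23 hp.d234
  have g6 : h1 ≤ X := (Nat.le_mul_of_pos_right h1 hdd).trans (h.hW.trans hMX)
  have g7 : h0 * fP D ≤ 2 * X := by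
    have e1 : h0 * fP D ≤ D.n1 * (h0 * fP D) := Nat.le_mul_of_pos_left _ hp.n1
    have e2 : D.n1 * (h0 * fP D) = h0 * s.2.1 := by
      rw [h.dec.z1]
      unfold fP
      ring
    rw [e2, h.e1] at e1
    have := h.b0
    omega
  have hlt := lt_c1 hb h
  have hB : fB h0 D ≤ (2 * X) * X := Nat.mul_le_mul ((Nat.sub_le _ _).trans g7) g4
  have hB0 : 0 < fB h0 D := Nat.mul_pos (Nat.sub_pos_of_lt hlt) hdd
  have hB2 : fB2 D ≤ X * X := Nat.mul_le_mul hc2 g1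
  have hB3 : fB3 D ≤ X * X := Nat.mul_le_mul hc3 g2
  have hB4 : fB4 D ≤ (X * X) * X := Nat.mul_le_mul (Nat.mul_le_mul hc4 g3) g5
  have hB20 : 0 < fB2 D := Nat.mul_pos hp.c2 (Nat.mul_pos (Nat.mul_pos hp.d13 hp.d14) hp.d134)
  have hB30 : 0 < fB3 D := Nat.mul_pos hp.c3 (Nat.mul_pos (Nat.mul_pos hp.d12 hp.d14) hp.d124)
  refine ⟨hX, g6, ?_, hB30, hB0, ?_, ?_⟩
  · calc b ^ 2 + a * h1 = b * b + a * h1 := by ring
      _ ≤ X * X + X * X := add_le_add (Nat.mul_le_mul hbX hbX) (Nat.mul_le_mul haX g6)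
      _ = 2 * X ^ 2 := by ring
  · unfold fQ
    have := Nat.mul_pos hB20 hB30
    omega
  · unfold fQ
    have h45 : X ^ 4 ≤ X ^ 5 := Nat.pow_le_pow_right hX (by norm_num)
    calc fB2 D * fB3 D + fB h0 D * fB4 D
        ≤ (X * X) * (X * X) + ((2 * X) * X) * ((X * X) * X) :=
          add_le_add (Nat.mul_le_mul hB2 hB3) (Nat.mul_le_mul hB hB4)
      _ = X ^ 4 + 2 * X ^ 5 := by ring
      _ ≤ 3 * X ^ 5 := by omega

/-! ### the stages -/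

section stages

variable {a b X M T : ℕ}

theorem stage6 (ha : 0 < a) (hb : 0 < b) (haX : a ≤ X) (hbX : b ≤ X) (hMX : M ≤ X)
    (u : Fin 3 → ℕ) (k : ℕ) (v : Fin 4 → ℕ) (w : Fin 7 → ℕ) (q : ℕ)
    (S : Finset (ℕ × ℕ × ℕ × ℕ × ℕ))
    (hS : ∀ s ∈ S, ∃ (h0 h1 : ℕ) (D : Dc), Base a b X M s h0 h1 D ∧ v3 h1 D = u ∧ h0 = k ∧
      vec' D = v ∧ v7 D = w ∧ 0 < q ∧ fB h0 D * D.d24 = q + fB2 D) : S.card ≤ 1 := by
  refine card_le_one.2 ?_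
  intro s hs s' hs'
  obtain ⟨h0, h1, D, j1, j2, j3, j4, j5, j6, j7⟩ := hS s hs
  obtain ⟨h0', h1', D', j1', j2', j3', j4', j5', _, j7'⟩ := hS s' hs'
  have g := ag ha hb j1 j1' (j2.trans j2'.symm) (j3.trans j3'.symm) (j4.trans j4'.symm)
    (j5.trans j5'.symm)
  have hp := j1.pos hb
  have hP : fP D = fP D' := by
    unfold fP
    rw [g.d12, g.d13, g.d14, g.d123, g.d124, g.d134, g.d1234]
  have hB : fB h0 D = fB h0' D' := by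
    unfold fB
    rw [g.h, hP, g.c1, g.d23, g.d234]
  have hB2 : fB2 D = fB2 D' := by
    unfold fB2
    rw [g.c2, g.d13, g.d14, g.d134]
  have hB3 : fB3 D = fB3 D' := by
    unfold fB3
    rw [g.c3, g.d12, g.d14, g.d124]
  have hB4 : fB4 D = fB4 D' := by
    unfold fB4
    rw [g.c4, g.d12, g.d13, g.d123, g.d23]
  have hBp : 0 < fB h0 D := (size hb haX hbX hMX j1).2.2.2.2.1
  have hd24 : D.d24 = D'.d24 := by
    refine Nat.eq_of_mul_eq_mul_left hBp ?_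
    rw [j7, hB, j7', hB2]
  have k1 := (q_dvd j7 (eqn' hb j1)).1
  have k2 := (q_dvd j7' (eqn' hb j1')).1
  have hd34 : D.d34 = D'.d34 := by
    refine Nat.eq_of_mul_eq_mul_left j6 ?_
    rw [k1, k2, hB3, hB4, hd24]
  have z2 : s.2.2.1 = s'.2.2.1 := by
    rw [j1.dec.z2, j1'.dec.z2, g.n2, g.d12, g.d23, hd24, g.d123, g.d124, g.d234, g.d1234]
  have z3 : s.2.2.2.1 = s'.2.2.2.1 := by
    rw [j1.dec.z3, j1'.dec.z3, g.n3, g.d13, g.d23, hd34, g.d123, g.d134, g.d234, g.d1234]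
  have z4 : s.2.2.2.2 = s'.2.2.2.2 := by
    rw [j1.dec.z4, j1'.dec.z4, g.n4, g.d14, hd24, hd34, g.d124, g.d134, g.d234, g.d1234]
  exact Prod.ext g.x0 (Prod.ext g.x1 (Prod.ext z2 (Prod.ext z3 z4)))

theorem stage5 (ha : 0 < a) (hb : 0 < b) (haX : a ≤ X) (hbX : b ≤ X) (hT : TauB X T)
    (hMX : M ≤ X) (u : Fin 3 → ℕ) (k : ℕ) (v : Fin 4 → ℕ) (w : Fin 7 → ℕ)
    (S : Finset (ℕ × ℕ × ℕ × ℕ × ℕ))
    (hS : ∀ s ∈ S, ∃ (h0 h1 : ℕ) (D : Dc), Base a b X M s h0 h1 D ∧ v3 h1 D = u ∧ h0 = k ∧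
      vec' D = v ∧ v7 D = w) : S.card ≤ T := by
  rcases S.eq_empty_or_nonempty with h0 | ⟨s', hs'⟩
  · rw [h0, card_empty]
    exact Nat.zero_le _
  obtain ⟨h0', h1', D', j1', j2', j3', j4', j5'⟩ := hS s' hs'
  obtain ⟨hX, _, _, _, _, hQ0, hQ1⟩ := size hb haX hbX hMX j1'
  have hcard : (fQ h0' D').divisors.card ≤ T := hT _ hQ0 (hQ1.trans (pow_big hX).2.2)
  have := cover S (fQ h0' D').divisors 1 (fun q s => ∃ (h0 h1 : ℕ) (D : Dc),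
    Base a b X M s h0 h1 D ∧ v3 h1 D = u ∧ h0 = k ∧
      vec' D = v ∧ v7 D = w ∧ 0 < q ∧ fB h0 D * D.d24 = q + fB2 D) ?_
    (fun q S' hS' => stage6 ha hb haX hbX hMX u k v w q S' hS')
  · omega
  · intro s hs
    obtain ⟨h0, h1, D, j1, j2, j3, j4, j5⟩ := hS s hs
    have hp := j1.pos hb
    have g := ag ha hb j1 j1' (j2.trans j2'.symm) (j3.trans j3'.symm) (j4.trans j4'.symm)
      (j5.trans j5'.symm)
    obtain ⟨q, hq0, hq⟩ := ex_q (size hb haX hbX hMX j1).2.2.2.1 hp.d24 (eqn' hb j1)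
    refine ⟨q, ?_, h0, h1, D, j1, j2, j3, j4, j5, hq0, hq⟩
    rw [Nat.mem_divisors]
    refine ⟨?_, by omega⟩
    have h5 := (q_dvd hq (eqn' hb j1)).2
    have h6 : fQ h0 D = fQ h0' D' := by
      unfold fQ fB fB2 fB3 fB4 fP
      rw [g.h, g.c1, g.c2, g.c3, g.c4, g.d12, g.d13, g.d14, g.d23, g.d123, g.d124, g.d134,
        g.d234, g.d1234]
    rw [← h6]
    exact h5

theorem stage4 (ha : 0 < a) (hb : 0 < b) (haX : a ≤ X) (hbX : b ≤ X) (hT : TauB X T)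
    (hMX : M ≤ X) (u : Fin 3 → ℕ) (k : ℕ) (v : Fin 4 → ℕ)
    (S : Finset (ℕ × ℕ × ℕ × ℕ × ℕ))
    (hS : ∀ s ∈ S, ∃ (h0 h1 : ℕ) (D : Dc), Base a b X M s h0 h1 D ∧ v3 h1 D = u ∧ h0 = k ∧
      vec' D = v) : S.card ≤ T ^ 7 * T := by
  rcases S.eq_empty_or_nonempty with h0 | ⟨s', hs'⟩
  · rw [h0, card_empty]
    exact Nat.zero_le _
  obtain ⟨h0', h1', D', j1', j2', j3', j4'⟩ := hS s' hs'
  obtain ⟨hX, _, _, _, _, _, _⟩ := size hb haX hbX hMX j1'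
  have hn : 0 < s'.2.1 := j1'.p1
  have hcard : (s'.2.1).divisors.card ≤ T := hT _ hn (j1'.b1.trans (pow_big hX).1)
  have hcard2 : (Fintype.piFinset fun _ : Fin 7 => (s'.2.1).divisors).card ≤ T ^ 7 := by
    rw [Fintype.card_piFinset_const]
    exact Nat.pow_le_pow_left hcard 7
  refine (cover S (Fintype.piFinset fun _ : Fin 7 => (s'.2.1).divisors) T
    (fun w s => ∃ (h0 h1 : ℕ) (D : Dc), Base a b X M s h0 h1 D ∧ v3 h1 D = u ∧ h0 = k ∧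
      vec' D = v ∧ v7 D = w) ?_
    (fun w S' hS' => stage5 ha hb haX hbX hT hMX u k v w S' hS')).trans
      (Nat.mul_le_mul_right _ hcard2)
  intro s hs
  obtain ⟨h0, h1, D, j1, j2, j3, j4⟩ := hS s hs
  have hx := x1_eq ha j1 j1' (j2.trans j2'.symm) (j3.trans j3'.symm)
  refine ⟨v7 D, ?_, h0, h1, D, j1, j2, j3, j4, rfl⟩
  rw [Fintype.mem_piFinset]
  have e : s'.2.1 = D.n1 * (D.d12 * D.d13 * D.d14 * D.d123 * D.d124 * D.d134 * D.d1234) := by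
    rw [← hx]
    exact j1.dec.z1
  have k1 : D.d12 ∣ s'.2.1 := ⟨D.n1 * (D.d13 * D.d14 * D.d123 * D.d124 * D.d134 * D.d1234), by
    rw [e]; ring⟩
  have k2 : D.d13 ∣ s'.2.1 := ⟨D.n1 * (D.d12 * D.d14 * D.d123 * D.d124 * D.d134 * D.d1234), by
    rw [e]; ring⟩
  have k3 : D.d14 ∣ s'.2.1 := ⟨D.n1 * (D.d12 * D.d13 * D.d123 * D.d124 * D.d134 * D.d1234), by
    rw [e]; ring⟩
  have k4 : D.d123 ∣ s'.2.1 := ⟨D.n1 * (D.d12 * D.d13 * D.d14 * D.d124 * D.d134 * D.d1234), by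
    rw [e]; ring⟩
  have k5 : D.d124 ∣ s'.2.1 := ⟨D.n1 * (D.d12 * D.d13 * D.d14 * D.d123 * D.d134 * D.d1234), by
    rw [e]; ring⟩
  have k6 : D.d134 ∣ s'.2.1 := ⟨D.n1 * (D.d12 * D.d13 * D.d14 * D.d123 * D.d124 * D.d1234), by
    rw [e]; ring⟩
  have k7 : D.d1234 ∣ s'.2.1 := ⟨D.n1 * (D.d12 * D.d13 * D.d14 * D.d123 * D.d124 * D.d134), by
    rw [e]; ring⟩
  intro i
  rw [Nat.mem_divisors]
  refine ⟨?_, by omega⟩
  fin_cases i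
  · exact k1
  · exact k2
  · exact k3
  · exact k4
  · exact k5
  · exact k6
  · exact k7

theorem stage3 (ha : 0 < a) (hb : 0 < b) (haX : a ≤ X) (hbX : b ≤ X) (hT : TauB X T)
    (hMX : M ≤ X) (u : Fin 3 → ℕ) (k : ℕ)
    (S : Finset (ℕ × ℕ × ℕ × ℕ × ℕ))
    (hS : ∀ s ∈ S, ∃ (h0 h1 : ℕ) (D : Dc), Base a b X M s h0 h1 D ∧ v3 h1 D = u ∧ h0 = k) :
    S.card ≤ T ^ 4 * (T ^ 7 * T) := by
  rcases S.eq_empty_or_nonempty with h0 | ⟨s', hs'⟩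
  · rw [h0, card_empty]
    exact Nat.zero_le _
  obtain ⟨h0', h1', D', j1', j2', j3'⟩ := hS s' hs'
  obtain ⟨hX, _, _, _, _, _, _⟩ := size hb haX hbX hMX j1'
  have hn : 0 < b * s'.1 := Nat.mul_pos hb j1'.p0
  have hcard : (b * s'.1).divisors.card ≤ T := hT _ hn (j1'.b0.trans (pow_big hX).1)
  have hcard2 : (Fintype.piFinset fun _ : Fin 4 => (b * s'.1).divisors).card ≤ T ^ 4 := by
    rw [Fintype.card_piFinset_const]
    exact Nat.pow_le_pow_left hcard 4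
  refine (cover S (Fintype.piFinset fun _ : Fin 4 => (b * s'.1).divisors) (T ^ 7 * T)
    (fun v s => ∃ (h0 h1 : ℕ) (D : Dc), Base a b X M s h0 h1 D ∧ v3 h1 D = u ∧ h0 = k ∧
      vec' D = v) ?_
    (fun v S' hS' => stage4 ha hb haX hbX hT hMX u k v S' hS')).trans
      (Nat.mul_le_mul_right _ hcard2)
  intro s hs
  obtain ⟨h0, h1, D, j1, j2, j3⟩ := hS s hs
  have hx := x0_eq ha j1 j1' (j3.trans j3'.symm)
  refine ⟨vec' D, ?_, h0, h1, D, j1, j2, j3, rfl⟩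
  rw [Fintype.mem_piFinset]
  have k1 : D.n1 ∣ b * s'.1 := ⟨D.c1, by rw [j1.dec.q1, hx]⟩
  have k2 : D.n2 ∣ b * s'.1 := ⟨D.c2, by rw [j1.dec.q2, hx]⟩
  have k3 : D.n3 ∣ b * s'.1 := ⟨D.c3, by rw [j1.dec.q3, hx]⟩
  have k4 : D.n4 ∣ b * s'.1 := ⟨D.c4, by rw [j1.dec.q4, hx]⟩
  intro i
  rw [Nat.mem_divisors]
  refine ⟨?_, by omega⟩
  fin_cases i
  · exact k1
  · exact k2
  · exact k3
  · exact k4

theorem stage2 (ha : 0 < a) (hb : 0 < b) (haX : a ≤ X) (hbX : b ≤ X) (hT : TauB X T)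
    (hMX : M ≤ X) (u : Fin 3 → ℕ)
    (S : Finset (ℕ × ℕ × ℕ × ℕ × ℕ))
    (hS : ∀ s ∈ S, ∃ (h0 h1 : ℕ) (D : Dc), Base a b X M s h0 h1 D ∧ v3 h1 D = u) :
    S.card ≤ T * (T ^ 4 * (T ^ 7 * T)) := by
  rcases S.eq_empty_or_nonempty with h0 | ⟨s', hs'⟩
  · rw [h0, card_empty]
    exact Nat.zero_le _
  obtain ⟨h0', h1', D', j1', j2'⟩ := hS s' hs'
  obtain ⟨hX, _, hbd, _, _, _, _⟩ := size hb haX hbX hMX j1'
  have hn : 0 < b ^ 2 + a * h1' := by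
    have : 0 < b ^ 2 := pow_pos hb 2
    omega
  have hcard : (b ^ 2 + a * h1').divisors.card ≤ T := hT _ hn (hbd.trans (pow_big hX).2.1)
  refine (cover S (b ^ 2 + a * h1').divisors (T ^ 4 * (T ^ 7 * T))
    (fun k s => ∃ (h0 h1 : ℕ) (D : Dc), Base a b X M s h0 h1 D ∧ v3 h1 D = u ∧ h0 = k) ?_
    (fun k S' hS' => stage3 ha hb haX hbX hT hMX u k S' hS')).trans
      (Nat.mul_le_mul_right _ hcard)
  intro s hs
  obtain ⟨h0, h1, D, j1, j2⟩ := hS s hs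
  refine ⟨h0, ?_, h0, h1, D, j1, j2, rfl⟩
  have hh : h1 = h1' := congrFun (j2.trans j2'.symm) 0
  rw [← hh, Nat.mem_divisors]
  refine ⟨?_, by rw [hh]; omega⟩
  have e : h0 * (a * s.2.1) = h0 * b + (b ^ 2 + a * h1) := by
    calc h0 * (a * s.2.1) = a * (h0 * s.2.1) := by ring
      _ = a * (b * s.1 + h1) := by rw [j1.e1]
      _ = b * (a * s.1) + a * h1 := by ring
      _ = b * (b + h0) + a * h1 := by rw [j1.e0]
      _ = _ := by ring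
  have e2 : h0 ∣ h0 * b + (b ^ 2 + a * h1) := ⟨_, e.symm⟩
  exact (Nat.dvd_add_right (dvd_mul_right h0 b)).1 e2

theorem stage1 (ha : 0 < a) (hb : 0 < b) (haX : a ≤ X) (hbX : b ≤ X) (hT : TauB X T)
    (hMX : M ≤ X) (w : ℕ)
    (S : Finset (ℕ × ℕ × ℕ × ℕ × ℕ))
    (hS : ∀ s ∈ S, ∃ (h0 h1 : ℕ) (D : Dc), Base a b X M s h0 h1 D ∧
      h1 * (D.d23 * D.d234) = w) :
    S.card ≤ T ^ 3 * (T * (T ^ 4 * (T ^ 7 * T))) := by
  rcases S.eq_empty_or_nonempty with h0 | ⟨s', hs'⟩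
  · rw [h0, card_empty]
    exact Nat.zero_le _
  obtain ⟨h0', h1', D', j1', j2'⟩ := hS s' hs'
  obtain ⟨hX, _, _, _, _, _, _⟩ := size hb haX hbX hMX j1'
  have hp' := j1'.pos hb
  have hw : 0 < w := by
    rw [← j2']
    exact Nat.mul_pos j1'.hp' (Nat.mul_pos hp'.d23 hp'.d234)
  have hwX : w ≤ X := by
    rw [← j2']
    exact j1'.hW.trans hMX
  have hcard : w.divisors.card ≤ T := hT _ hw (hwX.trans (pow_big hX).1)
  have hcard2 : (Fintype.piFinset fun _ : Fin 3 => w.divisors).card ≤ T ^ 3 := by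
    rw [Fintype.card_piFinset_const]
    exact Nat.pow_le_pow_left hcard 3
  refine (cover S (Fintype.piFinset fun _ : Fin 3 => w.divisors) (T * (T ^ 4 * (T ^ 7 * T)))
    (fun u s => ∃ (h0 h1 : ℕ) (D : Dc), Base a b X M s h0 h1 D ∧ v3 h1 D = u) ?_
    (fun u S' hS' => stage2 ha hb haX hbX hT hMX u S' hS')).trans
      (Nat.mul_le_mul_right _ hcard2)
  intro s hs
  obtain ⟨h0, h1, D, j1, j2⟩ := hS s hs
  refine ⟨v3 h1 D, ?_, h0, h1, D, j1, rfl⟩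
  rw [Fintype.mem_piFinset]
  have k0 : h1 ∣ w := ⟨_, j2.symm⟩
  have k1 : D.d23 ∣ w := ⟨h1 * D.d234, by rw [← j2]; ring⟩
  have k2 : D.d234 ∣ w := ⟨h1 * D.d23, by rw [← j2]; ring⟩
  intro i
  rw [Nat.mem_divisors]
  refine ⟨?_, by omega⟩
  fin_cases i
  · exact k0
  · exact k1
  · exact k2

end stages

end NCL2

open NCL2 in
theorem t_CL2 : S_CL2 := by
  intro a b X M T S ha hb haX hbX hT hMX hS
  have h := NCL1.cover S (Icc 1 M) (T ^ 3 * (T * (T ^ 4 * (T ^ 7 * T))))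
    (fun w s => ∃ (h0 h1 : ℕ) (D : Dc), NCL2.Base a b X M s h0 h1 D ∧
      h1 * (D.d23 * D.d234) = w) ?_
    (fun w S' hS' => stage1 ha hb haX hbX hT hMX w S' hS')
  · calc S.card ≤ (Icc 1 M).card * (T ^ 3 * (T * (T ^ 4 * (T ^ 7 * T)))) := h
      _ = M * T ^ 16 := by
        rw [Nat.card_Icc]
        simp only [Nat.add_sub_cancel]
        ring
  · rintro ⟨x0, x1, x2, x3, x4⟩ hs
    obtain ⟨⟨p0, p1, p2, p3, p4⟩, b0, b1, b2, b3, b4, h0, h1, D, hp, hp', e0, e1, dec, hW⟩ :=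
      hS x0 x1 x2 x3 x4 hs
    have hB : NCL2.Base a b X M (x0, x1, x2, x3, x4) h0 h1 D :=
      ⟨p0, p1, p2, p3, p4, b0, b1, b2, b3, b4, hp, hp', e0, e1, dec, hW⟩
    refine ⟨h1 * (D.d23 * D.d234), ?_, h0, h1, D, hB, rfl⟩
    rw [mem_Icc]
    refine ⟨?_, hW⟩
    have hq := hB.pos hb
    exact Nat.mul_pos hp' (Nat.mul_pos hq.d23 hq.d234)

end Pool.Agent.UFU
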