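import Pool.Agent.UFU.CL1

/-!
# CL3: the third class of solutions (`h0 h2 ≤ M`)
-/

set_option autoImplicit false

namespace Pool.Agent.UFU

open Finset

namespace NCL3

/-- the data of an element of the class -/
structure Base (a b X M : ℕ) (s : ℕ × ℕ × ℕ × ℕ × ℕ) (h0 h1 h2 h3 : ℕ) : Prop where
  ha : 0 < a
  hb : 0 < b
  good : Good a b s.1 h0 s.2.1 h1 s.2.2.1 h2 s.2.2.2.1 h3 s.2.2.2.2
  b0 : b * s.1 ≤ X
  b3 : b * s.1 * s.2.1 * s.2.2.1 ≤ X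
  hM : h0 * h2 ≤ M

variable {a b X M T : ℕ}

theorem pos_of_eq {x y z w : ℕ} (h : x * y = z + w) (hw : 0 < w) : 0 < y := by
  rcases Nat.eq_zero_or_pos y with h0 | h0
  · rw [h0] at h; simp at h; omega
  · exact h0

theorem Base.pos {s : ℕ × ℕ × ℕ × ℕ × ℕ} {h0 h1 h2 h3 : ℕ} (B : Base a b X M s h0 h1 h2 h3) :
    0 < s.1 ∧ 0 < s.2.1 ∧ 0 < s.2.2.1 :=
  ⟨pos_of_eq B.good.e0 B.good.p0, pos_of_eq B.good.e1 B.good.p1, pos_of_eq B.good.e2 B.good.p2⟩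

theorem eq0 {s s' : ℕ × ℕ × ℕ × ℕ × ℕ} {h0 h1 h1' h2 h2' h3 h3' : ℕ}
    (B : Base a b X M s h0 h1 h2 h3) (B' : Base a b X M s' h0 h1' h2' h3') : s.1 = s'.1 :=
  Nat.eq_of_mul_eq_mul_left B.ha (B.good.e0.trans B'.good.e0.symm)

theorem eq1 {s s' : ℕ × ℕ × ℕ × ℕ × ℕ} {h0 h1 h2 h2' h3 h3' : ℕ}
    (B : Base a b X M s h0 h1 h2 h3) (B' : Base a b X M s' h0 h1 h2' h3') :
    s.2.1 = s'.2.1 := by
  apply Nat.eq_of_mul_eq_mul_left B.good.p0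
  rw [B.good.e1, B'.good.e1, eq0 B B']

theorem eq2 {s s' : ℕ × ℕ × ℕ × ℕ × ℕ} {h0 h1 h2 h3 h3' : ℕ}
    (B : Base a b X M s h0 h1 h2 h3) (B' : Base a b X M s' h0 h1 h2 h3') :
    s.2.2.1 = s'.2.2.1 := by
  apply Nat.eq_of_mul_eq_mul_left B.good.p1
  rw [B.good.e2, B'.good.e2, eq0 B B', eq1 B B']

theorem eq3 {s s' : ℕ × ℕ × ℕ × ℕ × ℕ} {h0 h1 h2 h3 : ℕ}
    (B : Base a b X M s h0 h1 h2 h3) (B' : Base a b X M s' h0 h1 h2 h3) :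
    s.2.2.2.1 = s'.2.2.2.1 := by
  apply Nat.eq_of_mul_eq_mul_left B.good.p2
  rw [B.good.e3, B'.good.e3, eq0 B B', eq1 B B', eq2 B B']

theorem eq4 {s s' : ℕ × ℕ × ℕ × ℕ × ℕ} {h0 h1 h2 h3 : ℕ}
    (B : Base a b X M s h0 h1 h2 h3) (B' : Base a b X M s' h0 h1 h2 h3) :
    s.2.2.2.2 = s'.2.2.2.2 := by
  apply Nat.eq_of_mul_eq_mul_left B.good.p3
  rw [B.good.e4, B'.good.e4, eq0 B B', eq1 B B', eq2 B B', eq3 B B']

theorem stage4 (h0 h1 h2 h3 : ℕ) (S : Finset (ℕ × ℕ × ℕ × ℕ × ℕ))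
    (hS : ∀ s ∈ S, Base a b X M s h0 h1 h2 h3) : S.card ≤ 1 := by
  rw [card_le_one]
  intro s hs s' hs'
  have B := hS s hs
  have B' := hS s' hs'
  exact Prod.ext (eq0 B B') (Prod.ext (eq1 B B') (Prod.ext (eq2 B B')
    (Prod.ext (eq3 B B') (eq4 B B'))))

/-- `h3` divides the square of `b x0 x1 x2`. -/
theorem dvd3 {s : ℕ × ℕ × ℕ × ℕ × ℕ} {h0 h1 h2 h3 : ℕ} (B : Base a b X M s h0 h1 h2 h3) :
    h3 ∣ (b * s.1 * s.2.1 * s.2.2.1) ^ 2 := by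
  obtain ⟨p0, p1, p2, p3, e0, e1, e2, e3, e4, -, -, -, -⟩ := B.good
  set m := b * s.1 * s.2.1 * s.2.2.1 with hm
  have h4 : h3 * (h2 * s.2.2.2.2) = m ^ 2 + m * h3 := by
    calc h3 * (h2 * s.2.2.2.2) = h2 * (h3 * s.2.2.2.2) := by ring
      _ = h2 * (m * s.2.2.2.1) := by rw [e4]
      _ = m * (h2 * s.2.2.2.1) := by ring
      _ = m * (m + h3) := by rw [e3]
      _ = _ := by ring
  exact (Nat.dvd_add_left (dvd_mul_left h3 m)).1 (h4 ▸ dvd_mul_right h3 _)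

/-- `h1` divides `(b x0)² + h0 h2`. -/
theorem dvd1 {s : ℕ × ℕ × ℕ × ℕ × ℕ} {h0 h1 h2 h3 : ℕ} (B : Base a b X M s h0 h1 h2 h3) :
    h1 ∣ (b * s.1) ^ 2 + h0 * h2 := by
  obtain ⟨p0, p1, p2, p3, e0, e1, e2, e3, e4, -, -, -, -⟩ := B.good
  set n := b * s.1 with hn
  have h4 : h1 * (h0 * s.2.2.1) = (n ^ 2 + h0 * h2) + n * h1 := by
    calc h1 * (h0 * s.2.2.1) = h0 * (h1 * s.2.2.1) := by ring
      _ = h0 * (n * s.2.1 + h2) := by rw [e2]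
      _ = n * (h0 * s.2.1) + h0 * h2 := by ring
      _ = n * (n + h1) + h0 * h2 := by rw [e1]
      _ = _ := by ring
  exact (Nat.dvd_add_left (dvd_mul_left h1 n)).1 (h4 ▸ dvd_mul_right h1 _)

theorem stage3 (hT : TauB X T) (h0 h1 h2 : ℕ) (S : Finset (ℕ × ℕ × ℕ × ℕ × ℕ))
    (hS : ∀ s ∈ S, ∃ h3, Base a b X M s h0 h1 h2 h3) : S.card ≤ T * 1 := by
  rcases S.eq_empty_or_nonempty with hE | ⟨s', hs'⟩
  · rw [hE]; simp
  obtain ⟨h3', B'⟩ := hS s' hs'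
  obtain ⟨q0, q1, q2⟩ := B'.pos
  set m := b * s'.1 * s'.2.1 * s'.2.2.1 with hm
  have hmpos : 0 < m := Nat.mul_pos (Nat.mul_pos (Nat.mul_pos B'.hb q0) q1) q2
  have hmX : m ≤ X := B'.b3
  have hX : 0 < X := lt_of_lt_of_le hmpos hmX
  have hcard : (m ^ 2).divisors.card ≤ T := by
    apply hT _ (by positivity)
    have h5 : m ^ 2 ≤ X ^ 2 := Nat.pow_le_pow_left hmX 2
    have h6 := (NCL1.pow_big hX).2.1
    omega
  refine (NCL1.cover S (m ^ 2).divisors 1 (fun h3 s => Base a b X M s h0 h1 h2 h3) ?_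
    (fun h3 S' hS' => stage4 h0 h1 h2 h3 S' hS')).trans (Nat.mul_le_mul_right _ hcard)
  intro s hs
  obtain ⟨h3, B⟩ := hS s hs
  refine ⟨h3, ?_, B⟩
  rw [Nat.mem_divisors]
  refine ⟨?_, by positivity⟩
  have := dvd3 B
  rwa [eq0 B B', eq1 B B', eq2 B B'] at this

theorem stage2 (hT : TauB X T) (hMX : M ≤ X) (h0 h2 : ℕ) (S : Finset (ℕ × ℕ × ℕ × ℕ × ℕ))
    (hS : ∀ s ∈ S, ∃ h1 h3, Base a b X M s h0 h1 h2 h3) : S.card ≤ T * (T * 1) := by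
  rcases S.eq_empty_or_nonempty with hE | ⟨s', hs'⟩
  · rw [hE]; simp
  obtain ⟨h1', h3', B'⟩ := hS s' hs'
  obtain ⟨q0, q1, q2⟩ := B'.pos
  set n := b * s'.1 with hn
  have hnpos : 0 < n := Nat.mul_pos B'.hb q0
  have hnX : n ≤ X := B'.b0
  have hX : 0 < X := lt_of_lt_of_le hnpos hnX
  have hcard : (n ^ 2 + h0 * h2).divisors.card ≤ T := by
    apply hT _ (by positivity)
    have h5 : n ^ 2 ≤ X ^ 2 := Nat.pow_le_pow_left hnX 2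
    have h6 := (NCL1.pow_big hX).2.1
    have h7 : X ≤ X ^ 2 := Nat.le_self_pow (by norm_num) X
    have h8 := B'.hM
    omega
  refine (NCL1.cover S (n ^ 2 + h0 * h2).divisors (T * 1)
    (fun h1 s => ∃ h3, Base a b X M s h0 h1 h2 h3) ?_
    (fun h1 S' hS' => stage3 hT h0 h1 h2 S' hS')).trans (Nat.mul_le_mul_right _ hcard)
  intro s hs
  obtain ⟨h1, h3, B⟩ := hS s hs
  refine ⟨h1, ?_, h3, B⟩
  rw [Nat.mem_divisors]
  refine ⟨?_, by positivity⟩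
  have := dvd1 B
  rwa [eq0 B B'] at this

theorem stage1 (hT : TauB X T) (hMX : M ≤ X) (w : ℕ) (S : Finset (ℕ × ℕ × ℕ × ℕ × ℕ))
    (hS : ∀ s ∈ S, ∃ h0 h1 h2 h3, Base a b X M s h0 h1 h2 h3 ∧ h0 * h2 = w) :
    S.card ≤ (T * T) * (T * (T * 1)) := by
  rcases S.eq_empty_or_nonempty with hE | ⟨s', hs'⟩
  · rw [hE]; simp
  obtain ⟨h0', h1', h2', h3', B', hw'⟩ := hS s' hs'
  have hw : 0 < w := by rw [← hw']; exact Nat.mul_pos B'.good.p0 B'.good.p2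
  have hwX : w ≤ X := by rw [← hw']; exact B'.hM.trans hMX
  have hX : 0 < X := lt_of_lt_of_le hw hwX
  have hcard : w.divisors.card ≤ T := hT _ hw (hwX.trans (NCL1.pow_big hX).1)
  have hcard2 : (w.divisors ×ˢ w.divisors).card ≤ T * T := by
    rw [card_product]; exact Nat.mul_le_mul hcard hcard
  refine (NCL1.cover S (w.divisors ×ˢ w.divisors) (T * (T * 1))
    (fun p s => ∃ h1 h3, Base a b X M s p.1 h1 p.2 h3) ?_
    (fun p S' hS' => stage2 hT hMX p.1 p.2 S' hS')).trans (Nat.mul_le_mul_right _ hcard2)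
  intro s hs
  obtain ⟨h0, h1, h2, h3, B, hw2⟩ := hS s hs
  refine ⟨(h0, h2), ?_, h1, h3, B⟩
  rw [mem_product]
  simp only [Nat.mem_divisors]
  exact ⟨⟨⟨h2, hw2.symm⟩, hw.ne'⟩, ⟨⟨h0, by rw [← hw2, mul_comm]⟩, hw.ne'⟩⟩

end NCL3

theorem t_CL3 : S_CL3 := by
  intro a b X M T S ha hb hT hMX hS
  have h := NCL1.cover S (Icc 1 M) ((T * T) * (T * (T * 1)))
    (fun w s => ∃ h0 h1 h2 h3, NCL3.Base a b X M s h0 h1 h2 h3 ∧ h0 * h2 = w) ?_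
    (fun w S' hS' => NCL3.stage1 hT hMX w S' hS')
  · calc S.card ≤ (Icc 1 M).card * ((T * T) * (T * (T * 1))) := h
      _ = M * T ^ 4 := by
        rw [Nat.card_Icc]
        simp only [Nat.add_sub_cancel]
        ring
  · rintro ⟨x0, x1, x2, x3, x4⟩ hs
    obtain ⟨h0, h1, h2, h3, hG, hb0, hb3, hM⟩ := hS x0 x1 x2 x3 x4 hs
    refine ⟨h0 * h2, ?_, h0, h1, h2, h3, ⟨ha, hb, hG, hb0, hb3, hM⟩, rfl⟩
    rw [mem_Icc]
    exact ⟨Nat.mul_pos hG.p0 hG.p2, hM⟩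

end Pool.Agent.UFU
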