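import Pool.Agent.UFU.Stmts

/-!
# The three classes together
-/

set_option autoImplicit false

namespace Pool.Agent.UFU

open Finset

/-- The condition of the first class. -/
def C1 (a b X M : ℕ) (p : ℕ × ℕ × ℕ × ℕ × ℕ) : Prop :=
  (0 < p.1 ∧ 0 < p.2.1 ∧ 0 < p.2.2.1 ∧ 0 < p.2.2.2.1 ∧ 0 < p.2.2.2.2) ∧ b * p.1 ≤ X ∧ p.2.1 ≤ X ∧
    p.2.2.1 ≤ X ∧ p.2.2.2.1 ≤ X ∧ p.2.2.2.2 ≤ X ∧
    ∃ (h0 : ℕ) (D : Dc), 0 < h0 ∧ a * p.1 = b + h0 ∧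
      IsDec h0 (b * p.1) p.2.1 p.2.2.1 p.2.2.2.1 p.2.2.2.2 D ∧ h0 * D.W ≤ M

/-- The condition of the second class. -/
def C2 (a b X M : ℕ) (p : ℕ × ℕ × ℕ × ℕ × ℕ) : Prop :=
  (0 < p.1 ∧ 0 < p.2.1 ∧ 0 < p.2.2.1 ∧ 0 < p.2.2.2.1 ∧ 0 < p.2.2.2.2) ∧ b * p.1 ≤ X ∧ p.2.1 ≤ X ∧
    p.2.2.1 ≤ X ∧ p.2.2.2.1 ≤ X ∧ p.2.2.2.2 ≤ X ∧
    ∃ (h0 h1 : ℕ) (D : Dc), 0 < h0 ∧ 0 < h1 ∧ a * p.1 = b + h0 ∧ h0 * p.2.1 = b * p.1 + h1 ∧
      IsDec h0 (b * p.1) p.2.1 p.2.2.1 p.2.2.2.1 p.2.2.2.2 D ∧ h1 * (D.d23 * D.d234) ≤ M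

/-- The condition of the third class. -/
def C3 (a b X M : ℕ) (p : ℕ × ℕ × ℕ × ℕ × ℕ) : Prop :=
  ∃ h0 h1 h2 h3 : ℕ, Good a b p.1 h0 p.2.1 h1 p.2.2.1 h2 p.2.2.2.1 h3 p.2.2.2.2 ∧ b * p.1 ≤ X ∧
    b * p.1 * p.2.1 * p.2.2.1 ≤ X ∧ h0 * h2 ≤ M

/-- The list with five entries. -/
def toL (p : ℕ × ℕ × ℕ × ℕ × ℕ) : List ℕ := [p.1, p.2.1, p.2.2.1, p.2.2.2.1, p.2.2.2.2]

/-- The first five entries of a list. -/
def ofL (l : List ℕ) : ℕ × ℕ × ℕ × ℕ × ℕ :=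
  (l.getD 0 0, l.getD 1 0, l.getD 2 0, l.getD 3 0, l.getD 4 0)

theorem prod_contra {a b M u v w : ℕ} (hlt : 18000000 * b ^ 12 < a ^ 6 * (M + 1) ^ 4)
    (hk : a ^ 6 * (u * v ^ 2 * w) ≤ 18000000 * b ^ 12) : u ≤ M ∨ v ≤ M ∨ w ≤ M := by
  by_contra hc
  push Not at hc
  obtain ⟨h1, h2, h3⟩ := hc
  have hu : M + 1 ≤ u := h1
  have hv : M + 1 ≤ v := h2
  have hw : M + 1 ≤ w := h3
  have h4 : (M + 1) ^ 4 ≤ u * v ^ 2 * w := by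
    have e : (M + 1) ^ 4 = (M + 1) * (M + 1) ^ 2 * (M + 1) := by ring
    rw [e]
    exact Nat.mul_le_mul (Nat.mul_le_mul hu (Nat.pow_le_pow_left hv 2)) hw
  have h5 := Nat.mul_le_mul_left (a ^ 6) h4
  exact absurd (lt_of_lt_of_le hlt (h5.trans hk)) (lt_irrefl _)

theorem t_COMB (h1 : S_DEC) (h2 : S_GEO) (h3 : S_KEY) (h4 : S_CL1) (h5 : S_CL2) (h6 : S_CL3)
    (h7 : S_LST) : S_COMB := by
  classical
  intro a b M T ha hab hT hM hlt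
  have hb : 0 < b := lt_of_lt_of_le ha hab
  set X : ℕ := (10 * b) ^ 16 with hX
  have hbX : b ≤ X := by
    have e1 : b ≤ 10 * b := by omega
    exact e1.trans (Nat.le_self_pow (by norm_num) _)
  have hT1 : 1 ≤ T := by
    have h := hT 1 one_pos (Nat.one_le_pow _ _ (by omega))
    simpa using h
  have key : ∀ l ∈ L 5 a b, toL (ofL l) = l ∧
      (C1 a b X M (ofL l) ∨ C2 a b X M (ofL l) ∨ C3 a b X M (ofL l)) := by
    intro l hl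
    obtain ⟨x0, k0, x1, k1, x2, k2, x3, k3, x4, rfl, hg⟩ := h7 a b ha hb l hl
    obtain ⟨⟨p0, p1, p2, p3, p4⟩, heq, s1, s2, s3, s4, s5, s6, s7, s8, s9, s10⟩ :=
      h2 a b x0 k0 x1 k1 x2 k2 x3 k3 x4 ha hab hg
    obtain ⟨D, hD⟩ := h1 k0 (b * x0) x1 x2 x3 x4 hg.p0 (Nat.mul_pos hb p0) p1 p2 p3 p4 heq
    have hk := h3 a b x0 k0 x1 k1 x2 k2 x3 k3 x4 D ha hb hg hD
    refine ⟨rfl, ?_⟩
    rcases prod_contra hlt hk with h | h | h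
    · exact Or.inl ⟨⟨p0, p1, p2, p3, p4⟩, s8, s1, s2, s3, s4, k0, D, hg.p0, hg.e0, hD, h⟩
    · exact Or.inr (Or.inl ⟨⟨p0, p1, p2, p3, p4⟩, s8, s1, s2, s3, s4, k0, k1, D, hg.p0, hg.p1,
        hg.e0, hg.e1, hD, h⟩)
    · exact Or.inr (Or.inr ⟨k0, k1, k2, k3, hg, s8, s10, h⟩)
  set S : Finset (ℕ × ℕ × ℕ × ℕ × ℕ) := (L 5 a b).image ofL with hS
  have hc0 : Rc 5 a b ≤ S.card := by
    unfold Rc
    rw [hS, Finset.card_image_of_injOn]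
    intro l hl l' hl' he
    have e1 := (key l hl).1
    have e2 := (key l' hl').1
    rw [← e1, ← e2]
    exact congrArg toL he
  have hU : S ⊆ (S.filter (C1 a b X M)) ∪ ((S.filter (C2 a b X M)) ∪ (S.filter (C3 a b X M))) := by
    intro p hp
    obtain ⟨l, hl, rfl⟩ := Finset.mem_image.1 (hS ▸ hp)
    rcases (key l hl).2 with h | h | h
    · exact Finset.mem_union_left _ (Finset.mem_filter.2 ⟨hp, h⟩)
    · exact Finset.mem_union_right _ (Finset.mem_union_left _ (Finset.mem_filter.2 ⟨hp, h⟩))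
    · exact Finset.mem_union_right _ (Finset.mem_union_right _ (Finset.mem_filter.2 ⟨hp, h⟩))
  have c1 : (S.filter (C1 a b X M)).card ≤ M * T ^ 15 := by
    refine h4 a b X M T _ ha hb hT hM fun x0 x1 x2 x3 x4 hx => ?_
    exact (Finset.mem_filter.1 hx).2
  have c2 : (S.filter (C2 a b X M)).card ≤ M * T ^ 16 := by
    refine h5 a b X M T _ ha hb (hab.trans hbX) hbX hT hM fun x0 x1 x2 x3 x4 hx => ?_
    exact (Finset.mem_filter.1 hx).2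
  have c3 : (S.filter (C3 a b X M)).card ≤ M * T ^ 4 := by
    refine h6 a b X M T _ ha hb hT hM fun x0 x1 x2 x3 x4 hx => ?_
    exact (Finset.mem_filter.1 hx).2
  have t1 : M * T ^ 15 ≤ M * T ^ 16 := Nat.mul_le_mul_left M (Nat.pow_le_pow_right hT1 (by norm_num))
  have t3 : M * T ^ 4 ≤ M * T ^ 16 := Nat.mul_le_mul_left M (Nat.pow_le_pow_right hT1 (by norm_num))
  have hcU := (Finset.card_le_card hU).trans
    ((Finset.card_union_le _ _).trans (Nat.add_le_add_left (Finset.card_union_le _ _) _))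
  omega

end Pool.Agent.UFU
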