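import Pool.Agent.UFU.Stmts
import Pool.Agent.Lib_helper91.Div

/-!
# Module `UFU_CORE`

The bound for `Rc 5 a b` from the combination statement `S_COMB` and the divisor bound.
-/

set_option autoImplicit false

noncomputable section

namespace Pool.Agent.UFU

open Finset Filter Topology

/-- The divisor parameter: with `K = 2^8 * 10^128`, all `m ≤ (2 (10 b)^16)^8 = K b^128` have
at most `T` divisors, where `T^16 ≤ C b^(1/L)`. -/
private theorem core_tau (L : ℕ) (hL : 0 < L) : ∃ C : ℝ, 1 ≤ C ∧ ∀ b : ℕ, 0 < b →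
    ∃ T : ℕ, TauB ((10 * b) ^ 16) T ∧ (T : ℝ) ^ 16 ≤ C * (b : ℝ) ^ (1 / (L : ℝ)) := by
  obtain ⟨C0, hC0, hdiv⟩ := Pool.Agent.Lib_helper91.exists_divisor_bound (2048 * L) (by positivity)
  have hLr : (0 : ℝ) < L := by exact_mod_cast hL
  set K : ℝ := 2 ^ 8 * 10 ^ 128 with hK
  have hK1 : (1 : ℝ) ≤ K := by rw [hK]; norm_num
  refine ⟨C0 ^ 16 * K ^ (1 / (128 * (L : ℝ))), ?_, ?_⟩
  · have h1 : (1 : ℝ) ≤ C0 ^ 16 := one_le_pow₀ hC0
    have h2 : (1 : ℝ) ≤ K ^ (1 / (128 * (L : ℝ))) := Real.one_le_rpow hK1 (by positivity)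
    calc (1 : ℝ) = 1 * 1 := (one_mul _).symm
      _ ≤ _ := mul_le_mul h1 h2 (by norm_num) (by positivity)
  · intro b hb
    have hbr : (0 : ℝ) < b := by exact_mod_cast hb
    set Y : ℝ := K * (b : ℝ) ^ 128 with hY
    have hY0 : (0 : ℝ) < Y := by rw [hY]; positivity
    set z : ℝ := C0 * Y ^ ((1 : ℝ) / ((2048 * L : ℕ) : ℝ)) with hz
    have hz0 : 0 ≤ z := by rw [hz]; positivity
    refine ⟨⌊z⌋₊, ?_, ?_⟩
    · intro m hm0 hm
      apply Nat.le_floor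
      refine (hdiv m hm0.ne').trans ?_
      rw [hz]
      refine mul_le_mul_of_nonneg_left ?_ (by positivity)
      refine Real.rpow_le_rpow (by positivity) ?_ (by positivity)
      have h3 : (m : ℝ) ≤ (((2 * (10 * b) ^ 16) ^ 8 : ℕ) : ℝ) := by exact_mod_cast hm
      refine h3.trans (le_of_eq ?_)
      rw [hY, hK]
      push_cast
      ring
    · have h4 : ((⌊z⌋₊ : ℕ) : ℝ) ≤ z := Nat.floor_le hz0
      refine (pow_le_pow_left₀ (by positivity) h4 16).trans (le_of_eq ?_)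
      rw [hz, mul_pow, ← Real.rpow_natCast (Y ^ ((1 : ℝ) / ((2048 * L : ℕ) : ℝ))) 16,
        ← Real.rpow_mul hY0.le]
      have h5 : (1 : ℝ) / ((2048 * L : ℕ) : ℝ) * ((16 : ℕ) : ℝ) = 1 / (128 * (L : ℝ)) := by
        push_cast
        field_simp
        norm_num
      rw [h5, hY, Real.mul_rpow (by positivity) (by positivity), ← Real.rpow_natCast (b : ℝ) 128,
        ← Real.rpow_mul hbr.le]
      have h6 : ((128 : ℕ) : ℝ) * (1 / (128 * (L : ℝ))) = 1 / (L : ℝ) := by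
        push_cast
        field_simp
      rw [h6, mul_assoc]

theorem t_CORE (h : S_COMB) : S_CORE := by
  intro L hL
  obtain ⟨C, hC1, hC⟩ := core_tau L hL
  have hLr : (0 : ℝ) < L := by exact_mod_cast hL
  refine ⟨198 * C, by linarith, ?_⟩
  intro a b ha hab
  have hb : 0 < b := lt_of_lt_of_le ha hab
  have har : (0 : ℝ) < a := by exact_mod_cast ha
  have hbr : (0 : ℝ) < b := by exact_mod_cast hb
  have ha1 : (1 : ℝ) ≤ a := by exact_mod_cast ha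
  have hb1 : (1 : ℝ) ≤ b := by exact_mod_cast hb
  have habr : (a : ℝ) ≤ b := by exact_mod_cast hab
  obtain ⟨T, hT, hT16⟩ := hC b hb
  set G : ℝ := (b : ℝ) ^ 2 / (a : ℝ) with hG
  have hG0 : 0 < G := by rw [hG]; positivity
  have haG : (a : ℝ) * G = (b : ℝ) ^ 2 := by rw [hG]; field_simp
  have hbG : (b : ℝ) ≤ G := by
    rw [hG, le_div_iff₀ har]
    nlinarith
  have hGb : G ≤ (b : ℝ) ^ 2 := by
    rw [hG, div_le_iff₀ har]
    nlinarith [sq_nonneg (b : ℝ)]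
  set H : ℝ := G ^ ((3 : ℝ) / 2) with hH
  have hH0 : 0 < H := by rw [hH]; positivity
  have hH4 : H ^ 4 = G ^ 6 := by
    rw [hH, ← Real.rpow_natCast (G ^ ((3 : ℝ) / 2)) 4, ← Real.rpow_mul hG0.le,
      ← Real.rpow_natCast G 6]
    norm_num
  have hHb : H ≤ (b : ℝ) ^ 3 := by
    have h1 : H ≤ ((b : ℝ) ^ 2) ^ ((3 : ℝ) / 2) := by
      rw [hH]
      exact Real.rpow_le_rpow hG0.le hGb (by norm_num)
    refine h1.trans (le_of_eq ?_)
    rw [← Real.rpow_natCast (b : ℝ) 2, ← Real.rpow_mul hbr.le, ← Real.rpow_natCast (b : ℝ) 3]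
    norm_num
  set M : ℕ := ⌊66 * H⌋₊ with hM
  have hMle : (M : ℝ) ≤ 66 * H := Nat.floor_le (by positivity)
  have hMlt : 66 * H < (M : ℝ) + 1 := Nat.lt_floor_add_one _
  have hMX : M ≤ (10 * b) ^ 16 := by
    have h2 : (M : ℝ) ≤ (((10 * b) ^ 16 : ℕ) : ℝ) := by
      refine hMle.trans ?_
      push_cast
      have h3 : (b : ℝ) ^ 3 ≤ (b : ℝ) ^ 16 := pow_le_pow_right₀ hb1 (by norm_num)
      have h4 : (10 * (b : ℝ)) ^ 16 = 10 ^ 16 * (b : ℝ) ^ 16 := by ring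
      rw [h4]
      nlinarith [hHb, h3]
    exact_mod_cast h2
  have hkey : 18000000 * b ^ 12 < a ^ 6 * (M + 1) ^ 4 := by
    have h5 : (18000000 : ℝ) * (b : ℝ) ^ 12 < (a : ℝ) ^ 6 * ((M : ℝ) + 1) ^ 4 := by
      have h6 : (66 * H) ^ 4 < ((M : ℝ) + 1) ^ 4 :=
        pow_lt_pow_left₀ hMlt (by positivity) (by norm_num)
      have h7 : (a : ℝ) ^ 6 * (66 * H) ^ 4 = 18974736 * (b : ℝ) ^ 12 := by
        have : (a : ℝ) ^ 6 * (66 * H) ^ 4 = 18974736 * ((a : ℝ) * G) ^ 6 := by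
          rw [mul_pow, hH4]
          ring
        rw [this, haG]
        ring
      have h8 : (0 : ℝ) < (b : ℝ) ^ 12 := by positivity
      have h9 : (a : ℝ) ^ 6 * (66 * H) ^ 4 < (a : ℝ) ^ 6 * ((M : ℝ) + 1) ^ 4 :=
        mul_lt_mul_of_pos_left h6 (by positivity)
      rw [h7] at h9
      linarith
    exact_mod_cast h5
  have hR := h a b M T ha hab hT hMX hkey
  have hRr : (Rc 5 a b : ℝ) ≤ 3 * ((M : ℝ) * (T : ℝ) ^ 16) := by exact_mod_cast hR
  have hbL : (b : ℝ) ^ (1 / (L : ℝ)) ≤ G ^ (1 / (L : ℝ)) :=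
    Real.rpow_le_rpow hbr.le hbG (by positivity)
  have hsplit : G ^ ((3 : ℝ) / 2 + 1 / (L : ℝ)) = H * G ^ (1 / (L : ℝ)) := by
    rw [Real.rpow_add hG0]
  have hT' : (T : ℝ) ^ 16 ≤ C * G ^ (1 / (L : ℝ)) :=
    hT16.trans (mul_le_mul_of_nonneg_left hbL (by linarith))
  calc (Rc 5 a b : ℝ) ≤ 3 * ((M : ℝ) * (T : ℝ) ^ 16) := hRr
    _ ≤ 3 * ((66 * H) * (C * G ^ (1 / (L : ℝ)))) := by
        refine mul_le_mul_of_nonneg_left ?_ (by norm_num)
        exact mul_le_mul hMle hT' (by positivity) (by positivity)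
    _ = 198 * C * G ^ ((3 : ℝ) / 2 + 1 / (L : ℝ)) := by
        rw [hsplit]
        ring

end Pool.Agent.UFU

end
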