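import Pool.Agent.UFU.Stmts

/-!
# Module UFU_CUR: Curtiss' theorem (proof of Soundararajan)
-/

set_option autoImplicit false

noncomputable section

namespace Pool.Agent.UFU

open Finset

namespace CUR

lemma syl_eq (n : ℕ) : syl n = U n + 1 ∧ 0 < U n := by
  induction n with
  | zero => simp [syl, U]
  | succ n ih =>
    obtain ⟨h1, h2⟩ := ih
    have hU : U (n + 1) = U n * syl n := by
      unfold U
      rw [Finset.prod_range_succ]
    refine ⟨?_, ?_⟩
    · have h3 : syl (n + 1) = syl n ^ 2 - syl n + 1 := rfl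
      rw [h3, hU, h1]
      have h4 : (U n + 1) ^ 2 = U n * (U n + 1) + (U n + 1) := by ring
      rw [h4, Nat.add_sub_cancel]
    · rw [hU, h1]
      positivity

lemma sum_syl (n : ℕ) : ∑ i ∈ range n, (1 : ℚ) / (syl i : ℚ) = 1 - 1 / (U n : ℚ) := by
  induction n with
  | zero => simp [U]
  | succ n ih =>
    rw [Finset.sum_range_succ, ih]
    have hU : U (n + 1) = U n * syl n := by
      unfold U
      rw [Finset.prod_range_succ]
    obtain ⟨h1, h2⟩ := syl_eq n
    rw [hU, h1]
    push_cast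
    have h3 : (0 : ℚ) < (U n : ℚ) := by exact_mod_cast h2
    field_simp
    ring

lemma abel (w l : ℕ → ℝ) (m : ℕ) (hw : ∀ i, i < m → 0 ≤ w i)
    (hmono : ∀ i, i + 1 < m → w (i + 1) ≤ w i)
    (hL : ∀ j, j ≤ m → 0 ≤ ∑ i ∈ range j, l i) : 0 ≤ ∑ i ∈ range m, w i * l i := by
  have key : ∀ k, k + 1 ≤ m → w k * ∑ i ∈ range (k + 1), l i ≤ ∑ i ∈ range (k + 1), w i * l i := by
    intro k
    induction k with
    | zero => intro _; simp
    | succ k ih =>
      intro hk
      have h1 := ih (by omega)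
      have h2 := hmono k (by omega)
      have h3 := hL (k + 1) (by omega)
      rw [Finset.sum_range_succ (fun i => w i * l i) (k + 1), Finset.sum_range_succ l (k + 1)]
      nlinarith [mul_le_mul_of_nonneg_right h2 h3]
  rcases Nat.eq_zero_or_pos m with h0 | h0
  · subst h0; simp
  · obtain ⟨k, rfl⟩ := Nat.exists_eq_succ_of_ne_zero (Nat.pos_iff_ne_zero.1 h0)
    have h1 := key k le_rfl
    have h2 := mul_nonneg (hw k (Nat.lt_succ_self k)) (hL (k + 1) le_rfl)
    exact h2.trans h1

/-- The comparison lemma. -/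
lemma cmp (a u : ℕ → ℕ) (m : ℕ) (ha : ∀ i, i < m → 0 < a i) (hu : ∀ i, 0 < u i)
    (hmono : ∀ i, i + 1 < m → a i ≤ a (i + 1))
    (hp : ∀ j, j ≤ m → ∏ i ∈ range j, u i ≤ ∏ i ∈ range j, a i) :
    ∑ i ∈ range m, (1 : ℝ) / (a i : ℝ) ≤ ∑ i ∈ range m, (1 : ℝ) / (u i : ℝ) := by
  have h1 := abel (fun i => 1 / (a i : ℝ)) (fun i => Real.log (a i : ℝ) - Real.log (u i : ℝ)) m
    (fun i _ => by positivity) (fun i hi => by
      have h2 : (a i : ℝ) ≤ (a (i + 1) : ℝ) := by exact_mod_cast hmono i hi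
      have h3 : (0 : ℝ) < (a i : ℝ) := by exact_mod_cast ha i (by omega)
      exact one_div_le_one_div_of_le h3 h2) (fun j hj => by
      rw [Finset.sum_sub_distrib, ← Real.log_prod (s := range j) (f := fun i => (a i : ℝ)) (fun i hi => by
        have := ha i (lt_of_lt_of_le (mem_range.1 hi) hj)
        positivity), ← Real.log_prod (s := range j) (f := fun i => (u i : ℝ)) (fun i _ => by
        have := hu i
        positivity)]
      have h4 : (∏ i ∈ range j, (u i : ℝ)) ≤ ∏ i ∈ range j, (a i : ℝ) := by exact_mod_cast hp j hj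
      have h5 : (0 : ℝ) < ∏ i ∈ range j, (u i : ℝ) :=
        Finset.prod_pos fun i _ => by exact_mod_cast hu i
      have := Real.log_le_log h5 h4
      linarith)
  have h2 : ∀ i ∈ range m, 1 / (a i : ℝ) * (Real.log (a i : ℝ) - Real.log (u i : ℝ)) ≤
      1 / (u i : ℝ) - 1 / (a i : ℝ) := by
    intro i hi
    have h3 : (0 : ℝ) < (a i : ℝ) := by exact_mod_cast ha i (mem_range.1 hi)
    have h4 : (0 : ℝ) < (u i : ℝ) := by exact_mod_cast hu i
    have h5 := Real.log_le_sub_one_of_pos (div_pos h3 h4)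
    rw [Real.log_div h3.ne' h4.ne'] at h5
    have h6 : 1 / (a i : ℝ) * ((a i : ℝ) / (u i : ℝ) - 1) = 1 / (u i : ℝ) - 1 / (a i : ℝ) := by
      field_simp
    rw [← h6]
    exact mul_le_mul_of_nonneg_left h5 (by positivity)
  have h3 := Finset.sum_le_sum h2
  rw [Finset.sum_sub_distrib] at h3
  linarith

lemma intval (a : ℕ → ℕ) (n : ℕ) (ha : ∀ i, i < n → 0 < a i) : ∃ z : ℤ,
    ((∏ i ∈ range n, a i : ℕ) : ℚ) * (1 - ∑ i ∈ range n, (1 : ℚ) / (a i : ℚ)) = (z : ℚ) := by
  induction n with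
  | zero => exact ⟨1, by simp⟩
  | succ n ih =>
    obtain ⟨z, hz⟩ := ih fun i hi => ha i (by omega)
    refine ⟨(a n : ℤ) * z - ((∏ i ∈ range n, a i : ℕ) : ℤ), ?_⟩
    have h1 : (0 : ℚ) < (a n : ℚ) := by exact_mod_cast ha n (Nat.lt_succ_self n)
    rw [Finset.prod_range_succ, Finset.sum_range_succ]
    push_cast
    push_cast at hz
    rw [← hz]
    field_simp
    ring

theorem main (n : ℕ) : ∀ a : ℕ → ℕ, (∀ i, i < n → 0 < a i) → (∀ i, i + 1 < n → a i ≤ a (i + 1)) →
    ∑ i ∈ range n, (1 : ℚ) / (a i : ℚ) < 1 →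
    ∑ i ∈ range n, (1 : ℚ) / (a i : ℚ) ≤ 1 - 1 / (U n : ℚ) := by
  induction n using Nat.strong_induction_on with
  | _ n ih =>
    intro a ha hmono hlt
    by_contra hcon
    push Not at hcon
    have hspos : ∀ i, 0 < syl i := fun i => by rw [(syl_eq i).1]; omega
    have hPa : 0 < ∏ i ∈ range n, a i := Finset.prod_pos fun i hi => ha i (mem_range.1 hi)
    -- the product is large
    have hbig : U n ≤ ∏ i ∈ range n, a i := by
      obtain ⟨z, hz⟩ := intval a n ha
      have hPq : (0 : ℚ) < ((∏ i ∈ range n, a i : ℕ) : ℚ) := by exact_mod_cast hPa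
      have hzpos : 0 < z := by
        have : (0 : ℚ) < (z : ℚ) := by
          rw [← hz]
          exact mul_pos hPq (by linarith)
        exact_mod_cast this
      have hz1 : (1 : ℚ) ≤ (z : ℚ) := by exact_mod_cast hzpos
      have hUq : (0 : ℚ) < (U n : ℚ) := by exact_mod_cast (syl_eq n).2
      have h1 : 1 - ∑ i ∈ range n, (1 : ℚ) / (a i : ℚ) < 1 / (U n : ℚ) := by linarith
      have h2 : (1 : ℚ) < ((∏ i ∈ range n, a i : ℕ) : ℚ) * (1 / (U n : ℚ)) := by
        calc (1 : ℚ) ≤ (z : ℚ) := hz1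
          _ = _ := hz.symm
          _ < _ := mul_lt_mul_of_pos_left h1 hPq
      rw [mul_one_div, lt_div_iff₀ hUq, one_mul] at h2
      exact le_of_lt (by exact_mod_cast h2)
    have hn : 0 < n := by
      rcases Nat.eq_zero_or_pos n with h0 | h0
      · subst h0
        simp [U] at hcon
      · exact h0
    -- the largest index
    set s : Finset ℕ := (range n).filter fun j => ∏ i ∈ Ico j n, syl i ≤ ∏ i ∈ Ico j n, a i with hs
    have h0s : 0 ∈ s := by
      rw [hs, mem_filter]
      refine ⟨mem_range.2 hn, ?_⟩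
      rw [← Finset.range_eq_Ico]
      exact hbig
    set k := s.max' ⟨0, h0s⟩ with hk
    have hks : k ∈ s := s.max'_mem _
    rw [hs, mem_filter, mem_range] at hks
    obtain ⟨hkn, hkp⟩ := hks
    have hnot : ∀ j, k < j → j < n → ∏ i ∈ Ico j n, a i < ∏ i ∈ Ico j n, syl i := by
      intro j hj hjn
      by_contra hc
      push Not at hc
      have : j ∈ s := by
        rw [hs, mem_filter]
        exact ⟨mem_range.2 hjn, hc⟩
      have := s.le_max' j this
      omega
    -- the comparison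
    have hcmp : ∑ i ∈ range (n - k), (1 : ℝ) / (a (k + i) : ℝ) ≤
        ∑ i ∈ range (n - k), (1 : ℝ) / (syl (k + i) : ℝ) := by
      refine cmp (fun i => a (k + i)) (fun i => syl (k + i)) (n - k) (fun i hi => ha _ (by omega))
        (fun i => hspos _) (fun i hi => hmono (k + i) (by omega)) ?_
      intro j hj
      have e1 : ∀ f : ℕ → ℕ, ∏ i ∈ range j, f (k + i) = ∏ i ∈ Ico k (k + j), f i := by
        intro f
        rw [Finset.prod_Ico_eq_prod_range, Nat.add_sub_cancel_left]
      rw [e1 syl, e1 a]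
      rcases Nat.lt_or_ge j (n - k) with hlt' | hge
      · rcases Nat.eq_zero_or_pos j with hj0 | hj0
        · subst hj0; simp
        · have h1 := hnot (k + j) (by omega) (by omega)
          have h2 : ∀ f : ℕ → ℕ, (∏ i ∈ Ico k (k + j), f i) * ∏ i ∈ Ico (k + j) n, f i =
              ∏ i ∈ Ico k n, f i := fun f =>
            Finset.prod_Ico_consecutive f (by omega) (by omega)
          rw [← h2 syl, ← h2 a] at hkp
          by_contra hc
          push Not at hc
          have h3 : 0 < ∏ i ∈ Ico (k + j) n, a i :=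
            Finset.prod_pos fun i hi => ha i (mem_Ico.1 hi).2
          have h4 : (∏ i ∈ Ico k (k + j), a i) * ∏ i ∈ Ico (k + j) n, a i <
              (∏ i ∈ Ico k (k + j), syl i) * ∏ i ∈ Ico (k + j) n, syl i :=
            Nat.mul_lt_mul_of_lt_of_le hc h1.le (by omega)
          omega
      · have : k + j = n := by omega
        rw [this]
        exact hkp
    have hcmpQ : ∑ i ∈ Ico k n, (1 : ℚ) / (a i : ℚ) ≤ ∑ i ∈ Ico k n, (1 : ℚ) / (syl i : ℚ) := by
      rw [Finset.sum_Ico_eq_sum_range, Finset.sum_Ico_eq_sum_range]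
      have : ((∑ i ∈ range (n - k), (1 : ℚ) / (a (k + i) : ℚ) : ℚ) : ℝ) ≤
          ((∑ i ∈ range (n - k), (1 : ℚ) / (syl (k + i) : ℚ) : ℚ) : ℝ) := by
        push_cast
        exact hcmp
      exact_mod_cast this
    have hsplit : ∀ f : ℕ → ℚ, ∑ i ∈ range n, f i = ∑ i ∈ range k, f i + ∑ i ∈ Ico k n, f i :=
      fun f => (Finset.sum_range_add_sum_Ico f hkn.le).symm
    have hnn : 0 ≤ ∑ i ∈ Ico k n, (1 : ℚ) / (a i : ℚ) := Finset.sum_nonneg fun i _ => by positivity
    have hih := ih k hkn a (fun i hi => ha i (by omega)) (fun i hi => hmono i (by omega)) (by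
      rw [hsplit] at hlt
      linarith)
    rw [← sum_syl] at hih hcon
    rw [hsplit (fun i => (1 : ℚ) / (a i : ℚ)), hsplit (fun i => (1 : ℚ) / (syl i : ℚ))] at hcon
    linarith

end CUR

theorem t_CUR : S_CUR := by
  intro p hp hlt
  set q := p.insertionSort (· ≤ ·) with hq
  have hperm : q.Perm p := List.perm_insertionSort _ p
  have hlen : q.length = p.length := hperm.length_eq
  have hsum : (q.map fun x : ℕ => (1 : ℚ) / (x : ℚ)).sum = (p.map fun x : ℕ => (1 : ℚ) / (x : ℚ)).sum :=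
    (hperm.map _).sum_eq
  have hsort : q.Pairwise (· ≤ ·) := List.pairwise_insertionSort _ p
  have hget : ∀ i (hi : i < q.length), q.getD i 1 = q[i] := fun i hi => by
    rw [List.getD_eq_getElem?_getD, List.getElem?_eq_getElem hi, Option.getD_some]
  have hs2 : ∑ i ∈ range q.length, (1 : ℚ) / ((q.getD i 1 : ℕ) : ℚ) =
      (q.map fun x : ℕ => (1 : ℚ) / (x : ℚ)).sum := by
    rw [Finset.sum_range, ← Fin.sum_univ_fun_getElem q (fun x : ℕ => (1 : ℚ) / (x : ℚ))]
    refine Finset.sum_congr rfl fun i _ => ?_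
    rw [hget i.1 i.2]
  have h := CUR.main q.length (fun i => q.getD i 1) (fun i hi => by
      show 0 < q.getD i 1
      rw [hget i hi]
      exact hp _ (hperm.mem_iff.1 (List.getElem_mem hi))) (fun i hi => by
      show q.getD i 1 ≤ q.getD (i + 1) 1
      rw [hget i (by omega), hget (i + 1) hi]
      exact List.pairwise_iff_getElem.1 hsort i (i + 1) (by omega) hi (by omega)) (by
      rw [hs2, hsum]; exact hlt)
  rw [hs2, hsum, hlen] at h
  linarith

end Pool.Agent.UFU
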