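import Pool.Agent.UFU.Stmts

/-!
# Module UFU_DEC: a decomposition of the solutions of `h / n = 1 / x1 + 1 / x2 + 1 / x3 + 1 / x4`
-/

set_option autoImplicit false

noncomputable section

namespace Pool.Agent.UFU

open Finset

namespace DECm

/-- Each denominator divides the lcm of the others and of `n`. -/
theorem dvd_aux {h n x y z w : ℕ} (hn : 0 < n) (hy : 0 < y) (hz : 0 < z) (hw : 0 < w)
    (e : h * (x * y * z * w) = n * (y * z * w + x * z * w + x * y * w + x * y * z)) :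
    x ∣ ((n.lcm y).lcm z).lcm w := by
  obtain ⟨l, hl⟩ : ∃ l, l = ((n.lcm y).lcm z).lcm w := ⟨_, rfl⟩
  rw [← hl]
  obtain ⟨A, hA⟩ : n ∣ l := by
    rw [hl]
    exact ((Nat.dvd_lcm_left n y).trans (Nat.dvd_lcm_left _ z)).trans (Nat.dvd_lcm_left _ w)
  obtain ⟨B, hB⟩ : y ∣ l := by
    rw [hl]
    exact ((Nat.dvd_lcm_right n y).trans (Nat.dvd_lcm_left _ z)).trans (Nat.dvd_lcm_left _ w)
  obtain ⟨C, hC⟩ : z ∣ l := by
    rw [hl]
    exact (Nat.dvd_lcm_right _ z).trans (Nat.dvd_lcm_left _ w)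
  obtain ⟨D, hD⟩ : w ∣ l := by
    rw [hl]
    exact Nat.dvd_lcm_right _ w
  have key : (n * y * z * w) * (h * x * A) = (n * y * z * w) * (l + x * B + x * C + x * D) := by
    calc (n * y * z * w) * (h * x * A) = (h * (x * y * z * w)) * (n * A) := by ring
      _ = (n * (y * z * w + x * z * w + x * y * w + x * y * z)) * l := by rw [e, ← hA]
      _ = (n * y * z * w) * l + n * x * z * w * l + n * x * y * w * l + n * x * y * z * l := by ring
      _ = (n * y * z * w) * l + n * x * z * w * (y * B) + n * x * y * w * (z * C)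
          + n * x * y * z * (w * D) := by rw [← hB, ← hC, ← hD]
      _ = (n * y * z * w) * (l + x * B + x * C + x * D) := by ring
  have h1 := Nat.eq_of_mul_eq_mul_left (show 0 < n * y * z * w by positivity) key
  have h2 : x ∣ l + x * (B + C + D) := ⟨h * A, by linarith⟩
  exact (Nat.dvd_add_left (Dvd.intro _ rfl)).1 h2

/-- The exponent of a prime in `x / gcd (x, n)`. -/
theorem fact_red {x n : ℕ} (hx : x ≠ 0) (hn : n ≠ 0) (p : ℕ) :
    (x / x.gcd n).factorization p = x.factorization p - n.factorization p := by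
  rw [Nat.factorization_div (Nat.gcd_dvd_left x n), Nat.factorization_gcd hx hn]
  simp only [Finsupp.coe_tsub, Pi.sub_apply, Finsupp.inf_apply]
  rcases le_total (x.factorization p) (n.factorization p) with h | h
  · rw [inf_eq_left.2 h]; omega
  · rw [inf_eq_right.2 h]

theorem red_ne {x n : ℕ} (hx : 0 < x) : x / x.gcd n ≠ 0 := by
  have h1 : 0 < x.gcd n := Nat.gcd_pos_of_pos_left n hx
  exact (Nat.div_pos (Nat.le_of_dvd hx (Nat.gcd_dvd_left x n)) h1).ne'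

theorem red {n x y z w : ℕ} (hn : 0 < n) (hx : 0 < x) (hy : 0 < y) (hz : 0 < z) (hw : 0 < w)
    (hd : x ∣ ((n.lcm y).lcm z).lcm w) :
    x / x.gcd n ∣ ((y / y.gcd n).lcm (z / z.gcd n)).lcm (w / w.gcd n) := by
  have l1 : n.lcm y ≠ 0 := Nat.lcm_ne_zero hn.ne' hy.ne'
  have l2 : (n.lcm y).lcm z ≠ 0 := Nat.lcm_ne_zero l1 hz.ne'
  have l3 : ((n.lcm y).lcm z).lcm w ≠ 0 := Nat.lcm_ne_zero l2 hw.ne'
  have m1 : (y / y.gcd n).lcm (z / z.gcd n) ≠ 0 := Nat.lcm_ne_zero (red_ne hy) (red_ne hz)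
  have m2 : ((y / y.gcd n).lcm (z / z.gcd n)).lcm (w / w.gcd n) ≠ 0 :=
    Nat.lcm_ne_zero m1 (red_ne hw)
  have h1 := (Nat.factorization_le_iff_dvd hx.ne' l3).2 hd
  rw [Nat.factorization_lcm l2 hw.ne', Nat.factorization_lcm l1 hz.ne',
    Nat.factorization_lcm hn.ne' hy.ne'] at h1
  refine (Nat.factorization_le_iff_dvd (red_ne hx) m2).1 ?_
  rw [Nat.factorization_lcm m1 (red_ne hw), Nat.factorization_lcm (red_ne hy) (red_ne hz)]
  intro p
  have h2 := h1 p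
  simp only [Finsupp.sup_apply] at h2 ⊢
  rw [fact_red hx.ne' hn.ne', fact_red hy.ne' hn.ne', fact_red hz.ne' hn.ne',
    fact_red hw.ne' hn.ne']
  generalize x.factorization p = a at h2 ⊢
  generalize y.factorization p = b at h2 ⊢
  generalize z.factorization p = c at h2 ⊢
  generalize w.factorization p = d at h2 ⊢
  generalize n.factorization p = k at h2 ⊢
  simp only [le_sup_iff] at h2 ⊢
  omega

end DECm

open DECm in
theorem t_DEC (hR : S_REL) : S_DEC := by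
  intro h n x1 x2 x3 x4 hh hn p1 p2 p3 p4 e
  have e1 : x1 ∣ ((n.lcm x2).lcm x3).lcm x4 := dvd_aux (h := h) hn p2 p3 p4 (by linarith)
  have e2 : x2 ∣ ((n.lcm x1).lcm x3).lcm x4 := dvd_aux (h := h) hn p1 p3 p4 (by linarith)
  have e3 : x3 ∣ ((n.lcm x1).lcm x2).lcm x4 := dvd_aux (h := h) hn p1 p2 p4 (by linarith)
  have e4 : x4 ∣ ((n.lcm x1).lcm x2).lcm x3 := dvd_aux (h := h) hn p1 p2 p3 (by linarith)
  obtain ⟨d12, d13, d14, d23, d24, d34, d123, d124, d134, d234, d1234, t1, t2, t3, t4, cop⟩ :=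
    hR (x1 / x1.gcd n) (x2 / x2.gcd n) (x3 / x3.gcd n) (x4 / x4.gcd n)
      (Nat.pos_of_ne_zero (red_ne p1)) (Nat.pos_of_ne_zero (red_ne p2))
      (Nat.pos_of_ne_zero (red_ne p3)) (Nat.pos_of_ne_zero (red_ne p4))
      (red hn p1 p2 p3 p4 e1) (red hn p2 p1 p3 p4 e2) (red hn p3 p1 p2 p4 e3)
      (red hn p4 p1 p2 p3 e4)
  have z1 : x1 = x1.gcd n * (x1 / x1.gcd n) := (Nat.mul_div_cancel' (Nat.gcd_dvd_left x1 n)).symm
  have z2 : x2 = x2.gcd n * (x2 / x2.gcd n) := (Nat.mul_div_cancel' (Nat.gcd_dvd_left x2 n)).symm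
  have z3 : x3 = x3.gcd n * (x3 / x3.gcd n) := (Nat.mul_div_cancel' (Nat.gcd_dvd_left x3 n)).symm
  have z4 : x4 = x4.gcd n * (x4 / x4.gcd n) := (Nat.mul_div_cancel' (Nat.gcd_dvd_left x4 n)).symm
  have q1 : x1.gcd n * (n / x1.gcd n) = n := Nat.mul_div_cancel' (Nat.gcd_dvd_right x1 n)
  have q2 : x2.gcd n * (n / x2.gcd n) = n := Nat.mul_div_cancel' (Nat.gcd_dvd_right x2 n)
  have q3 : x3.gcd n * (n / x3.gcd n) = n := Nat.mul_div_cancel' (Nat.gcd_dvd_right x3 n)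
  have q4 : x4.gcd n * (n / x4.gcd n) = n := Nat.mul_div_cancel' (Nat.gcd_dvd_right x4 n)
  rw [t1] at z1
  rw [t2] at z2
  rw [t3] at z3
  rw [t4] at z4
  clear t1 t2 t3 t4 e1 e2 e3 e4
  generalize x1.gcd n = n1 at z1 q1
  generalize x2.gcd n = n2 at z2 q2
  generalize x3.gcd n = n3 at z3 q3
  generalize x4.gcd n = n4 at z4 q4
  generalize n / n1 = c1 at q1
  generalize n / n2 = c2 at q2
  generalize n / n3 = c3 at q3
  generalize n / n4 = c4 at q4
  refine ⟨⟨n1, n2, n3, n4, c1, c2, c3, c4, d12, d13, d14, d23, d24, d34, d123, d124, d134, d234,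
    d1234⟩, ⟨q1, q2, q3, q4, z1, z2, z3, z4, cop, ?_⟩⟩
  show h * (d12 * d13 * d14 * d23 * d24 * d34 * d123 * d124 * d134 * d234 * d1234) =
    c1 * (d23 * d24 * d34 * d234) + c2 * (d13 * d14 * d34 * d134) +
    c3 * (d12 * d14 * d24 * d124) + c4 * (d12 * d13 * d23 * d123)
  obtain ⟨Q, hQ⟩ : ∃ Q, Q = d12 * d13 * d14 * d23 * d24 * d34 * d123 * d124 * d134 * d234 * d1234 :=
    ⟨_, rfl⟩
  have r1 : n * Q = c1 * (d23 * d24 * d34 * d234) * x1 := by rw [← q1, z1, hQ]; ring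
  have r2 : n * Q = c2 * (d13 * d14 * d34 * d134) * x2 := by rw [← q2, z2, hQ]; ring
  have r3 : n * Q = c3 * (d12 * d14 * d24 * d124) * x3 := by rw [← q3, z3, hQ]; ring
  have r4 : n * Q = c4 * (d12 * d13 * d23 * d123) * x4 := by rw [← q4, z4, hQ]; ring
  rw [← hQ]
  refine Nat.eq_of_mul_eq_mul_left (show 0 < x1 * x2 * x3 * x4 by positivity) ?_
  calc x1 * x2 * x3 * x4 * (h * Q) = (h * (x1 * x2 * x3 * x4)) * Q := by ring
    _ = (n * (x2 * x3 * x4 + x1 * x3 * x4 + x1 * x2 * x4 + x1 * x2 * x3)) * Q := by rw [e]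
    _ = (n * Q) * (x2 * x3 * x4) + (n * Q) * (x1 * x3 * x4) + (n * Q) * (x1 * x2 * x4)
        + (n * Q) * (x1 * x2 * x3) := by ring
    _ = (c1 * (d23 * d24 * d34 * d234) * x1) * (x2 * x3 * x4)
        + (c2 * (d13 * d14 * d34 * d134) * x2) * (x1 * x3 * x4)
        + (c3 * (d12 * d14 * d24 * d124) * x3) * (x1 * x2 * x4)
        + (c4 * (d12 * d13 * d23 * d123) * x4) * (x1 * x2 * x3) := by
          rw [← r1, ← r2, ← r3, ← r4]
    _ = x1 * x2 * x3 * x4 * (c1 * (d23 * d24 * d34 * d234) + c2 * (d13 * d14 * d34 * d134) +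
        c3 * (d12 * d14 * d24 * d124) + c4 * (d12 * d13 * d23 * d123)) := by ring

end Pool.Agent.UFU

end
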