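import Pool.Agent.UFU.Stmts

/-!
# Module UFU_GEO: the equation and the sizes (MP_dcc108_nt)
-/

set_option autoImplicit false

namespace Pool.Agent.UFU

theorem t_GEO : S_GEO := by
  intro a b x0 h0 x1 h1 x2 h2 x3 h3 x4 ha hab G
  obtain ⟨p0, p1, p2, p3, e0, e1, e2, e3, e4, u0, u1, u2, u3⟩ := G
  have hb : 0 < b := lt_of_lt_of_le ha hab
  have hx0 : 0 < x0 := by
    rcases Nat.eq_zero_or_pos x0 with h | h
    · subst h; simp at e0; omega
    · exact h
  have hx1 : 0 < x1 := by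
    rcases Nat.eq_zero_or_pos x1 with h | h
    · subst h; simp at e1; omega
    · exact h
  have hx2 : 0 < x2 := by
    rcases Nat.eq_zero_or_pos x2 with h | h
    · subst h; simp at e2; omega
    · exact h
  have hx3 : 0 < x3 := by
    rcases Nat.eq_zero_or_pos x3 with h | h
    · subst h; simp at e3; omega
    · exact h
  have hx4 : 0 < x4 := by
    rcases Nat.eq_zero_or_pos x4 with h | h
    · subst h
      have : 0 < b * x0 * x1 * x2 * x3 := by positivity
      simp only [mul_zero] at e4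
      omega
    · exact h
  -- the equation
  have heq : h0 * (x1 * x2 * x3 * x4) =
      (b * x0) * (x2 * x3 * x4 + x1 * x3 * x4 + x1 * x2 * x4 + x1 * x2 * x3) := by
    calc h0 * (x1 * x2 * x3 * x4) = (h0 * x1) * (x2 * x3 * x4) := by ring
      _ = b * x0 * (x2 * x3 * x4) + (h1 * x2) * (x3 * x4) := by rw [e1]; ring
      _ = b * x0 * (x2 * x3 * x4) + b * x0 * x1 * (x3 * x4) + (h2 * x3) * x4 := by rw [e2]; ring
      _ = b * x0 * (x2 * x3 * x4) + b * x0 * x1 * (x3 * x4) + b * x0 * x1 * x2 * x4 + h3 * x4 := by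
        rw [e3]; ring
      _ = _ := by rw [e4]; ring
  -- the sizes
  have c0 : b * x0 ≤ 5 * b ^ 2 := by
    have : x0 ≤ 5 * b := (Nat.le_mul_of_pos_left x0 ha).trans u0
    calc b * x0 ≤ b * (5 * b) := Nat.mul_le_mul_left _ this
      _ = 5 * b ^ 2 := by ring
  have ch0 : h0 ≤ 5 * b := by omega
  have cx1 : x1 ≤ 20 * b ^ 2 := by
    have : x1 ≤ h0 * x1 := Nat.le_mul_of_pos_left x1 p0
    omega
  have ch1 : h1 ≤ 20 * b ^ 2 := by omega
  have c1 : b * x0 * x1 ≤ 100 * b ^ 4 := by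
    calc b * x0 * x1 ≤ (5 * b ^ 2) * (20 * b ^ 2) := Nat.mul_le_mul c0 cx1
      _ = 100 * b ^ 4 := by ring
  have cx2 : x2 ≤ 300 * b ^ 4 := by
    have : x2 ≤ h1 * x2 := Nat.le_mul_of_pos_left x2 p1
    omega
  have ch2 : h2 ≤ 300 * b ^ 4 := by omega
  have c2 : b * x0 * x1 * x2 ≤ 30000 * b ^ 8 := by
    calc b * x0 * x1 * x2 ≤ (100 * b ^ 4) * (300 * b ^ 4) := Nat.mul_le_mul c1 cx2
      _ = 30000 * b ^ 8 := by ring
  have cx3 : x3 ≤ 60000 * b ^ 8 := by
    have : x3 ≤ h2 * x3 := Nat.le_mul_of_pos_left x3 p2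
    omega
  have c3 : b * x0 * x1 * x2 * x3 ≤ 1800000000 * b ^ 16 := by
    calc b * x0 * x1 * x2 * x3 ≤ (30000 * b ^ 8) * (60000 * b ^ 8) := Nat.mul_le_mul c2 cx3
      _ = 1800000000 * b ^ 16 := by ring
  have cx4 : x4 ≤ 1800000000 * b ^ 16 := by
    have : x4 ≤ h3 * x4 := Nat.le_mul_of_pos_left x4 p3
    omega
  have key : ∀ c k y : ℕ, c ≤ 10 ^ 16 → k ≤ 16 → y ≤ c * b ^ k → y ≤ (10 * b) ^ 16 := by
    intro c k y hc hk hy
    calc y ≤ c * b ^ k := hy
      _ ≤ 10 ^ 16 * b ^ 16 := Nat.mul_le_mul hc (Nat.pow_le_pow_right hb hk)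
      _ = (10 * b) ^ 16 := by rw [mul_pow]
  refine ⟨⟨hx0, hx1, hx2, hx3, hx4⟩, heq,
    key 20 2 _ (by norm_num) (by norm_num) cx1,
    key 300 4 _ (by norm_num) (by norm_num) cx2,
    key 60000 8 _ (by norm_num) (by norm_num) cx3,
    key 1800000000 16 _ (by norm_num) (by norm_num) cx4,
    key 5 1 _ (by norm_num) (by norm_num) (by simpa using ch0),
    key 20 2 _ (by norm_num) (by norm_num) ch1,
    key 300 4 _ (by norm_num) (by norm_num) ch2,
    key 5 2 _ (by norm_num) (by norm_num) c0,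
    key 100 4 _ (by norm_num) (by norm_num) c1,
    key 30000 8 _ (by norm_num) (by norm_num) c2⟩

end Pool.Agent.UFU
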