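import Pool.Agent.UFU.Stmts

/-!
# Module UFU_KEY: the product inequality (MP_dcc108_nt)
-/

set_option autoImplicit false

namespace Pool.Agent.UFU

namespace KeyAux

lemma pos_of_eq {x b s t : ℕ} (hb : 0 < b) (h : s * x = b + t) : 0 < x := by
  rcases Nat.eq_zero_or_pos x with h0 | h0
  · subst h0; simp at h; omega
  · exact h0

lemma W_le (h n x1 x2 x3 x4 : ℕ) (D : Dc) (hD : IsDec h n x1 x2 x3 x4 D) (h2 : 0 < x2) (h3 : 0 < x3) :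
    D.W * (D.d23 * D.d234) ^ 2 ≤ x2 * x3 := by
  have e : x2 * x3 = (D.W * (D.d23 * D.d234) ^ 2) * (D.n2 * D.n3 * D.d123 * D.d1234) := by
    rw [hD.z2, hD.z3]; unfold Dc.W; ring
  have hp : 0 < x2 * x3 := Nat.mul_pos h2 h3
  have hq : 0 < D.n2 * D.n3 * D.d123 * D.d1234 := by
    rcases Nat.eq_zero_or_pos (D.n2 * D.n3 * D.d123 * D.d1234) with h0 | h0
    · rw [e, h0] at hp; simp at hp
    · exact h0
  rw [e]
  exact Nat.le_mul_of_pos_right _ hq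

end KeyAux

theorem t_KEY : S_KEY := by
  intro a b x0 h0 x1 h1 x2 h2 x3 h3 x4 D ha hb G hD
  obtain ⟨p0, p1, p2, p3, e0, e1, e2, e3, e4, u0, u1, u2, u3⟩ := G
  have hx0 : 0 < x0 := KeyAux.pos_of_eq hb e0
  have hx1 : 0 < x1 := KeyAux.pos_of_eq (Nat.mul_pos hb hx0) e1
  have hx2 : 0 < x2 := KeyAux.pos_of_eq (Nat.mul_pos (Nat.mul_pos hb hx0) hx1) e2
  have hx3 : 0 < x3 := KeyAux.pos_of_eq (Nat.mul_pos (Nat.mul_pos (Nat.mul_pos hb hx0) hx1) hx2) e3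
  have hW := KeyAux.W_le h0 (b * x0) x1 x2 x3 x4 D hD hx2 hx3
  have k1 : h0 ^ 2 * h1 ^ 2 * h2 * (x2 * x3) ≤ 1152 * (b * x0) ^ 6 := by
    calc h0 ^ 2 * h1 ^ 2 * h2 * (x2 * x3) = (h0 ^ 2 * h1 ^ 2 * x2) * (h2 * x3) := by ring
      _ ≤ (h0 ^ 2 * h1 ^ 2 * x2) * (2 * (b * x0 * x1 * x2)) := Nat.mul_le_mul_left _ u3
      _ = (2 * (b * x0 * x1) * h0 ^ 2) * (h1 * x2) ^ 2 := by ring
      _ ≤ (2 * (b * x0 * x1) * h0 ^ 2) * (3 * (b * x0 * x1)) ^ 2 :=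
          Nat.mul_le_mul_left _ (Nat.pow_le_pow_left u2 2)
      _ = (18 * (b * x0) ^ 3 * x1 ^ 3) * h0 ^ 2 := by ring
      _ ≤ (18 * (b * x0) ^ 3 * x1 ^ 3) * h0 ^ 3 :=
          Nat.mul_le_mul_left _ (Nat.pow_le_pow_right p0 (by norm_num))
      _ = (18 * (b * x0) ^ 3) * (h0 * x1) ^ 3 := by ring
      _ ≤ (18 * (b * x0) ^ 3) * (4 * (b * x0)) ^ 3 :=
          Nat.mul_le_mul_left _ (Nat.pow_le_pow_left u1 3)
      _ = 1152 * (b * x0) ^ 6 := by ring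
  calc a ^ 6 * ((h0 * D.W) * (h1 * (D.d23 * D.d234)) ^ 2 * (h0 * h2))
      = (a ^ 6 * (h0 ^ 2 * h1 ^ 2 * h2)) * (D.W * (D.d23 * D.d234) ^ 2) := by ring
    _ ≤ (a ^ 6 * (h0 ^ 2 * h1 ^ 2 * h2)) * (x2 * x3) := Nat.mul_le_mul_left _ hW
    _ = a ^ 6 * (h0 ^ 2 * h1 ^ 2 * h2 * (x2 * x3)) := by ring
    _ ≤ a ^ 6 * (1152 * (b * x0) ^ 6) := Nat.mul_le_mul_left _ k1
    _ = (1152 * b ^ 6) * (a * x0) ^ 6 := by ring
    _ ≤ (1152 * b ^ 6) * (5 * b) ^ 6 := Nat.mul_le_mul_left _ (Nat.pow_le_pow_left u0 6)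
    _ = 18000000 * b ^ 12 := by ring

end Pool.Agent.UFU
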