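import Pool.Agent.UFU.Stmts

/-!
# Module UFU_LNK: ordered representations and the lists in `L t 1 1`
-/

set_option autoImplicit false

noncomputable section

namespace Pool.Agent.UFU

open Finset

namespace M_LNK

theorem sum_le_of_le (x : ℕ) (hx : 0 < x) (l : List ℕ) (hl : ∀ y ∈ l, x ≤ y) :
    (l.map fun y : ℕ => (1 : ℚ) / (y : ℚ)).sum ≤ (l.length : ℚ) / (x : ℚ) := by
  induction l with
  | nil => simp
  | cons y l ih =>
    have h1 := ih (fun z hz => hl z (List.mem_cons_of_mem _ hz))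
    have hy : x ≤ y := hl y List.mem_cons_self
    have hxq : (0 : ℚ) < (x : ℚ) := by exact_mod_cast hx
    have h2 : (1 : ℚ) / (y : ℚ) ≤ 1 / (x : ℚ) :=
      one_div_le_one_div_of_le hxq (by exact_mod_cast hy)
    rw [List.map_cons, List.sum_cons, List.length_cons]
    push_cast
    rw [add_div, add_comm]
    exact add_le_add h1 h2

theorem sum_nonneg' (l : List ℕ) : 0 ≤ (l.map fun y : ℕ => (1 : ℚ) / (y : ℚ)).sum := by
  apply List.sum_nonneg
  intro q hq
  obtain ⟨y, -, rfl⟩ := List.mem_map.1 hq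
  positivity

theorem mem_L (l : List ℕ) : ∀ a b : ℕ, 0 < b → l.Pairwise (· ≤ ·) → (∀ x ∈ l, 0 < x) →
    (l.map fun y : ℕ => (1 : ℚ) / (y : ℚ)).sum = (a : ℚ) / (b : ℚ) → l ∈ L l.length a b := by
  induction l with
  | nil =>
    intro a b hb _ _ hs
    have hbq : (b : ℚ) ≠ 0 := by exact_mod_cast hb.ne'
    have ha : a = 0 := by
      rw [List.map_nil, List.sum_nil, eq_comm, div_eq_zero_iff] at hs
      rcases hs with h | h
      · exact_mod_cast h
      · exact absurd h hbq
    rw [List.length_nil, L, if_pos ha]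
    exact mem_singleton_self _
  | cons x l ih =>
    intro a b hb hp hpos hs
    have hx : 0 < x := hpos x List.mem_cons_self
    have hxq : (0 : ℚ) < (x : ℚ) := by exact_mod_cast hx
    have hbq : (0 : ℚ) < (b : ℚ) := by exact_mod_cast hb
    obtain ⟨hp1, hp2⟩ := List.pairwise_cons.1 hp
    have h1 := sum_le_of_le x hx l hp1
    have h0 := sum_nonneg' l
    rw [List.map_cons, List.sum_cons] at hs
    have ha1 : (1 : ℚ) / (x : ℚ) ≤ (a : ℚ) / (b : ℚ) := by linarith
    have ha2 : (a : ℚ) / (b : ℚ) ≤ ((l.length : ℚ) + 1) / (x : ℚ) := by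
      rw [add_div]
      linarith
    have hb1 : b ≤ a * x := by
      rw [div_le_div_iff₀ hxq hbq] at ha1
      have : (b : ℚ) ≤ (a : ℚ) * (x : ℚ) := by linarith
      exact_mod_cast this
    have hb2 : a * x ≤ (l.length + 1) * b := by
      rw [div_le_div_iff₀ hbq hxq] at ha2
      exact_mod_cast ha2
    have hapos : 0 < a := by
      rcases Nat.eq_zero_or_pos a with h | h
      · rw [h, zero_mul] at hb1
        omega
      · exact h
    have hrest : (l.map fun y : ℕ => (1 : ℚ) / (y : ℚ)).sum =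
        ((a * x - b : ℕ) : ℚ) / ((b * x : ℕ) : ℚ) := by
      have : (l.map fun y : ℕ => (1 : ℚ) / (y : ℚ)).sum = (a : ℚ) / (b : ℚ) - 1 / (x : ℚ) := by
        linarith
      rw [this, Nat.cast_sub hb1]
      push_cast
      field_simp
    have hmem := ih (a * x - b) (b * x) (Nat.mul_pos hb hx) hp2
      (fun y hy => hpos y (List.mem_cons_of_mem _ hy)) hrest
    rw [List.length_cons, L, mem_biUnion]
    refine ⟨x, ?_, mem_image.2 ⟨l, hmem, rfl⟩⟩
    rw [nxt, mem_filter, mem_range]
    refine ⟨?_, hb1, hb2⟩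
    have : x ≤ a * x := Nat.le_mul_of_pos_left x hapos
    omega

/-- The function attached to a permutation and a list. -/
def dec (t : ℕ) (p : Equiv.Perm (Fin t) × List ℕ) : Fin t → ℕ := fun i => p.2.getD (p.1 i) 0

theorem sub_image (t : ℕ) :
    Sol t ⊆ ((((univ : Finset (Equiv.Perm (Fin t))) ×ˢ L t 1 1).image (dec t) : Finset (Fin t → ℕ)) :
      Set (Fin t → ℕ)) := by
  intro x hx
  obtain ⟨hpos, hsum⟩ := hx
  rw [Finset.mem_coe, Finset.mem_image]
  have hmono : Monotone (x ∘ Tuple.sort x) := Tuple.monotone_sort x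
  refine ⟨((Tuple.sort x)⁻¹, List.ofFn (x ∘ Tuple.sort x)), ?_, ?_⟩
  · rw [mem_product]
    refine ⟨mem_univ _, ?_⟩
    have hlen : (List.ofFn (x ∘ Tuple.sort x)).length = t := List.length_ofFn
    have h := mem_L (List.ofFn (x ∘ Tuple.sort x)) 1 1 one_pos ?_ ?_ ?_
    · rw [hlen] at h
      exact h
    · rw [List.pairwise_ofFn]
      intro i j hij
      exact hmono hij.le
    · intro y hy
      rw [List.mem_ofFn] at hy
      obtain ⟨i, rfl⟩ := hy
      exact hpos _
    · rw [List.map_ofFn, List.sum_ofFn]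
      have : ∑ i : Fin t, ((fun y : ℕ => (1 : ℚ) / (y : ℚ)) ∘ (x ∘ Tuple.sort x)) i =
          ∑ i : Fin t, (1 : ℚ) / (x i : ℚ) :=
        Equiv.sum_comp (Tuple.sort x) (fun i => (1 : ℚ) / (x i : ℚ))
      rw [this, hsum]
      simp
  · funext i
    unfold dec
    simp

end M_LNK

theorem t_LNK : S_LNK := by
  intro t
  have hsub := M_LNK.sub_image t
  refine ⟨(Finset.finite_toSet _).subset hsub, ?_⟩
  unfold N
  calc (Sol t).ncard
      ≤ ((((univ : Finset (Equiv.Perm (Fin t))) ×ˢ L t 1 1).image (M_LNK.dec t) :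
          Finset (Fin t → ℕ)) : Set (Fin t → ℕ)).ncard :=
        Set.ncard_le_ncard hsub (Finset.finite_toSet _)
    _ = (((univ : Finset (Equiv.Perm (Fin t))) ×ˢ L t 1 1).image (M_LNK.dec t)).card :=
        Set.ncard_coe_finset _
    _ ≤ ((univ : Finset (Equiv.Perm (Fin t))) ×ˢ L t 1 1).card := card_image_le
    _ = t.factorial * Rc t 1 1 := by
        rw [card_product, card_univ, Fintype.card_perm, Fintype.card_fin, Rc]

end Pool.Agent.UFU

end
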