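import Pool.Agent.UFU.Stmts

/-!
# The lists in `L 5 a b` (module UFU_LST)
-/

set_option autoImplicit false

namespace Pool.Agent.UFU

open Finset

theorem lst_step (k a b : ℕ) (hb : 0 < b) (l : List ℕ) (hl : l ∈ L (k + 1) a b) :
    0 < a ∧ ∃ (x h : ℕ) (l' : List ℕ), 0 < x ∧ a * x = b + h ∧ a * x ≤ (k + 1) * b ∧
      l = x :: l' ∧ l' ∈ L k h (b * x) := by
  rw [L, mem_biUnion] at hl
  obtain ⟨x, hx, hl'⟩ := hl
  rw [mem_image] at hl'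
  obtain ⟨l', hl', rfl⟩ := hl'
  rw [nxt, mem_filter] at hx
  obtain ⟨_, h1, h2⟩ := hx
  have hax : 0 < a * x := lt_of_lt_of_le hb h1
  refine ⟨Nat.pos_of_mul_pos_right hax, x, a * x - b, l', Nat.pos_of_mul_pos_left hax,
    by omega, h2, rfl, hl'⟩

theorem t_LST : S_LST := by
  intro a b _ hb l hl
  obtain ⟨_, x0, h0, l0, hx0, e0, u0, rfl, hl0⟩ := lst_step 4 a b hb l hl
  have hb0 : 0 < b * x0 := Nat.mul_pos hb hx0
  obtain ⟨p0, x1, h1, l1, hx1, e1, u1, rfl, hl1⟩ := lst_step 3 h0 _ hb0 l0 hl0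
  have hb1 : 0 < b * x0 * x1 := Nat.mul_pos hb0 hx1
  obtain ⟨p1, x2, h2, l2, hx2, e2, u2, rfl, hl2⟩ := lst_step 2 h1 _ hb1 l1 hl1
  have hb2 : 0 < b * x0 * x1 * x2 := Nat.mul_pos hb1 hx2
  obtain ⟨p2, x3, h3, l3, hx3, e3, u3, rfl, hl3⟩ := lst_step 1 h2 _ hb2 l2 hl2
  have hb3 : 0 < b * x0 * x1 * x2 * x3 := Nat.mul_pos hb2 hx3
  obtain ⟨p3, x4, h4, l4, _, e4, u4, rfl, hl4⟩ := lst_step 0 h3 _ hb3 l3 hl3
  have h40 : h4 = 0 := by omega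
  have hl40 : l4 = [] := by
    rw [L, if_pos h40] at hl4
    exact mem_singleton.1 hl4
  refine ⟨x0, h0, x1, h1, x2, h2, x3, h3, x4, by rw [hl40], ?_⟩
  exact ⟨p0, p1, p2, p3, e0, e1, e2, e3, by omega, u0, u1, u2, u3⟩

end Pool.Agent.UFU
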