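import Pool.Agent.UFU.Stmts

/-!
# Module UFU_PRE: the first steps
-/

set_option autoImplicit false

noncomputable section

namespace Pool.Agent.UFU

open Finset

namespace M_PRE

theorem Rc_succ_le (k a b : ℕ) :
    Rc (k + 1) a b ≤ ∑ x ∈ nxt (k + 1) a b, Rc k (a * x - b) (b * x) := by
  unfold Rc
  rw [L]
  refine card_biUnion_le.trans (sum_le_sum fun x _ => card_image_le)

theorem Rc_zero (k b : ℕ) (hk : 1 ≤ k) (hb : 0 < b) : Rc k 0 b = 0 := by
  obtain ⟨m, rfl⟩ : ∃ m, k = m + 1 := ⟨k - 1, by omega⟩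
  unfold Rc
  rw [L]
  have : nxt (m + 1) 0 b = ∅ := by
    unfold nxt
    rw [filter_eq_empty_iff]
    intro x _ h
    have := h.1
    simp at this
    omega
  rw [this]
  simp

theorem reach_pos {t i a b : ℕ} (h : Reach t i a b) : 0 < b := by
  obtain ⟨p, -, hp, hb, -⟩ := h
  rw [hb]
  exact List.prod_pos (fun x hx => hp x hx)

theorem reach_step {t j a b x : ℕ} (h : Reach t j a b) (hx : 0 < x) (hlt : b < a * x)
    (hxt : x ≤ t * U j) : Reach t (j + 1) (a * x - b) (b * x) := by
  obtain ⟨p, hl, hp, hb, ha, he, hB⟩ := h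
  refine ⟨p ++ [x], ?_, ?_, ?_, ?_, ?_, ?_⟩
  · simp [hl]
  · intro y hy
    rcases List.mem_append.1 hy with h | h
    · exact hp y h
    · rw [List.mem_singleton] at h
      rw [h]
      exact hx
  · rw [List.prod_append, hb]
    simp
  · omega
  · have hxq : (x : ℚ) ≠ 0 := by
      exact_mod_cast hx.ne'
    rw [Nat.cast_sub hlt.le, List.map_append, List.sum_append]
    push_cast
    rw [he]
    simp only [List.map_cons, List.map_nil, List.sum_cons, List.sum_nil, add_zero]
    field_simp
    ring
  · rw [prod_range_succ]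
    exact Nat.mul_le_mul hB hxt

end M_PRE

open M_PRE in
theorem t_PRE (h : S_RCH) : S_PRE := by
  intro t i F hit hF hyp
  have key : ∀ k, k ≤ i → ∀ a b : ℕ, Reach t (i - k) a b →
      (Rc (t - (i - k)) a b : ℝ) ≤ ((∏ m ∈ Ico (i - k) i, (t * U m) : ℕ) : ℝ) * F := by
    intro k
    induction k with
    | zero =>
      intro _ a b hr
      simp only [Nat.sub_zero, Ico_self, prod_empty, Nat.cast_one, one_mul] at hr ⊢
      exact hyp a b hr
    | succ k ih =>
      intro hk a b hr
      obtain ⟨j, hj⟩ : ∃ j, j = i - (k + 1) := ⟨_, rfl⟩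
      have hj1 : i - k = j + 1 := by omega
      have hji : j < i := by omega
      have ih' := ih (by omega)
      rw [hj1] at ih'
      rw [← hj] at hr ⊢
      obtain ⟨k', hk'⟩ : ∃ k', t - j = k' + 1 := ⟨t - j - 1, by omega⟩
      have hk2 : t - (j + 1) = k' := by omega
      rw [hk2] at ih'
      rw [hk']
      obtain ⟨ha, hab, hbU⟩ := h t j a b hr
      have hb : 0 < b := reach_pos hr
      set M : ℝ := ((∏ m ∈ Ico (j + 1) i, (t * U m) : ℕ) : ℝ) * F with hM
      have hM0 : 0 ≤ M := mul_nonneg (Nat.cast_nonneg _) hF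
      have hxle : ∀ x ∈ nxt (k' + 1) a b, 0 < x ∧ x ≤ t * U j := by
        intro x hx
        unfold nxt at hx
        rw [mem_filter] at hx
        obtain ⟨-, h1, h2⟩ := hx
        constructor
        · rcases Nat.eq_zero_or_pos x with h0 | h0
          · rw [h0, mul_zero] at h1
            omega
          · exact h0
        · have h3 : (k' + 1) * b ≤ t * (U j * a) :=
            Nat.mul_le_mul (by omega) hbU
          have h4 : a * x ≤ a * (t * U j) := by
            calc a * x ≤ (k' + 1) * b := h2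
              _ ≤ t * (U j * a) := h3
              _ = a * (t * U j) := by ring
          exact Nat.le_of_mul_le_mul_left h4 ha
      have hterm : ∀ x ∈ nxt (k' + 1) a b, (Rc k' (a * x - b) (b * x) : ℝ) ≤ M := by
        intro x hx
        obtain ⟨hx0, hxt⟩ := hxle x hx
        have hbx : b ≤ a * x := by
          unfold nxt at hx
          rw [mem_filter] at hx
          exact hx.2.1
        rcases hbx.eq_or_lt with he | hlt
        · rw [← he, Nat.sub_self, Rc_zero k' _ (by omega) (Nat.mul_pos hb hx0)]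
          simpa using hM0
        · exact ih' _ _ (reach_step hr hx0 hlt hxt)
      have hcard : (nxt (k' + 1) a b).card ≤ t * U j := by
        have hsub : nxt (k' + 1) a b ⊆ Icc 1 (t * U j) := by
          intro x hx
          rw [mem_Icc]
          exact hxle x hx
        calc (nxt (k' + 1) a b).card ≤ (Icc 1 (t * U j)).card := card_le_card hsub
          _ = t * U j := by rw [Nat.card_Icc]; omega
      have h1 : (Rc (k' + 1) a b : ℝ) ≤ ∑ x ∈ nxt (k' + 1) a b, (Rc k' (a * x - b) (b * x) : ℝ) := by
        exact_mod_cast Rc_succ_le k' a b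
      calc (Rc (k' + 1) a b : ℝ) ≤ ∑ x ∈ nxt (k' + 1) a b, (Rc k' (a * x - b) (b * x) : ℝ) := h1
        _ ≤ ∑ x ∈ nxt (k' + 1) a b, M := sum_le_sum hterm
        _ = ((nxt (k' + 1) a b).card : ℝ) * M := by rw [sum_const, nsmul_eq_mul]
        _ ≤ ((t * U j : ℕ) : ℝ) * M :=
          mul_le_mul_of_nonneg_right (by exact_mod_cast hcard) hM0
        _ = ((∏ m ∈ Ico j i, (t * U m) : ℕ) : ℝ) * F := by
          rw [prod_eq_prod_Ico_succ_bot hji, hM]
          push_cast
          ring
  have h0 := key i le_rfl 1 1 ?_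
  · simpa only [Nat.sub_self, Nat.sub_zero, ← range_eq_Ico] using h0
  · rw [Nat.sub_self]
    refine ⟨[], rfl, ?_, rfl, one_pos, ?_, ?_⟩
    · intro x hx
      exact absurd hx (List.not_mem_nil)
    · simp
    · simp

end Pool.Agent.UFU

end
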