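import Pool.Agent.UFU.Stmts

/-!
# RCH: what can be left after some steps is not too small

Module `UFU_RCH` (MP_dcc108_nt).
-/

set_option autoImplicit false

noncomputable section

namespace Pool.Agent.UFU

open Finset Filter Topology

theorem t_RCH (hCUR : S_CUR) : S_RCH := by
  intro t i a b hR
  obtain ⟨p, hlen, hpos, hb, ha, hab, -⟩ := hR
  have hbpos : 0 < b := by
    rw [hb]
    exact List.prod_pos fun x hx => hpos x hx
  have hbq : (0 : ℚ) < (b : ℚ) := by exact_mod_cast hbpos
  have haq : (0 : ℚ) < (a : ℚ) := by exact_mod_cast ha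
  set σ : ℚ := (p.map fun x : ℕ => (1 : ℚ) / (x : ℚ)).sum with hσ
  have hσ0 : 0 ≤ σ := by
    rw [hσ]
    refine List.sum_nonneg fun y hy => ?_
    obtain ⟨x, -, rfl⟩ := List.mem_map.1 hy
    positivity
  have hlt : σ < 1 := by
    by_contra hcon
    push Not at hcon
    have : (b : ℚ) * (1 - σ) ≤ 0 := mul_nonpos_of_nonneg_of_nonpos hbq.le (by linarith)
    linarith
  refine ⟨ha, ?_, ?_⟩
  · have : (a : ℚ) ≤ (b : ℚ) := by
      rw [hab]
      have : 0 ≤ (b : ℚ) * σ := mul_nonneg hbq.le hσ0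
      linarith
    exact_mod_cast this
  · have h1 := hCUR p hpos hlt
    rw [hlen, ← hσ] at h1
    have hUpos : (0 : ℚ) < (U i : ℚ) := by
      have hne : U i ≠ 0 := by
        unfold U
        refine Finset.prod_ne_zero_iff.2 fun j _ => ?_
        induction j with
        | zero => simp [syl]
        | succ n ih => simp [syl]
      exact_mod_cast Nat.pos_of_ne_zero hne
    have h2 : (b : ℚ) ≤ (U i : ℚ) * (a : ℚ) := by
      rw [hab]
      rw [div_le_iff₀ hUpos] at h1
      have h3 : (b : ℚ) * 1 ≤ (b : ℚ) * ((1 - σ) * (U i : ℚ)) := mul_le_mul_of_nonneg_left h1 hbq.le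
      calc (b : ℚ) = (b : ℚ) * 1 := by ring
        _ ≤ (b : ℚ) * ((1 - σ) * (U i : ℚ)) := h3
        _ = (U i : ℚ) * ((b : ℚ) * (1 - σ)) := by ring
    exact_mod_cast h2

end Pool.Agent.UFU

end
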