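import Pool.Agent.UFU.Stmts

/-!
# UFU_REC: the recursion for the number of representations (helper21)
-/

set_option autoImplicit false

namespace Pool.Agent.UFU

namespace REC21

open Finset

theorem rpow_eq (x : ℝ) (hx : 0 ≤ x) : x ^ (-(3 / 2) : ℝ) = 1 / Real.sqrt x ^ 3 := by
  rw [Real.rpow_neg hx, one_div]
  congr 1
  rw [Real.sqrt_eq_rpow, ← Real.rpow_natCast, ← Real.rpow_mul hx]
  norm_num

theorem sum_aux (n : ℕ) :
    ∑ h ∈ range (n + 2), ((h : ℕ) : ℝ) ^ (-(3 / 2) : ℝ) ≤ 3 - 2 / Real.sqrt ((n : ℝ) + 1) := by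
  induction n with
  | zero =>
    rw [sum_range_succ, sum_range_succ, sum_range_zero]
    have h0 : (((0 : ℕ) : ℝ)) ^ (-(3 / 2) : ℝ) = 0 := by
      rw [Nat.cast_zero, Real.zero_rpow (by norm_num)]
    rw [h0]
    norm_num
  | succ n ih =>
    rw [sum_range_succ]
    have hn : (0 : ℝ) ≤ (n : ℝ) := Nat.cast_nonneg n
    set u := Real.sqrt ((n : ℝ) + 1) with hu
    set v := Real.sqrt ((n : ℝ) + 2) with hv
    have hu0 : 0 < u := Real.sqrt_pos.2 (by linarith)
    have hv0 : 0 < v := Real.sqrt_pos.2 (by linarith)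
    have hu2 : u ^ 2 = (n : ℝ) + 1 := Real.sq_sqrt (by linarith)
    have hv2 : v ^ 2 = (n : ℝ) + 2 := Real.sq_sqrt (by linarith)
    have huv : u ≤ v := Real.sqrt_le_sqrt (by linarith)
    have e1 : (((n + 2 : ℕ) : ℝ)) ^ (-(3 / 2) : ℝ) = 1 / v ^ 3 := by
      rw [rpow_eq _ (Nat.cast_nonneg _)]
      have : (((n + 2 : ℕ) : ℝ)) = (n : ℝ) + 2 := by push_cast; ring
      rw [this]
    have e2 : Real.sqrt (((n + 1 : ℕ) : ℝ) + 1) = v := by
      have : (((n + 1 : ℕ) : ℝ)) + 1 = (n : ℝ) + 2 := by push_cast; ring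
      rw [this]
    have e3 : n + 1 + 1 = n + 2 := rfl
    rw [e3, e1, e2]
    have key : 1 / v ^ 3 ≤ 2 / u - 2 / v := by
      have hd : 2 / u - 2 / v = 2 / (u * v * (u + v)) := by
        have h1 : (v - u) * (u + v) = 1 := by nlinarith
        have h2 : u + v ≠ 0 := by positivity
        field_simp
        linarith
      rw [hd, div_le_div_iff₀ (by positivity) (by positivity)]
      have h3 : u * v * (u + v) ≤ v * v * (v + v) := by
        apply mul_le_mul (mul_le_mul huv le_rfl hv0.le hv0.le) (by linarith) (by positivity)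
          (by positivity)
      nlinarith
    linarith

theorem sum_le (n : ℕ) : ∑ h ∈ range n, ((h : ℕ) : ℝ) ^ (-(3 / 2) : ℝ) ≤ 3 := by
  have h1 : ∑ h ∈ range n, ((h : ℕ) : ℝ) ^ (-(3 / 2) : ℝ) ≤
      ∑ h ∈ range (n + 2), ((h : ℕ) : ℝ) ^ (-(3 / 2) : ℝ) := by
    apply sum_le_sum_of_subset_of_nonneg
    · intro x hx
      rw [mem_range] at hx ⊢
      omega
    · intro i _ _
      exact Real.rpow_nonneg (Nat.cast_nonneg i) _
  have h2 := sum_aux n
  have h3 : 0 ≤ 2 / Real.sqrt ((n : ℝ) + 1) := by positivity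
  linarith

theorem Rc_zero (k b : ℕ) (hb : 0 < b) : Rc (k + 1) 0 b = 0 := by
  unfold Rc
  rw [card_eq_zero, L]
  have : nxt (k + 1) 0 b = ∅ := by
    unfold nxt
    rw [filter_eq_empty_iff]
    intro x _ h
    omega
  rw [this]
  rfl

theorem Rc_succ_le (k a b : ℕ) :
    Rc (k + 1) a b ≤ ∑ x ∈ nxt (k + 1) a b, Rc k (a * x - b) (b * x) := by
  unfold Rc
  rw [L]
  refine card_biUnion_le.trans (sum_le_sum fun x _ => card_image_le)

end REC21

open Finset REC21 in
theorem t_REC : S_REC := by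
  intro E C hE hC hbase s
  induction s with
  | zero =>
    intro t ht a b ha hab
    have h1 := hbase a b ha hab
    have ht1 : (1 : ℝ) ≤ (t : ℝ) := by
      exact_mod_cast (by omega : 1 ≤ t)
    have h2 : (1 : ℝ) ≤ (t : ℝ) ^ (2 * E * 2 ^ 0) := by
      apply Real.one_le_rpow ht1
      have : (0 : ℝ) ≤ E := by linarith
      positivity
    have h3 : 0 ≤ C * ((b : ℝ) ^ 2 / (a : ℝ)) ^ E := by
      apply mul_nonneg (by linarith)
      exact Real.rpow_nonneg (by positivity) _
    have e : C * 3 ^ 0 * (t : ℝ) ^ (2 * E * 2 ^ 0) * ((b : ℝ) ^ 2 / (a : ℝ)) ^ (E * 2 ^ 0) =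
        (t : ℝ) ^ (2 * E * 2 ^ 0) * (C * ((b : ℝ) ^ 2 / (a : ℝ)) ^ E) := by
      rw [pow_zero, pow_zero, mul_one E]
      ring
    rw [e]
    have h4 : 1 * (C * ((b : ℝ) ^ 2 / (a : ℝ)) ^ E) ≤
        (t : ℝ) ^ (2 * E * 2 ^ 0) * (C * ((b : ℝ) ^ 2 / (a : ℝ)) ^ E) :=
      mul_le_mul_of_nonneg_right h2 h3
    have e5 : 5 + 0 = 5 := rfl
    rw [e5]
    linarith
  | succ s ih =>
    intro t ht a b ha hab
    have hb : 0 < b := by omega
    have ha' : (0 : ℝ) < (a : ℝ) := by exact_mod_cast ha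
    have hb' : (0 : ℝ) < (b : ℝ) := by exact_mod_cast hb
    have ht0 : (0 : ℝ) < (t : ℝ) := by exact_mod_cast (by omega : 0 < t)
    set P : ℝ := E * 2 ^ s with hP
    have hP1 : 3 / 2 ≤ P := by
      have h2 : (1 : ℝ) ≤ 2 ^ s := one_le_pow₀ (by norm_num)
      nlinarith
    set G : ℝ := (b : ℝ) ^ 2 / (a : ℝ) with hG
    have hG0 : 0 < G := by positivity
    set A : ℝ := C * 3 ^ s * ((t : ℝ) ^ (2 * P) * (t : ℝ) ^ (2 * P)) * G ^ (2 * P) with hA
    have hA0 : 0 ≤ A := by
      have h1 : 0 ≤ C := by linarith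
      have h2 := Real.rpow_nonneg ht0.le (2 * P)
      have h3 := Real.rpow_nonneg hG0.le (2 * P)
      positivity
    have goal_eq : C * 3 ^ (s + 1) * (t : ℝ) ^ (2 * E * 2 ^ (s + 1)) * G ^ (E * 2 ^ (s + 1)) =
        3 * A := by
      have e1 : 2 * E * 2 ^ (s + 1) = 2 * P + 2 * P := by rw [hP, pow_succ]; ring
      have e2 : E * 2 ^ (s + 1) = 2 * P := by rw [hP, pow_succ]; ring
      rw [e1, e2, Real.rpow_add ht0, hA, pow_succ]
      ring
    rw [goal_eq]
    -- the terms
    have term : ∀ x ∈ nxt (5 + s + 1) a b,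
        (Rc (5 + s) (a * x - b) (b * x) : ℝ) ≤ A * (((a * x - b : ℕ) : ℝ)) ^ (-(3 / 2) : ℝ) := by
      intro x hx
      unfold nxt at hx
      rw [mem_filter] at hx
      obtain ⟨_, hx1, hx2⟩ := hx
      have hx0 : 0 < x := by
        rcases Nat.eq_zero_or_pos x with h | h
        · rw [h] at hx1; omega
        · exact h
      have hbx : 0 < b * x := Nat.mul_pos hb hx0
      rcases Nat.eq_zero_or_pos (a * x - b) with h0 | h0
      · rw [h0]
        have : Rc (5 + s) 0 (b * x) = 0 := by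
          have e : 5 + s = (4 + s) + 1 := by omega
          rw [e]
          exact Rc_zero _ _ hbx
        rw [this, Nat.cast_zero, Real.zero_rpow (by norm_num), mul_zero]
      · have hle : a * x - b ≤ b * x := by
          have : a * x ≤ b * x := Nat.mul_le_mul_right x hab
          omega
        have h1 := ih t (by omega) (a * x - b) (b * x) h0 hle
        set h : ℝ := ((a * x - b : ℕ) : ℝ) with hh
        have hh1 : (1 : ℝ) ≤ h := by
          rw [hh]; exact_mod_cast h0
        have hhp : 0 < h := by linarith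
        have hxr : (a : ℝ) * (x : ℝ) ≤ (t : ℝ) * (b : ℝ) := by
          have h2 : a * x ≤ t * b := hx2.trans (Nat.mul_le_mul_right b (by omega))
          exact_mod_cast h2
        have hq : (((b * x : ℕ) : ℝ)) ^ 2 / h ≤ (t : ℝ) ^ 2 * G ^ 2 * h⁻¹ := by
          rw [div_eq_mul_inv]
          apply mul_le_mul_of_nonneg_right _ (inv_nonneg.2 hhp.le)
          rw [hG, div_pow, mul_div_assoc', le_div_iff₀ (by positivity)]
          push_cast
          have h3 : (b * x * a : ℝ) ≤ (t : ℝ) * (b : ℝ) ^ 2 := by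
            have := mul_le_mul_of_nonneg_left hxr hb'.le
            nlinarith
          have h4 : (0 : ℝ) ≤ b * x * a := by positivity
          have h5 := mul_le_mul h3 h3 h4 (by positivity)
          nlinarith
        have hq0 : 0 ≤ (((b * x : ℕ) : ℝ)) ^ 2 / h := by positivity
        have h6 : ((((b * x : ℕ) : ℝ)) ^ 2 / h) ^ P ≤ ((t : ℝ) ^ 2 * G ^ 2 * h⁻¹) ^ P :=
          Real.rpow_le_rpow hq0 hq (by linarith)
        have h7 : ((t : ℝ) ^ 2 * G ^ 2 * h⁻¹) ^ P =
            (t : ℝ) ^ (2 * P) * G ^ (2 * P) * h ^ (-P) := by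
          rw [Real.mul_rpow (by positivity) (by positivity), Real.mul_rpow (by positivity)
            (by positivity), Real.inv_rpow hhp.le, Real.rpow_neg hhp.le]
          have e1 : ((t : ℝ) ^ 2) ^ P = (t : ℝ) ^ (2 * P) := by
            rw [Real.rpow_mul ht0.le]
            norm_num
          have e2 : (G ^ 2) ^ P = G ^ (2 * P) := by
            rw [Real.rpow_mul hG0.le]
            norm_num
          rw [e1, e2]
        have h8 : h ^ (-P) ≤ h ^ (-(3 / 2) : ℝ) :=
          Real.rpow_le_rpow_of_exponent_le hh1 (by linarith)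
        have hC0 : 0 ≤ C * 3 ^ s * (t : ℝ) ^ (2 * P) := by
          have h9 : 0 ≤ C := by linarith
          have := Real.rpow_nonneg ht0.le (2 * P)
          positivity
        have e3 : 2 * E * 2 ^ s = 2 * P := by rw [hP]; ring
        rw [e3] at h1
        calc (Rc (5 + s) (a * x - b) (b * x) : ℝ)
            ≤ C * 3 ^ s * (t : ℝ) ^ (2 * P) * ((((b * x : ℕ) : ℝ)) ^ 2 / h) ^ P := h1
          _ ≤ C * 3 ^ s * (t : ℝ) ^ (2 * P) * ((t : ℝ) ^ (2 * P) * G ^ (2 * P) * h ^ (-P)) := by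
              apply mul_le_mul_of_nonneg_left _ hC0
              rw [← h7]
              exact h6
          _ ≤ C * 3 ^ s * (t : ℝ) ^ (2 * P) *
              ((t : ℝ) ^ (2 * P) * G ^ (2 * P) * h ^ (-(3 / 2) : ℝ)) := by
              apply mul_le_mul_of_nonneg_left _ hC0
              apply mul_le_mul_of_nonneg_left h8
              have h2 := Real.rpow_nonneg ht0.le (2 * P)
              have h3 := Real.rpow_nonneg hG0.le (2 * P)
              positivity
          _ = A * h ^ (-(3 / 2) : ℝ) := by rw [hA]; ring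
    -- the sum
    have hinj : Set.InjOn (fun x => a * x - b) (nxt (5 + s + 1) a b : Set ℕ) := by
      intro x hx y hy hxy
      rw [mem_coe] at hx hy
      unfold nxt at hx hy
      rw [mem_filter] at hx hy
      have h1 := hx.2.1
      have h2 := hy.2.1
      have h3 : a * x = a * y := by
        have : a * x - b = a * y - b := hxy
        omega
      exact Nat.eq_of_mul_eq_mul_left ha h3
    have hsum : ∑ x ∈ nxt (5 + s + 1) a b, (((a * x - b : ℕ) : ℝ)) ^ (-(3 / 2) : ℝ) ≤ 3 := by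
      have e1 : ∑ x ∈ nxt (5 + s + 1) a b, (((a * x - b : ℕ) : ℝ)) ^ (-(3 / 2) : ℝ) =
          ∑ h ∈ (nxt (5 + s + 1) a b).image (fun x => a * x - b), ((h : ℕ) : ℝ) ^ (-(3 / 2) : ℝ) := by
        rw [sum_image hinj]
      rw [e1]
      refine le_trans ?_ (sum_le ((5 + s + 1) * b + 1))
      apply sum_le_sum_of_subset_of_nonneg
      · intro y hy
        rw [mem_image] at hy
        obtain ⟨x, hx, rfl⟩ := hy
        unfold nxt at hx
        rw [mem_filter] at hx
        rw [mem_range]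
        have := hx.2.2
        omega
      · intro i _ _
        exact Real.rpow_nonneg (Nat.cast_nonneg i) _
    have h1 : (Rc (5 + (s + 1)) a b : ℝ) ≤
        ∑ x ∈ nxt (5 + s + 1) a b, (Rc (5 + s) (a * x - b) (b * x) : ℝ) := by
      have := Rc_succ_le (5 + s) a b
      have e : 5 + (s + 1) = 5 + s + 1 := by omega
      rw [e]
      exact_mod_cast this
    calc (Rc (5 + (s + 1)) a b : ℝ)
        ≤ ∑ x ∈ nxt (5 + s + 1) a b, (Rc (5 + s) (a * x - b) (b * x) : ℝ) := h1
      _ ≤ ∑ x ∈ nxt (5 + s + 1) a b, A * (((a * x - b : ℕ) : ℝ)) ^ (-(3 / 2) : ℝ) :=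
          sum_le_sum term
      _ = A * ∑ x ∈ nxt (5 + s + 1) a b, (((a * x - b : ℕ) : ℝ)) ^ (-(3 / 2) : ℝ) := by
          rw [mul_sum]
      _ ≤ A * 3 := mul_le_mul_of_nonneg_left hsum hA0
      _ = 3 * A := by ring

end Pool.Agent.UFU
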