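import Pool.Agent.UFU.Stmts

/-!
# The constant of Sylvester's sequence (module UFU_SYL)
-/

set_option autoImplicit false

namespace Pool.Agent.UFU

open Finset Filter Topology

theorem syl_two_le (n : ℕ) : 2 ≤ syl n := by
  induction n with
  | zero => exact le_rfl
  | succ n ih =>
    have h : syl (n + 1) = syl n ^ 2 - syl n + 1 := rfl
    rw [h]
    have h2 : 2 * syl n ≤ syl n ^ 2 := by
      rw [pow_two]
      exact Nat.mul_le_mul_right _ ih
    omega

theorem syl_succ_cast (n : ℕ) : (syl (n + 1) : ℝ) = (syl n : ℝ) ^ 2 - syl n + 1 := by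
  have h : syl (n + 1) = syl n ^ 2 - syl n + 1 := rfl
  have h2 : syl n ≤ syl n ^ 2 := Nat.le_self_pow two_ne_zero _
  rw [h]
  push_cast [Nat.cast_sub h2]
  ring

theorem U_cast (n : ℕ) : (U n : ℝ) = (syl n : ℝ) - 1 := by
  induction n with
  | zero =>
    simp [U, syl]
    norm_num
  | succ n ih =>
    have h : U (n + 1) = U n * syl n := by
      unfold U
      rw [prod_range_succ]
    rw [h, syl_succ_cast]
    push_cast
    rw [ih]
    ring

theorem t_SYL : S_SYL := by
  have hs : ∀ n, (2 : ℝ) ≤ syl n := fun n => by exact_mod_cast syl_two_le n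
  set f : ℕ → ℝ := fun n => (syl n : ℝ) ^ ((1 : ℝ) / 2 ^ (n + 1)) with hf
  set g : ℕ → ℝ := fun n => (U n : ℝ) ^ ((1 : ℝ) / 2 ^ (n + 1)) with hg
  have hU1 : ∀ n, (1 : ℝ) ≤ U n := fun n => by
    rw [U_cast]
    linarith [hs n]
  have hfa : Antitone f := by
    refine antitone_nat_of_succ_le fun n => ?_
    have h1 : (syl (n + 1) : ℝ) ≤ (syl n : ℝ) ^ 2 := by
      rw [syl_succ_cast]
      linarith [hs n]
    calc f (n + 1) ≤ ((syl n : ℝ) ^ 2) ^ ((1 : ℝ) / 2 ^ (n + 1 + 1)) :=
          Real.rpow_le_rpow (by linarith [hs (n + 1)]) h1 (by positivity)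
      _ = f n := by
          rw [hf]
          simp only
          rw [← Real.rpow_natCast (syl n : ℝ) 2, ← Real.rpow_mul (by linarith [hs n])]
          congr 1
          rw [pow_succ (2 : ℝ) (n + 1)]
          push_cast
          field_simp
  have hgm : Monotone g := by
    refine monotone_nat_of_le_succ fun n => ?_
    have h1 : (U n : ℝ) ^ 2 ≤ (U (n + 1) : ℝ) := by
      rw [U_cast, U_cast, syl_succ_cast]
      nlinarith [hs n]
    calc g n = ((U n : ℝ) ^ 2) ^ ((1 : ℝ) / 2 ^ (n + 1 + 1)) := by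
          rw [hg]
          simp only
          rw [← Real.rpow_natCast (U n : ℝ) 2, ← Real.rpow_mul (by linarith [hU1 n])]
          congr 1
          rw [pow_succ (2 : ℝ) (n + 1)]
          push_cast
          field_simp
      _ ≤ g (n + 1) := Real.rpow_le_rpow (by positivity) h1 (by positivity)
  have hf1 : ∀ n, 1 ≤ f n := fun n => Real.one_le_rpow (by linarith [hs n]) (by positivity)
  have hgf : ∀ n, g n ≤ f n := fun n => by
    refine Real.rpow_le_rpow (by linarith [hU1 n]) ?_ (by positivity)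
    rw [U_cast]
    linarith
  have hlim : Tendsto f atTop (𝓝 (⨅ n, f n)) :=
    tendsto_atTop_ciInf hfa ⟨1, by
      rintro _ ⟨n, rfl⟩
      exact hf1 n⟩
  have hgc : ∀ i, g i ≤ ⨅ n, f n := fun i =>
    ge_of_tendsto hlim (eventually_atTop.2 ⟨i, fun n hn => (hgm hn).trans (hgf n)⟩)
  have hc0 : (1 : ℝ) ≤ ⨅ n, f n := ge_of_tendsto' hlim hf1
  have hUc : ∀ i : ℕ, (U i : ℝ) ≤ (⨅ n, f n) ^ (2 ^ (i + 1)) := by
    intro i
    have h1 : (U i : ℝ) = (g i) ^ (2 ^ (i + 1)) := by
      rw [hg]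
      simp only
      rw [← Real.rpow_natCast, ← Real.rpow_mul (by linarith [hU1 i])]
      push_cast
      rw [one_div, inv_mul_cancel₀ (by positivity), Real.rpow_one]
    rw [h1]
    exact pow_le_pow_left₀ (by
      rw [hg]
      exact Real.rpow_nonneg (by linarith [hU1 i]) _) (hgc i) _
  refine ⟨⨅ n, f n, lt_of_le_of_ne hc0 fun h => ?_, hlim, hUc⟩
  have h1 := hUc 1
  rw [← h, one_pow, U_cast] at h1
  have h2 : (syl 1 : ℝ) = 3 := by
    have : syl 1 = 3 := rfl
    rw [this]
    norm_num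
  rw [h2] at h1
  norm_num at h1

end Pool.Agent.UFU
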