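import Mathlib

/-!
# Upper bounds for the number of representations of 1 as a sum of t unit fractions

Definitions for the modules `UFU_*` (MP_dcc108_nt).  Every statement is about natural numbers; `a / b` is
the number still to be represented.
-/

set_option autoImplicit false

noncomputable section

namespace Pool.Agent.UFU

open Finset

/-- Sylvester's sequence 2, 3, 7, 43, 1807, … -/
def syl : ℕ → ℕ
  | 0 => 2
  | n + 1 => syl n ^ 2 - syl n + 1

/-- The product of the first `i` Sylvester numbers: 1, 2, 6, 42, 1806, … -/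
def U (i : ℕ) : ℕ := ∏ j ∈ range i, syl j

/-- The admissible next denominators, when `k` more terms are needed for `a / b`:
`b ≤ a x ≤ k b`. -/
def nxt (k a b : ℕ) : Finset ℕ := (range (k * b + 1)).filter fun x => b ≤ a * x ∧ a * x ≤ k * b

/-- The lists `[x_1, …, x_k]` with `1/x_1 + … + 1/x_k = a/b`, in which every entry is at most (number of the
remaining terms) / (what remains); all nondecreasing representations are among them. -/
def L : ℕ → ℕ → ℕ → Finset (List ℕ)
  | 0, a, _ => if a = 0 then {[]} else ∅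
  | k + 1, a, b => (nxt (k + 1) a b).biUnion fun x =>
      (L k (a * x - b) (b * x)).image (fun l => x :: l)

/-- The number of these lists. -/
def Rc (k a b : ℕ) : ℕ := (L k a b).card

/-- The data of one element of `L 5 a b`: denominators `x0, …, x4`, and the numerators `h0, …, h3` of what
remains after `x0, …, x3`: `h0 / (b x0)`, `h1 / (b x0 x1)`, `h2 / (b x0 x1 x2)`, `h3 / (b x0 x1 x2 x3)`. -/
structure Good (a b x0 h0 x1 h1 x2 h2 x3 h3 x4 : ℕ) : Prop where
  p0 : 0 < h0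
  p1 : 0 < h1
  p2 : 0 < h2
  p3 : 0 < h3
  e0 : a * x0 = b + h0
  e1 : h0 * x1 = b * x0 + h1
  e2 : h1 * x2 = b * x0 * x1 + h2
  e3 : h2 * x3 = b * x0 * x1 * x2 + h3
  e4 : h3 * x4 = b * x0 * x1 * x2 * x3
  u0 : a * x0 ≤ 5 * b
  u1 : h0 * x1 ≤ 4 * (b * x0)
  u2 : h1 * x2 ≤ 3 * (b * x0 * x1)
  u3 : h2 * x3 ≤ 2 * (b * x0 * x1 * x2)

/-- The nineteen numbers of a relative gcd decomposition of `x1, …, x4` with respect to `n`. -/
structure Dc where
  (n1 n2 n3 n4 c1 c2 c3 c4 d12 d13 d14 d23 d24 d34 d123 d124 d134 d234 d1234 : ℕ)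

/-- `D` is a decomposition of the solution `h / n = 1/x1 + 1/x2 + 1/x3 + 1/x4`: `xi = ni ti` with `ni ∣ n`
(`ni ci = n`), and `ti` is the product of the `dI` with `i ∈ I`. -/
structure IsDec (h n x1 x2 x3 x4 : ℕ) (D : Dc) : Prop where
  q1 : D.n1 * D.c1 = n
  q2 : D.n2 * D.c2 = n
  q3 : D.n3 * D.c3 = n
  q4 : D.n4 * D.c4 = n
  z1 : x1 = D.n1 * (D.d12 * D.d13 * D.d14 * D.d123 * D.d124 * D.d134 * D.d1234)
  z2 : x2 = D.n2 * (D.d12 * D.d23 * D.d24 * D.d123 * D.d124 * D.d234 * D.d1234)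
  z3 : x3 = D.n3 * (D.d13 * D.d23 * D.d34 * D.d123 * D.d134 * D.d234 * D.d1234)
  z4 : x4 = D.n4 * (D.d14 * D.d24 * D.d34 * D.d124 * D.d134 * D.d234 * D.d1234)
  cop : Nat.Coprime D.d14 D.d23
  eqn : h * (D.d12 * D.d13 * D.d14 * D.d23 * D.d24 * D.d34 * D.d123 * D.d124 * D.d134 * D.d234 * D.d1234) =
    D.c1 * (D.d23 * D.d24 * D.d34 * D.d234) + D.c2 * (D.d13 * D.d14 * D.d34 * D.d134) +
    D.c3 * (D.d12 * D.d14 * D.d24 * D.d124) + D.c4 * (D.d12 * D.d13 * D.d23 * D.d123)

/-- The product of the parameters which, together with `h0`, are known in the first class. -/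
def Dc.W (D : Dc) : ℕ := D.d12 * D.d13 * D.d24 * D.d34 * D.d123 * D.d124 * D.d134 * D.d1234

/-- `T` bounds the number of divisors of all numbers up to `(2 X) ^ 8`. -/
def TauB (X T : ℕ) : Prop := ∀ m : ℕ, 0 < m → m ≤ (2 * X) ^ 8 → m.divisors.card ≤ T

/-- The ordered representations of 1 as a sum of `t` unit fractions. -/
def Sol (t : ℕ) : Set (Fin t → ℕ) := {x | (∀ i, 0 < x i) ∧ ∑ i, (1 : ℚ) / (x i : ℚ) = 1}

/-- Their number. -/
def N (t : ℕ) : ℕ := (Sol t).ncard

/-- What can be left after `i` steps from `1 / 1`, with total number `t` of terms: `a / b = 1 - Σ_{x ∈ p} 1/x`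
for a list `p` of `i` positive integers with product `b`, and `b ≤ ∏_{j < i} t U_j`. -/
def Reach (t i a b : ℕ) : Prop :=
  ∃ p : List ℕ, p.length = i ∧ (∀ x ∈ p, 0 < x) ∧ b = p.prod ∧ 0 < a ∧
    (a : ℚ) = (b : ℚ) * (1 - (p.map fun x : ℕ => (1 : ℚ) / (x : ℚ)).sum) ∧
    b ≤ ∏ j ∈ range i, (t * U j)

end Pool.Agent.UFU

end
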