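import Pool.Agent.UFU.Stmts

/-!
# Module UFU_REL: relative gcd decomposition of four numbers
-/

set_option autoImplicit false

noncomputable section

namespace Pool.Agent.UFU

open Finset

namespace RELm

/-- The number with a given exponent function. -/
def mk (f : ℕ →₀ ℕ) : ℕ := f.prod fun p k => p ^ k

theorem fact_mk {f : ℕ →₀ ℕ} (hf : ∀ p, f p ≠ 0 → p.Prime) : (mk f).factorization = f := by
  unfold mk
  exact Nat.prod_pow_factorization_eq_self fun p hp => hf p (Finsupp.mem_support_iff.1 hp)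

theorem mk_ne {f : ℕ →₀ ℕ} (hf : ∀ p, f p ≠ 0 → p.Prime) : mk f ≠ 0 := by
  unfold mk
  rw [Finsupp.prod]
  exact Finset.prod_ne_zero_iff.2 fun p hp =>
    pow_ne_zero _ (hf p (Finsupp.mem_support_iff.1 hp)).ne_zero

theorem fact_mul7 {a b c d e f g : ℕ} (ha : a ≠ 0) (hb : b ≠ 0) (hc : c ≠ 0) (hd : d ≠ 0)
    (he : e ≠ 0) (hf : f ≠ 0) (hg : g ≠ 0) (p : ℕ) :
    (a * b * c * d * e * f * g).factorization p = a.factorization p + b.factorization p
      + c.factorization p + d.factorization p + e.factorization p + f.factorization p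
      + g.factorization p := by
  rw [Nat.factorization_mul (by positivity) hg, Nat.factorization_mul (by positivity) hf,
    Nat.factorization_mul (by positivity) he, Nat.factorization_mul (by positivity) hd,
    Nat.factorization_mul (by positivity) hc, Nat.factorization_mul ha hb]
  simp only [Finsupp.add_apply]

theorem dvd_le {a b c d : ℕ} (ha : a ≠ 0) (hb : b ≠ 0) (hc : c ≠ 0) (hd : d ≠ 0)
    (h : a ∣ (b.lcm c).lcm d) (p : ℕ) :
    a.factorization p ≤ max (max (b.factorization p) (c.factorization p)) (d.factorization p) := by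
  have hl : b.lcm c ≠ 0 := Nat.lcm_ne_zero hb hc
  have h1 := (Nat.factorization_le_iff_dvd ha (Nat.lcm_ne_zero hl hd)).2 h p
  rw [Nat.factorization_lcm hl hd, Nat.factorization_lcm hb hc] at h1
  simpa using h1

theorem key (a b c d : ℕ) (h1 : a ≤ max (max b c) d) (h2 : b ≤ max (max a c) d)
    (h3 : c ≤ max (max a b) d) (h4 : d ≤ max (max a b) c) :
    a = (min a b - max c d) + (min a c - max b d) + (min a d - max b c)
      + (min (min a b) c - d) + (min (min a b) d - c) + (min (min a c) d - b)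
      + min (min (min a b) c) d := by
  rcases le_total a b with h5 | h5 <;> rcases le_total a c with h6 | h6 <;>
    rcases le_total a d with h7 | h7 <;> rcases le_total b c with h8 | h8 <;>
    rcases le_total b d with h9 | h9 <;> rcases le_total c d with h10 | h10 <;>
    simp only [min_eq_left, min_eq_right, max_eq_left, max_eq_right, h5, h6, h7, h8, h9, h10]
      at h1 h2 h3 h4 ⊢ <;> omega

end RELm

open RELm in
theorem t_REL : S_REL := by
  intro t1 t2 t3 t4 p1 p2 p3 p4 h1 h2 h3 h4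
  have n1 := p1.ne'
  have n2 := p2.ne'
  have n3 := p3.ne'
  have n4 := p4.ne'
  obtain ⟨v1, hv1⟩ : ∃ v, v = t1.factorization := ⟨_, rfl⟩
  obtain ⟨v2, hv2⟩ : ∃ v, v = t2.factorization := ⟨_, rfl⟩
  obtain ⟨v3, hv3⟩ : ∃ v, v = t3.factorization := ⟨_, rfl⟩
  obtain ⟨v4, hv4⟩ : ∃ v, v = t4.factorization := ⟨_, rfl⟩
  have pr : ∀ (v : ℕ →₀ ℕ) (t : ℕ), v = t.factorization → ∀ p, v p ≠ 0 → p.Prime := by
    intro v t hv p hp
    rw [hv] at hp
    by_contra hn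
    exact hp (Nat.factorization_eq_zero_of_not_prime t hn)
  have pr1 := pr v1 t1 hv1
  have pr2 := pr v2 t2 hv2
  have pr3 := pr v3 t3 hv3
  have pr4 := pr v4 t4 hv4
  have l1 : ∀ p, v1 p ≤ max (max (v2 p) (v3 p)) (v4 p) := fun p => by
    rw [hv1, hv2, hv3, hv4]
    exact dvd_le n1 n2 n3 n4 h1 p
  have l2 : ∀ p, v2 p ≤ max (max (v1 p) (v3 p)) (v4 p) := fun p => by
    rw [hv1, hv2, hv3, hv4]
    exact dvd_le n2 n1 n3 n4 h2 p
  have l3 : ∀ p, v3 p ≤ max (max (v1 p) (v2 p)) (v4 p) := fun p => by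
    rw [hv1, hv2, hv3, hv4]
    exact dvd_le n3 n1 n2 n4 h3 p
  have l4 : ∀ p, v4 p ≤ max (max (v1 p) (v2 p)) (v3 p) := fun p => by
    rw [hv1, hv2, hv3, hv4]
    exact dvd_le n4 n1 n2 n3 h4 p
  -- the exponents
  obtain ⟨e12, h12⟩ : ∃ e : ℕ →₀ ℕ, ∀ p, e p = min (v1 p) (v2 p) - max (v3 p) (v4 p) :=
    ⟨(v1 ⊓ v2) - (v3 ⊔ v4), fun p => by simp⟩
  obtain ⟨e13, h13⟩ : ∃ e : ℕ →₀ ℕ, ∀ p, e p = min (v1 p) (v3 p) - max (v2 p) (v4 p) :=
    ⟨(v1 ⊓ v3) - (v2 ⊔ v4), fun p => by simp⟩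
  obtain ⟨e14, h14⟩ : ∃ e : ℕ →₀ ℕ, ∀ p, e p = min (v1 p) (v4 p) - max (v2 p) (v3 p) :=
    ⟨(v1 ⊓ v4) - (v2 ⊔ v3), fun p => by simp⟩
  obtain ⟨e23, h23⟩ : ∃ e : ℕ →₀ ℕ, ∀ p, e p = min (v2 p) (v3 p) - max (v1 p) (v4 p) :=
    ⟨(v2 ⊓ v3) - (v1 ⊔ v4), fun p => by simp⟩
  obtain ⟨e24, h24⟩ : ∃ e : ℕ →₀ ℕ, ∀ p, e p = min (v2 p) (v4 p) - max (v1 p) (v3 p) :=
    ⟨(v2 ⊓ v4) - (v1 ⊔ v3), fun p => by simp⟩
  obtain ⟨e34, h34⟩ : ∃ e : ℕ →₀ ℕ, ∀ p, e p = min (v3 p) (v4 p) - max (v1 p) (v2 p) :=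
    ⟨(v3 ⊓ v4) - (v1 ⊔ v2), fun p => by simp⟩
  obtain ⟨e123, h123⟩ : ∃ e : ℕ →₀ ℕ, ∀ p, e p = min (min (v1 p) (v2 p)) (v3 p) - v4 p :=
    ⟨(v1 ⊓ v2 ⊓ v3) - v4, fun p => by simp⟩
  obtain ⟨e124, h124⟩ : ∃ e : ℕ →₀ ℕ, ∀ p, e p = min (min (v1 p) (v2 p)) (v4 p) - v3 p :=
    ⟨(v1 ⊓ v2 ⊓ v4) - v3, fun p => by simp⟩
  obtain ⟨e134, h134⟩ : ∃ e : ℕ →₀ ℕ, ∀ p, e p = min (min (v1 p) (v3 p)) (v4 p) - v2 p :=
    ⟨(v1 ⊓ v3 ⊓ v4) - v2, fun p => by simp⟩
  obtain ⟨e234, h234⟩ : ∃ e : ℕ →₀ ℕ, ∀ p, e p = min (min (v2 p) (v3 p)) (v4 p) - v1 p :=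
    ⟨(v2 ⊓ v3 ⊓ v4) - v1, fun p => by simp⟩
  obtain ⟨e1234, h1234⟩ : ∃ e : ℕ →₀ ℕ, ∀ p, e p = min (min (min (v1 p) (v2 p)) (v3 p)) (v4 p) :=
    ⟨v1 ⊓ v2 ⊓ v3 ⊓ v4, fun p => by simp⟩
  have q12 : ∀ p, e12 p ≠ 0 → p.Prime := fun p hp => pr1 p (by rw [h12] at hp; omega)
  have q13 : ∀ p, e13 p ≠ 0 → p.Prime := fun p hp => pr1 p (by rw [h13] at hp; omega)
  have q14 : ∀ p, e14 p ≠ 0 → p.Prime := fun p hp => pr1 p (by rw [h14] at hp; omega)
  have q23 : ∀ p, e23 p ≠ 0 → p.Prime := fun p hp => pr2 p (by rw [h23] at hp; omega)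
  have q24 : ∀ p, e24 p ≠ 0 → p.Prime := fun p hp => pr2 p (by rw [h24] at hp; omega)
  have q34 : ∀ p, e34 p ≠ 0 → p.Prime := fun p hp => pr3 p (by rw [h34] at hp; omega)
  have q123 : ∀ p, e123 p ≠ 0 → p.Prime := fun p hp => pr1 p (by rw [h123] at hp; omega)
  have q124 : ∀ p, e124 p ≠ 0 → p.Prime := fun p hp => pr1 p (by rw [h124] at hp; omega)
  have q134 : ∀ p, e134 p ≠ 0 → p.Prime := fun p hp => pr1 p (by rw [h134] at hp; omega)
  have q234 : ∀ p, e234 p ≠ 0 → p.Prime := fun p hp => pr2 p (by rw [h234] at hp; omega)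
  have q1234 : ∀ p, e1234 p ≠ 0 → p.Prime := fun p hp => pr1 p (by rw [h1234] at hp; omega)
  have m12 := mk_ne q12
  have m13 := mk_ne q13
  have m14 := mk_ne q14
  have m23 := mk_ne q23
  have m24 := mk_ne q24
  have m34 := mk_ne q34
  have m123 := mk_ne q123
  have m124 := mk_ne q124
  have m134 := mk_ne q134
  have m234 := mk_ne q234
  have m1234 := mk_ne q1234
  refine ⟨mk e12, mk e13, mk e14, mk e23, mk e24, mk e34, mk e123, mk e124, mk e134, mk e234,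
    mk e1234, ?_, ?_, ?_, ?_, ?_⟩
  · refine Nat.eq_of_factorization_eq n1 (by positivity) fun p => ?_
    rw [fact_mul7 m12 m13 m14 m123 m124 m134 m1234, fact_mk q12, fact_mk q13, fact_mk q14,
      fact_mk q123, fact_mk q124, fact_mk q134, fact_mk q1234, ← hv1, h12, h13, h14, h123, h124,
      h134, h1234]
    exact key _ _ _ _ (l1 p) (l2 p) (l3 p) (l4 p)
  · refine Nat.eq_of_factorization_eq n2 (by positivity) fun p => ?_
    rw [fact_mul7 m12 m23 m24 m123 m124 m234 m1234, fact_mk q12, fact_mk q23, fact_mk q24,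
      fact_mk q123, fact_mk q124, fact_mk q234, fact_mk q1234, ← hv2, h12, h23, h24, h123, h124,
      h234, h1234]
    have hk := key (v2 p) (v1 p) (v3 p) (v4 p) (l2 p) (l1 p)
      (by have := l3 p; omega) (by have := l4 p; omega)
    rw [min_comm (v2 p) (v1 p)] at hk
    exact hk
  · refine Nat.eq_of_factorization_eq n3 (by positivity) fun p => ?_
    rw [fact_mul7 m13 m23 m34 m123 m134 m234 m1234, fact_mk q13, fact_mk q23, fact_mk q34,
      fact_mk q123, fact_mk q134, fact_mk q234, fact_mk q1234, ← hv3, h13, h23, h34, h123, h134,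
      h234, h1234]
    have hk := key (v3 p) (v1 p) (v2 p) (v4 p) (l3 p)
      (by have := l1 p; omega) (by have := l2 p; omega) (by have := l4 p; omega)
    have e1 : min (min (v3 p) (v1 p)) (v2 p) = min (min (v1 p) (v2 p)) (v3 p) := by omega
    have e2 : min (v3 p) (v1 p) = min (v1 p) (v3 p) := min_comm _ _
    have e3 : min (v3 p) (v2 p) = min (v2 p) (v3 p) := min_comm _ _
    rw [e1, e2, e3] at hk
    exact hk
  · refine Nat.eq_of_factorization_eq n4 (by positivity) fun p => ?_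
    rw [fact_mul7 m14 m24 m34 m124 m134 m234 m1234, fact_mk q14, fact_mk q24, fact_mk q34,
      fact_mk q124, fact_mk q134, fact_mk q234, fact_mk q1234, ← hv4, h14, h24, h34, h124, h134,
      h234, h1234]
    have hk := key (v4 p) (v1 p) (v2 p) (v3 p) (l4 p)
      (by have := l1 p; omega) (by have := l2 p; omega) (by have := l3 p; omega)
    have e0 : min (min (min (v4 p) (v1 p)) (v2 p)) (v3 p)
        = min (min (min (v1 p) (v2 p)) (v3 p)) (v4 p) := by omega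
    have e1 : min (min (v4 p) (v1 p)) (v2 p) = min (min (v1 p) (v2 p)) (v4 p) := by omega
    have e1' : min (min (v4 p) (v1 p)) (v3 p) = min (min (v1 p) (v3 p)) (v4 p) := by omega
    have e1'' : min (min (v4 p) (v2 p)) (v3 p) = min (min (v2 p) (v3 p)) (v4 p) := by omega
    rw [e0, e1, e1', e1'', min_comm (v4 p) (v1 p), min_comm (v4 p) (v2 p),
      min_comm (v4 p) (v3 p)] at hk
    exact hk
  · refine Nat.Coprime.symm (Nat.coprime_of_dvd fun p hp ha hb => ?_)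
    have c1 := hp.factorization_pos_of_dvd m23 ha
    have c2 := hp.factorization_pos_of_dvd m14 hb
    rw [fact_mk q23, h23] at c1
    rw [fact_mk q14, h14] at c2
    omega

end Pool.Agent.UFU

end
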