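import Pool.Agent.UFU.Defs

/-!
# Statements of the modules `UFU_*` (MP_dcc108_nt), with complete proofs in the doc strings

Goal: for every `ε > 0`, for all large `t`, `N t ≤ c ^ ((3/16 + ε) 2 ^ t)`, `c = lim (syl n) ^ (1 / 2 ^ (n+1))`
(`= 1.264…`).  The best published constant is `1/5` in place of `3/16` (Elsholtz, Planitzer 2021).

Every module is independent of the others: what it uses is a hypothesis (`(h : S_…)`).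
-/

set_option autoImplicit false

noncomputable section

namespace Pool.Agent.UFU

open Finset Filter Topology

/-- REL (relative gcd decomposition).  Put `g_I = gcd (t_i, i ∈ I)`, `l_I = lcm (t_j, j ∉ I)`,
`d_I = g_I / gcd (g_I, l_I)` for `2 ≤ |I| ≤ 3` and `d_1234 = gcd` of all four.  For a prime `p` let `v_i` be the
exponent of `p` in `t_i`: the exponent of `p` in `d_I` is `min_{i ∈ I} v_i - max_{j ∉ I} v_j` (truncated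
subtraction).  The hypotheses say that no `v_i` is larger than all the others; so `v_i` is the sum of the
exponents of the `d_I` with `i ∈ I` (`Nat.factorization_div`, `Nat.factorization_gcd`, `Nat.factorization_lcm`;
then `omega` on the four exponents with `min` and `max`).  `d14` and `d23` have no common prime:
`min v1 v4 > max v2 v3` and `min v2 v3 > max v1 v4` contradict each other. -/
def S_REL : Prop := ∀ t1 t2 t3 t4 : ℕ, 0 < t1 → 0 < t2 → 0 < t3 → 0 < t4 →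
  t1 ∣ (t2.lcm t3).lcm t4 → t2 ∣ (t1.lcm t3).lcm t4 → t3 ∣ (t1.lcm t2).lcm t4 →
  t4 ∣ (t1.lcm t2).lcm t3 →
  ∃ d12 d13 d14 d23 d24 d34 d123 d124 d134 d234 d1234 : ℕ,
    t1 = d12 * d13 * d14 * d123 * d124 * d134 * d1234 ∧
    t2 = d12 * d23 * d24 * d123 * d124 * d234 * d1234 ∧
    t3 = d13 * d23 * d34 * d123 * d134 * d234 * d1234 ∧
    t4 = d14 * d24 * d34 * d124 * d134 * d234 * d1234 ∧
    Nat.Coprime d14 d23

/-- DEC (hypothesis `S_REL`).  `ni = gcd (xi, n)`, `ti = xi / ni`, `ci = n / ni`.  From the equation,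
`1/x1 = h/n - 1/x2 - 1/x3 - 1/x4`, so `x1 ∣ lcm (n, x2, x3, x4)` (multiply by the lcm: an integer is equal to
`lcm / x1`).  In exponents of `p`: `v(x1) ≤ max (v(n), v(x2), v(x3), v(x4))`, and `v(t_i) = v(x_i) - v(n)`
(truncated), so `v(t1) ≤ max (v(t2), v(t3), v(t4))`: `t1 ∣ lcm (t2, t3, t4)`; similarly for the others.  Apply
`S_REL`.  The equation `eqn`: `h / n = Σ 1 / (ni ti)`, multiply by `n` and by the product of all the `d_I`: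
`n / (n1 t1) * ∏ = c1 * ∏_{I ∌ 1} d_I` (cancel: e.g. multiply `eqn` by `n1 n2 n3 n4 * d…`, or work in `ℚ` with
`field_simp`). -/
def S_DEC : Prop := ∀ h n x1 x2 x3 x4 : ℕ, 0 < h → 0 < n → 0 < x1 → 0 < x2 → 0 < x3 → 0 < x4 →
  h * (x1 * x2 * x3 * x4) = n * (x2 * x3 * x4 + x1 * x3 * x4 + x1 * x2 * x4 + x1 * x2 * x3) →
  ∃ D : Dc, IsDec h n x1 x2 x3 x4 D

/-- GEO.  The equation: `h0 x1 x2 x3 x4 = (b x0 + h1) x2 x3 x4` and so on (`e1`, `e2`, `e3`, `e4`).  Sizes: with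
`1 ≤ a ≤ b`: `x0 ≤ 5 b`, `b x0 ≤ 5 b²`, `x1, h1 ≤ 4 b x0 ≤ 20 b²`, `b x0 x1 ≤ 100 b⁴`, `x2, h2 ≤ 300 b⁴`,
`b x0 x1 x2 ≤ 30000 b⁸`, `x3, h3 ≤ 60000 b⁸`, `x4 ≤ b x0 x1 x2 x3 ≤ 1800000000 b¹⁶ ≤ (10 b)¹⁶`. -/
def S_GEO : Prop := ∀ a b x0 h0 x1 h1 x2 h2 x3 h3 x4 : ℕ, 0 < a → a ≤ b →
  Good a b x0 h0 x1 h1 x2 h2 x3 h3 x4 →
  (0 < x0 ∧ 0 < x1 ∧ 0 < x2 ∧ 0 < x3 ∧ 0 < x4) ∧
  h0 * (x1 * x2 * x3 * x4) =
    (b * x0) * (x2 * x3 * x4 + x1 * x3 * x4 + x1 * x2 * x4 + x1 * x2 * x3) ∧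
  (x1 ≤ (10 * b) ^ 16 ∧ x2 ≤ (10 * b) ^ 16 ∧ x3 ≤ (10 * b) ^ 16 ∧ x4 ≤ (10 * b) ^ 16 ∧
    h0 ≤ (10 * b) ^ 16 ∧ h1 ≤ (10 * b) ^ 16 ∧ h2 ≤ (10 * b) ^ 16 ∧
    b * x0 ≤ (10 * b) ^ 16 ∧ b * x0 * x1 ≤ (10 * b) ^ 16 ∧ b * x0 * x1 * x2 ≤ (10 * b) ^ 16)

/-- KEY.  The left side is `a⁶ h0² h1² h2 · W (d23 d234)²`, and `W (d23 d234)² ≤ x2 x3` (`z2`, `z3`: in
`x2 x3` every `d_I` occurs at least as often as in `W (d23 d234)²`; all factors are positive because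
`x2, x3 > 0`; `d14` does not occur, `n2, n3 ≥ 1`).  Then `h2 x3 ≤ 2 b x0 x1 x2`, `h1 x2 ≤ 3 b x0 x1`,
`h0 x1 ≤ 4 b x0`, `a x0 ≤ 5 b` give
`h0² h1² h2 x2 x3 ≤ 2 (b x0 x1) (h1 x2)² h0² ≤ 18 (b x0)³ x1³ h0² ≤ 18 (b x0)³ (h0 x1)³ ≤ 18 · 64 (b x0)⁶`
(`h0² ≤ h0³`) and `a⁶ (b x0)⁶ ≤ (5 b²)⁶`; `18 · 64 · 5⁶ = 18000000`. -/
def S_KEY : Prop := ∀ (a b x0 h0 x1 h1 x2 h2 x3 h3 x4 : ℕ) (D : Dc), 0 < a → 0 < b →
  Good a b x0 h0 x1 h1 x2 h2 x3 h3 x4 → IsDec h0 (b * x0) x1 x2 x3 x4 D →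
  a ^ 6 * ((h0 * D.W) * (h1 * (D.d23 * D.d234)) ^ 2 * (h0 * h2)) ≤ 18000000 * b ^ 12

/-- CL1 (first class: `h0 W ≤ M`).  The tuple is determined by: `w = h0 W ∈ [1, M]`; nine divisors of `w`
(`h0, d12, d13, d24, d34, d123, d124, d134, d1234`), which give `x0 = (b + h0) / a`; four divisors
`n1, …, n4` of `b x0`, which give the `ci`; now put `A1 = c1 d24 d34`, `A2 = c2 d13 d34 d134`,
`A3 = c3 d12 d24 d124`, `A4 = c4 d12 d13 d123`, and `eqn` reads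
`h0 W d14 d23 d234 = A1 d23 d234 + (A2 + A3) d14 + A4 d23`.  So `d23 ∣ (A2 + A3) d14`, and `d23` is coprime to
`d14`: `d23` is a divisor of `A2 + A3`.  With `A = h0 W d23`, `q = A d14 - A1 d23` one has `q > 0` and
`q (A d234 - (A2 + A3)) = A A4 d23 + A1 d23 (A2 + A3) =: Q > 0`: `q` is a divisor of `Q`, and
`d14 = (q + A1 d23) / A`, `d234 = (Q / q + (A2 + A3)) / A`.
All the numbers whose divisors occur are positive and `≤ (2 X)⁸`: `w ≤ M ≤ X`, `b x0 ≤ X`, `ci ≤ b x0 ≤ X`,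
`A2 ≤ X x3`, `A3 ≤ X x2`, `A4 ≤ X x1`, `A1 ≤ X x4`, `A ≤ M x2`, so `A2 + A3 ≤ 2 X²`, `Q ≤ 3 X⁵`.  (All `d_I`
are positive because `x1, …, x4 > 0`.)  Number of codes: `≤ M T⁹ T⁴ T T`.  Lean: `𝒮` is contained in a nested
`biUnion` (or in the image of a nested `Finset.sigma`; for the nine and the four divisors use
`Fintype.piFinset` or nine nested `biUnion`) and `Finset.card_biUnion_le_card_mul`. -/
def S_CL1 : Prop := ∀ (a b X M T : ℕ) (S : Finset (ℕ × ℕ × ℕ × ℕ × ℕ)), 0 < a → 0 < b →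
  TauB X T → M ≤ X →
  (∀ x0 x1 x2 x3 x4 : ℕ, (x0, x1, x2, x3, x4) ∈ S →
    (0 < x0 ∧ 0 < x1 ∧ 0 < x2 ∧ 0 < x3 ∧ 0 < x4) ∧ b * x0 ≤ X ∧ x1 ≤ X ∧ x2 ≤ X ∧ x3 ≤ X ∧ x4 ≤ X ∧
    ∃ (h0 : ℕ) (D : Dc), 0 < h0 ∧ a * x0 = b + h0 ∧ IsDec h0 (b * x0) x1 x2 x3 x4 D ∧ h0 * D.W ≤ M) →
  S.card ≤ M * T ^ 15

/-- CL2 (second class: `h1 d23 d234 ≤ M`).  The tuple is determined by: `w = h1 (d23 d234) ∈ [1, M]`; three
divisors `h1, d23, d234` of `w`; `h0`, a divisor of `b² + a h1` (indeed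
`h0 (a x1 - b) = a (b x0 + h1) - b h0 = b (b + h0) + a h1 - b h0 = b² + a h1`), which gives
`x0 = (b + h0) / a`, `x1 = (b x0 + h1) / h0`; four divisors `n1, …, n4` of `b x0`, which give the `ci`; seven
divisors `d12, d13, d14, d123, d124, d134, d1234` of `x1`.  Put `P = d12 d13 d14 d123 d124 d134 d1234`,
`B = (h0 P - c1) (d23 d234)` (`h0 P > c1` because `n1 h0 P = h0 x1 > b x0 = n1 c1`),
`B2 = c2 d13 d14 d134`, `B3 = c3 d12 d14 d124`, `B4 = c4 d12 d13 d123 d23`: `eqn` reads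
`B d24 d34 = B2 d34 + B3 d24 + B4`.  So `q = B d24 - B2 > 0` and
`q (B d34 - B3) = B2 B3 + B B4 =: Q > 0`: `q` is a divisor of `Q`, `d24 = (q + B2) / B`,
`d34 = (Q / q + B3) / B`.
Sizes: `w ≤ M ≤ X`, `h1 ≤ X`, `b² + a h1 ≤ 2 X²`, `b x0 ≤ X`, `x1 ≤ X`, `h0 P ≤ h0 x1 = b x0 + h1 ≤ 2 X`,
`d23 d234 ≤ X`, `B ≤ 2 X²`, `B2, B3 ≤ X²`, `B4 ≤ X² · X`, `Q ≤ X⁴ + 2 X⁵ ≤ (2 X)⁸`.  Number of codes:
`≤ M T³ T T⁴ T⁷ T`. -/
def S_CL2 : Prop := ∀ (a b X M T : ℕ) (S : Finset (ℕ × ℕ × ℕ × ℕ × ℕ)), 0 < a → 0 < b →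
  a ≤ X → b ≤ X → TauB X T → M ≤ X →
  (∀ x0 x1 x2 x3 x4 : ℕ, (x0, x1, x2, x3, x4) ∈ S →
    (0 < x0 ∧ 0 < x1 ∧ 0 < x2 ∧ 0 < x3 ∧ 0 < x4) ∧ b * x0 ≤ X ∧ x1 ≤ X ∧ x2 ≤ X ∧ x3 ≤ X ∧ x4 ≤ X ∧
    ∃ (h0 h1 : ℕ) (D : Dc), 0 < h0 ∧ 0 < h1 ∧ a * x0 = b + h0 ∧ h0 * x1 = b * x0 + h1 ∧
      IsDec h0 (b * x0) x1 x2 x3 x4 D ∧ h1 * (D.d23 * D.d234) ≤ M) →
  S.card ≤ M * T ^ 16

/-- CL3 (third class: `h0 h2 ≤ M`).  The tuple is determined by: `w = h0 h2 ∈ [1, M]`; two divisors `h0, h2` of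
`w`, which give `x0 = (b + h0) / a`; with `n = b x0`: `h1`, a divisor of `n² + h0 h2` (indeed
`h1 (h0 x2 - n) = h0 (n x1 + h2) - n h1 = n (n + h1) + h0 h2 - n h1 = n² + h0 h2`), which gives
`x1 = (n + h1) / h0`, `x2 = (n x1 + h2) / h1`; with `m = n x1 x2`: `h3`, a divisor of `m²` (indeed
`h3 (h2 x4 - m) = h2 m x3 - m h3 = m (m + h3) - m h3 = m²`), which gives `x3 = (m + h3) / h2`,
`x4 = m x3 / h3`.  Sizes: `n² + h0 h2 ≤ 2 X²`, `m² ≤ X²`.  Number of codes: `≤ M T² T T`. -/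
def S_CL3 : Prop := ∀ (a b X M T : ℕ) (S : Finset (ℕ × ℕ × ℕ × ℕ × ℕ)), 0 < a → 0 < b →
  TauB X T → M ≤ X →
  (∀ x0 x1 x2 x3 x4 : ℕ, (x0, x1, x2, x3, x4) ∈ S →
    ∃ h0 h1 h2 h3 : ℕ, Good a b x0 h0 x1 h1 x2 h2 x3 h3 x4 ∧ b * x0 ≤ X ∧ b * x0 * x1 * x2 ≤ X ∧
      h0 * h2 ≤ M) →
  S.card ≤ M * T ^ 4

/-- LST.  Unfold `L 5 a b`.  `L k 0 b' = ∅` for `k ≥ 1`, `b' > 0` (then `nxt` is empty), so `h0, …, h3 > 0`;
in the last step `b3 ≤ h3 x4 ≤ 1 · b3`. -/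
def S_LST : Prop := ∀ a b : ℕ, 0 < a → 0 < b → ∀ l ∈ L 5 a b,
  ∃ x0 h0 x1 h1 x2 h2 x3 h3 x4 : ℕ, l = [x0, x1, x2, x3, x4] ∧ Good a b x0 h0 x1 h1 x2 h2 x3 h3 x4

/-- COMB (hypotheses `S_DEC, S_GEO, S_KEY, S_CL1, S_CL2, S_CL3, S_LST`).  Let `S` be the finset of the tuples
`(x0, …, x4)` with `[x0, …, x4] ∈ L 5 a b` (image of `L 5 a b`; same cardinality because of `S_LST`).  For each
of them there are `h0, …, h3` and a decomposition `D`; if none of `h0 W`, `h1 (d23 d234)`, `h0 h2` were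
`≤ M`, then `S_KEY` would give `a⁶ (M+1)⁴ ≤ 18000000 b¹²`.  So `S` is the union of three filters, to which
`S_CL1`, `S_CL2`, `S_CL3` apply with `X = (10 b)¹⁶`; `T ≥ 1` (`m = 1` in `TauB`). -/
def S_COMB : Prop := ∀ a b M T : ℕ, 0 < a → a ≤ b → TauB ((10 * b) ^ 16) T → M ≤ (10 * b) ^ 16 →
  18000000 * b ^ 12 < a ^ 6 * (M + 1) ^ 4 → Rc 5 a b ≤ 3 * (M * T ^ 16)

/-- CORE (hypothesis `S_COMB`).  `Pool.Agent.Lib_helper91.exists_divisor_bound` (`d(m) ≤ C m ^ (1/L)`) with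
exponent `L' = 16 · 128 · 16 L = 32768 L`: for `m ≤ (2 (10 b)¹⁶)⁸ ≤ (20 b)¹²⁸`: `d(m) ≤ C' b ^ (128 / L')`,
`T = ⌊C' b ^ (128/L')⌋`, `T¹⁶ ≤ C'' b ^ (2048 / L') ≤ C'' b ^ (1/L)` (any `L'` large enough will do).
`M = ⌊66 G ^ (3/2)⌋`, `G = b²/a`, `1 ≤ b ≤ G ≤ b²`: `(M+1)⁴ a⁶ > 66⁴ G⁶ a⁶ = 18974736 b¹²`, and
`M ≤ 66 b³ ≤ (10 b)¹⁶`.  So `Rc 5 a b ≤ 3 · 66 G ^ (3/2) · C'' b ^ (1/L)`, and `b ≤ G`. -/
def S_CORE : Prop := ∀ L : ℕ, 0 < L → ∃ C : ℝ, 1 ≤ C ∧ ∀ a b : ℕ, 0 < a → a ≤ b →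
  (Rc 5 a b : ℝ) ≤ C * ((b : ℝ) ^ 2 / (a : ℝ)) ^ ((3 : ℝ) / 2 + 1 / (L : ℝ))

/-- REC.  Induction on `s`; `K = 5 + s + 1 ≤ t`.  `Rc K a b ≤ Σ_{x ∈ nxt K a b} Rc (5+s) (a x - b) (b x)`
(`Finset.card_biUnion_le`, `card_image_le`).  If `a x = b` the term is `Rc (5+s) 0 _ = 0` (`nxt` is empty as
`b x > 0`).  Otherwise `h = a x - b ≥ 1`, `h ≤ b x` (as `a ≤ b`), and with `G = b²/a`:
`(b x)² / h ≤ K² G² / h` because `x ≤ K b / a`.  By induction the term is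
`≤ C 3^s t^(2 E 2^s) (K² G² / h)^(E 2^s) ≤ C 3^s t^(2 E 2^s) t^(2 E 2^s) G^(E 2^(s+1)) h^(-3/2)`; the values
`h` are distinct for distinct `x`, and `Σ_{h=1}^{H} h^(-3/2) ≤ 3` (for `h ≥ 2`:
`h^(-3/2) ≤ 2 ((h-1)^(-1/2) - h^(-1/2))`). -/
def S_REC : Prop := ∀ E C : ℝ, 3 / 2 ≤ E → 1 ≤ C →
  (∀ a b : ℕ, 0 < a → a ≤ b → (Rc 5 a b : ℝ) ≤ C * ((b : ℝ) ^ 2 / (a : ℝ)) ^ E) →
  ∀ s t : ℕ, 5 + s ≤ t → ∀ a b : ℕ, 0 < a → a ≤ b →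
    (Rc (5 + s) a b : ℝ) ≤
      C * 3 ^ s * (t : ℝ) ^ (2 * E * 2 ^ s) * ((b : ℝ) ^ 2 / (a : ℝ)) ^ (E * 2 ^ s)

/-- CUR (Curtiss' theorem, proof of Soundararajan).  First `Σ_{j<n} 1/syl j = 1 - 1/U n`.
LEMMA: `y_1 ≥ … ≥ y_n > 0`, `x_i > 0`, all partial products of `x_i / y_i` (from the left) `≥ 1` ⇒
`Σ y_i ≤ Σ x_i`.  (With `r_i = x_i / y_i`, AM-GM gives `Σ_{i ≤ k} (r_i - 1) ≥ 0` for all `k`; Abel summation with
the nonincreasing weights `y_i` gives `Σ y_i (r_i - 1) ≥ 0`.)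
THEOREM by strong induction on `n = p.length`; permute so that `p = [a_1 ≤ … ≤ a_n]`.  Suppose
`Σ 1/a_i > 1 - 1/U n`.  As `1 - Σ 1/a_i ≥ 1/∏ a_i` (it is a positive multiple of `1/∏ a_i`), `∏ a_i > U n`.
Let `k < n` be the largest index with `∏_{i > k} a_i ≥ ∏_{i > k} u_i` (`u_i` = Sylvester numbers; `k = 0` is
one).  For `k < j < n`: `∏_{i > j} a_i < ∏_{i > j} u_i`, hence `∏_{k < i ≤ j} a_i ≥ ∏_{k < i ≤ j} u_i` (also for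
`j = n`).  The lemma with `y_i = 1/a_i`, `x_i = 1/u_i`, `k < i ≤ n`, gives `Σ_{i > k} 1/a_i ≤ Σ_{i > k} 1/u_i`,
and by induction `Σ_{i ≤ k} 1/a_i ≤ 1 - 1/U k = Σ_{i ≤ k} 1/u_i`.  Together `Σ 1/a_i ≤ 1 - 1/U n`. -/
def S_CUR : Prop := ∀ p : List ℕ, (∀ x ∈ p, 0 < x) →
  (p.map fun x : ℕ => (1 : ℚ) / (x : ℚ)).sum < 1 →
  (1 : ℚ) / (U p.length : ℚ) ≤ 1 - (p.map fun x : ℕ => (1 : ℚ) / (x : ℚ)).sum

/-- SYL.  `U i = syl i - 1` (induction: `syl (i+1) - 1 = syl i (syl i - 1)`), `U (i+1) = U i (U i + 1) ≥ (U i)²`.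
`(syl n)^(1/2^(n+1))` is nonincreasing (`syl (n+1) ≤ (syl n)²`) and `≥ 1`: it converges to its infimum `c`.
`(U n)^(1/2^(n+1))` is nondecreasing, and `syl n ≤ 2 U n`, so it has the same limit `c`
(`2^(1/2^(n+1)) → 1`); hence `(U i)^(1/2^(i+1)) ≤ c`.  `1 < c` from `i = 1`: `2 ≤ c⁴`. -/
def S_SYL : Prop := ∃ c : ℝ, 1 < c ∧
  Tendsto (fun n : ℕ => (syl n : ℝ) ^ ((1 : ℝ) / 2 ^ (n + 1))) atTop (𝓝 c) ∧
  ∀ i : ℕ, (U i : ℝ) ≤ c ^ (2 ^ (i + 1))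

/-- RCH (hypothesis `S_CUR`).  `Reach t i a b` gives `a ≤ b` (the sum is `≥ 0`) and, as `a > 0`, the sum is
`< 1`, so `S_CUR` gives `1 / U i ≤ a / b`. -/
def S_RCH : Prop := ∀ t i a b : ℕ, Reach t i a b → 0 < a ∧ a ≤ b ∧ b ≤ U i * a

/-- PRE (hypothesis `S_RCH`).  Show by induction on `k` (`k ≤ i`), for `j = i - k`: `Reach t j a b` implies
`Rc (t - j) a b ≤ (∏ m ∈ range i \ range j, t U_m) F`; `j = 0` with `Reach t 0 1 1` (`p = []`) is the claim.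
Step: for `j < i`, `Rc (t - j) a b ≤ Σ_{x ∈ nxt (t-j) a b} Rc (t - j - 1) (a x - b) (b x)`.  `x ≥ 1`,
`a x ≤ (t - j) b ≤ t U_j a`, so `1 ≤ x ≤ t U_j`: at most `t U_j` terms.  If `a x = b` the term is `0`
(`Rc k 0 b' = 0` for `k ≥ 1`, `b' > 0`; and `F ≥ 0` may be assumed, see below).  Otherwise
`Reach t (j+1) (a x - b) (b x)` (`p ++ [x]`, and `b x ≤ b t U_j`), and the induction hypothesis applies. -/
def S_PRE : Prop := ∀ (t i : ℕ) (F : ℝ), i + 5 ≤ t → 0 ≤ F →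
  (∀ a b : ℕ, Reach t i a b → (Rc (t - i) a b : ℝ) ≤ F) →
  (Rc t 1 1 : ℝ) ≤ ((∏ j ∈ range i, (t * U j) : ℕ) : ℝ) * F

/-- LNK.  (1) A nondecreasing list of `k` positive integers with `Σ 1/x = a/b` (`b > 0`) lies in `L k a b`
(induction: its first entry `x` satisfies `1/x ≤ a/b ≤ k/x`, the rest is nondecreasing with sum
`a/b - 1/x = (a x - b)/(b x)`).  (2) For `x ∈ Sol t` the sorted list (`Tuple.sort`, or
`(List.ofFn x).mergeSort`) is in `L t 1 1`, and `x` is this list composed with a permutation of `Fin t`.  So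
`Sol t` is contained in the image of `Equiv.Perm (Fin t) × L t 1 1`: finite, of at most `t! Rc t 1 1`
elements. -/
def S_LNK : Prop := ∀ t : ℕ, (Sol t).Finite ∧ N t ≤ t.factorial * Rc t 1 1

/-- ASY (pure analysis).  Take `i = ⌊t/2⌋`, `s = t - 5 - i ≤ t/2`, `V j ≤ c^(2^(j+1))` for all `j`, so
`∏_{j<i} (t V j) ≤ t^i c^(2^(i+1))`.  The logarithm of the left side is
`≤ t log t + (1 + E 2^s) (i log t + 2^(i+1) log c) + log C + s log 3 + 2 E 2^s log t + E 2^s 2^(i+1) log c`,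
and `E 2^s (2^(i+1) + 2^(i+1)) log c = E 2^(s+i+2) log c = (E/8) 2^t log c`; all the other terms are
`O(t² 2^(t/2))`, which is `≤ δ 2^t log c` for large `t`. -/
def S_ASY : Prop := ∀ (c C E δ : ℝ) (V : ℕ → ℝ), 1 < c → 1 ≤ C → 3 / 2 ≤ E → 0 < δ →
  (∀ j, 1 ≤ V j ∧ V j ≤ c ^ (2 ^ (j + 1))) →
  ∀ᶠ t : ℕ in atTop, ∃ i s : ℕ, i + 5 + s = t ∧
    (t.factorial : ℝ) * ((∏ j ∈ range i, ((t : ℝ) * V j)) *
      (C * 3 ^ s * (t : ℝ) ^ (2 * E * 2 ^ s) *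
        ((∏ j ∈ range i, ((t : ℝ) * V j)) * V i) ^ (E * 2 ^ s))) ≤
      c ^ ((E / 8 + δ) * 2 ^ t)

/-- The goal. -/
def S_FIN : Prop := ∃ c : ℝ, 1 < c ∧
  Tendsto (fun n : ℕ => (syl n : ℝ) ^ ((1 : ℝ) / 2 ^ (n + 1))) atTop (𝓝 c) ∧
  ∀ ε : ℝ, 0 < ε → ∀ᶠ t : ℕ in atTop, (N t : ℝ) ≤ c ^ ((3 / 16 + ε) * 2 ^ t)

/-- Assembly (architect). -/
theorem assemble (hCORE : S_CORE) (hREC : S_REC) (hSYL : S_SYL) (hRCH : S_RCH) (hPRE : S_PRE)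
    (hLNK : S_LNK) (hASY : S_ASY) : S_FIN := by
  obtain ⟨c, hc1, hct, hcU⟩ := hSYL
  refine ⟨c, hc1, hct, fun ε hε => ?_⟩
  obtain ⟨K, hK⟩ := exists_nat_gt (1 / ε)
  have hK0 : 0 < K := by
    have : (0 : ℝ) < K := lt_trans (by positivity) hK
    exact_mod_cast this
  have hKr : (0 : ℝ) < K := by exact_mod_cast hK0
  obtain ⟨C, hC1, hC⟩ := hCORE K hK0
  have hE : (3 : ℝ) / 2 ≤ 3 / 2 + 1 / (K : ℝ) := by
    have : (0 : ℝ) ≤ 1 / (K : ℝ) := by positivity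
    linarith
  have hU1 : ∀ j, 1 ≤ U j := by
    intro j
    unfold U
    refine Nat.one_le_iff_ne_zero.2 (Finset.prod_ne_zero_iff.2 fun i _ => ?_)
    induction i with
    | zero => simp [syl]
    | succ n ih => simp [syl]
  have hev := hASY c C (3 / 2 + 1 / (K : ℝ)) (ε / 2) (fun j => (U j : ℝ)) hc1 hC1 hE (by positivity)
    (fun j => ⟨by exact_mod_cast hU1 j, hcU j⟩)
  filter_upwards [hev] with t ht
  obtain ⟨i, s, hist, hle⟩ := ht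
  set E : ℝ := 3 / 2 + 1 / (K : ℝ) with hEdef
  set B : ℝ := ∏ j ∈ range i, ((t : ℝ) * (U j : ℝ)) with hBdef
  have hB : ((∏ j ∈ range i, (t * U j) : ℕ) : ℝ) = B := by
    rw [hBdef]; push_cast; rfl
  have ht1 : (1 : ℝ) ≤ t := by
    have : 1 ≤ t := by omega
    exact_mod_cast this
  have hB0 : 0 ≤ B := by rw [← hB]; positivity
  set F : ℝ := C * 3 ^ s * (t : ℝ) ^ (2 * E * 2 ^ s) * (B * (U i : ℝ)) ^ (E * 2 ^ s) with hF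
  have hF0 : 0 ≤ F := by positivity
  have hbound : ∀ a b : ℕ, Reach t i a b → (Rc (t - i) a b : ℝ) ≤ F := by
    intro a b hab
    obtain ⟨ha, hle1, hle2⟩ := hRCH t i a b hab
    have h5 : t - i = 5 + s := by omega
    rw [h5]
    refine (hREC E C hE hC1 hC s t (by omega) a b ha hle1).trans ?_
    rw [hF]
    have har : (0 : ℝ) < a := by exact_mod_cast ha
    have hbB : (b : ℝ) ≤ B := by
      rw [← hB]
      obtain ⟨p, -, -, -, -, -, hb⟩ := hab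
      exact_mod_cast hb
    have hbU : (b : ℝ) / a ≤ U i := by
      rw [div_le_iff₀ har]
      exact_mod_cast hle2
    have hG : (b : ℝ) ^ 2 / a ≤ B * (U i : ℝ) := by
      have : (b : ℝ) ^ 2 / a = b * (b / a) := by ring
      rw [this]
      exact mul_le_mul hbB hbU (by positivity) hB0
    refine mul_le_mul_of_nonneg_left ?_ (by positivity)
    exact Real.rpow_le_rpow (by positivity) hG (by positivity)
  have h1 := hPRE t i F (by omega) hF0 hbound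
  rw [hB] at h1
  have h2 : (N t : ℝ) ≤ (t.factorial : ℝ) * (Rc t 1 1 : ℝ) := by
    have := (hLNK t).2
    exact_mod_cast this
  have hexp : (E / 8 + ε / 2) * 2 ^ t ≤ (3 / 16 + ε) * (2 : ℝ) ^ t := by
    refine mul_le_mul_of_nonneg_right ?_ (by positivity)
    have h3 : 1 / (K : ℝ) ≤ ε := by
      rw [div_le_iff₀ hKr]
      have := (div_lt_iff₀ hε).1 hK
      linarith
    rw [hEdef]
    linarith
  calc (N t : ℝ) ≤ (t.factorial : ℝ) * (Rc t 1 1 : ℝ) := h2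
    _ ≤ (t.factorial : ℝ) * (B * F) := mul_le_mul_of_nonneg_left h1 (by positivity)
    _ ≤ c ^ ((E / 8 + ε / 2) * 2 ^ t) := hle
    _ ≤ c ^ ((3 / 16 + ε) * 2 ^ t) := Real.rpow_le_rpow_of_exponent_le hc1.le hexp

end Pool.Agent.UFU

end
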